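import Pool.Agent.Lib.LP.Spec

/-! # LP, module CON: the continuation of `L(s, χ)` to `Re s > 0` by partial summation -/

set_option autoImplicit false

noncomputable section

namespace Pool.Agent.Lib.LP

open ArithmeticFunction DirichletCharacter MeasureTheory Filter Asymptotics Topology

namespace CONM

/-- the partial sums as a function of a real variable, cut off at `1` -/
def g {q : ℕ} (χ : DirichletCharacter ℂ q) : ℝ → ℂ :=
  (Set.Ioi (1 : ℝ)).indicator (fun u => ∑ k ∈ Finset.Icc 1 ⌊u⌋₊, χ (k : ZMod q))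

lemma measurable_sum {q : ℕ} (χ : DirichletCharacter ℂ q) :
    Measurable (fun u : ℝ => ∑ k ∈ Finset.Icc 1 ⌊u⌋₊, χ (k : ZMod q)) :=
  (measurable_from_nat (f := fun n : ℕ => ∑ k ∈ Finset.Icc 1 n, χ (k : ZMod q))).comp
    Nat.measurable_floor

lemma g_bound (hPER : SpecPER) {q : ℕ} [NeZero q] (χ : DirichletCharacter ℂ q) (hχ : χ ≠ 1)
    (u : ℝ) : ‖g χ u‖ ≤ q := by
  unfold g
  rw [norm_indicator_eq_indicator_norm]
  by_cases hu : u ∈ Set.Ioi (1 : ℝ)
  · rw [Set.indicator_of_mem hu]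
    exact hPER q χ hχ _
  · rw [Set.indicator_of_notMem hu]
    exact Nat.cast_nonneg q

lemma g_loc (hPER : SpecPER) {q : ℕ} [NeZero q] (χ : DirichletCharacter ℂ q) (hχ : χ ≠ 1) :
    LocallyIntegrableOn (g χ) (Set.Ioi 0) := by
  refine LocallyIntegrable.locallyIntegrableOn ?_ _
  refine (locallyIntegrable_const (q : ℝ)).mono
    ((measurable_sum χ).indicator measurableSet_Ioi).aestronglyMeasurable ?_
  refine Eventually.of_forall (fun u => ?_)
  rw [Real.norm_natCast]
  exact g_bound hPER χ hχ u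

lemma mellin_g {q : ℕ} (χ : DirichletCharacter ℂ q) (s : ℂ) :
    mellin (g χ) (-s) = ∫ u in Set.Ioi (1 : ℝ),
      (∑ k ∈ Finset.Icc 1 ⌊u⌋₊, χ (k : ZMod q)) * (u : ℂ) ^ (-(s + 1)) := by
  unfold mellin
  have h1 : ∀ t : ℝ, (t : ℂ) ^ (-s - 1) • g χ t = (Set.Ioi (1 : ℝ)).indicator
      (fun u : ℝ => (∑ k ∈ Finset.Icc 1 ⌊u⌋₊, χ (k : ZMod q)) * (u : ℂ) ^ (-(s + 1))) t := by
    intro t
    unfold g
    by_cases ht : t ∈ Set.Ioi (1 : ℝ)
    · rw [Set.indicator_of_mem ht, Set.indicator_of_mem ht, smul_eq_mul, mul_comm]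
      congr 2
      ring
    · rw [Set.indicator_of_notMem ht, Set.indicator_of_notMem ht, smul_zero]
  simp_rw [h1]
  rw [setIntegral_indicator measurableSet_Ioi]
  congr 2
  ext t
  simp only [Set.mem_inter_iff, Set.mem_Ioi]
  constructor
  · exact fun h => h.2
  · exact fun h => ⟨by linarith, h⟩

lemma mellin_diff (hPER : SpecPER) {q : ℕ} [NeZero q] (χ : DirichletCharacter ℂ q) (hχ : χ ≠ 1)
    (s : ℂ) (hs : s.re < 0) : DifferentiableAt ℂ (mellin (g χ)) s := by
  refine mellin_differentiableAt_of_isBigO_rpow (a := 0) (b := s.re - 1) (g_loc hPER χ hχ) ?_ hs ?_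
    (by linarith)
  · refine IsBigO.of_bound (q : ℝ) (Eventually.of_forall (fun u => ?_))
    rw [neg_zero, Real.rpow_zero, norm_one, mul_one]
    exact g_bound hPER χ hχ u
  · refine (EventuallyEq.trans_isBigO (f₂ := fun _ => (0 : ℂ)) ?_ (isBigO_zero _ _))
    have h : Set.Iio (1 : ℝ) ∈ 𝓝[>] (0 : ℝ) := mem_nhdsWithin_of_mem_nhds (Iio_mem_nhds one_pos)
    filter_upwards [h] with u hu
    unfold g
    rw [Set.indicator_of_notMem]
    intro h2
    have h3 : (1 : ℝ) < u := h2
    have h4 : u < 1 := hu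
    linarith

lemma of_one_lt (hPER : SpecPER) {q : ℕ} [NeZero q] (χ : DirichletCharacter ℂ q) (hχ : χ ≠ 1)
    (s : ℂ) (hs : 1 < s.re) : χ.LFunction s = s * mellin (g χ) (-s) := by
  rw [mellin_g, LFunction_eq_LSeries χ hs]
  refine LSeries_eq_mul_integral (fun n : ℕ => χ (n : ZMod q)) le_rfl (by linarith)
    (LSeriesSummable_of_one_lt_re χ hs) ?_
  refine IsBigO.of_bound (q : ℝ) (Eventually.of_forall (fun n => ?_))
  rw [Real.rpow_zero, norm_one, mul_one]
  exact hPER q χ hχ n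

end CONM

theorem specCON (hPER : SpecPER) : SpecCON := by
  intro q _ χ hχ s hs
  rw [← CONM.mellin_g]
  have hopen : IsOpen {z : ℂ | 0 < z.re} := isOpen_lt continuous_const Complex.continuous_re
  have h1 : AnalyticOnNhd ℂ χ.LFunction {z : ℂ | 0 < z.re} :=
    (differentiable_LFunction hχ).differentiableOn.analyticOnNhd hopen
  have h2 : AnalyticOnNhd ℂ (fun z => z * mellin (CONM.g χ) (-z)) {z : ℂ | 0 < z.re} := by
    refine DifferentiableOn.analyticOnNhd (fun z hz => ?_) hopen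
    have hz' : (-z).re < 0 := by
      have : 0 < z.re := hz
      simpa using this
    refine DifferentiableAt.differentiableWithinAt ?_
    refine differentiableAt_id.mul ?_
    exact (CONM.mellin_diff hPER χ hχ (-z) hz').comp z differentiableAt_id.neg
  have hconv : Convex ℝ {z : ℂ | 0 < z.re} := convex_halfSpace_re_gt 0
  refine h1.eqOn_of_preconnected_of_eventuallyEq h2 hconv.isPreconnected (z₀ := 2) (by simp) ?_ hs
  have h3 : {z : ℂ | 1 < z.re} ∈ 𝓝 (2 : ℂ) :=
    (isOpen_lt continuous_const Complex.continuous_re).mem_nhds (by simp)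
  filter_upwards [h3] with z hz
  exact CONM.of_one_lt hPER χ hχ z hz

end Pool.Agent.Lib.LP

end
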