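import Pool.Agent.Lib.LP.Spec

/-! # LP, module PER: partial sums of a character are bounded by the modulus -/

set_option autoImplicit false

namespace Pool.Agent.Lib.LP

open ArithmeticFunction DirichletCharacter MeasureTheory

namespace PERM

lemma sum_range_zmod (q : ℕ) [NeZero q] (h : ZMod q → ℂ) :
    ∑ k ∈ Finset.range q, h (k : ZMod q) = ∑ a, h a := by
  refine Finset.sum_bij (fun k _ => (k : ZMod q)) (fun _ _ => Finset.mem_univ _) ?_
    (fun a _ => ⟨a.val, Finset.mem_range.2 (ZMod.val_lt a), ZMod.natCast_zmod_val a⟩)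
    (fun _ _ => rfl)
  intro a ha b hb hab
  rw [ZMod.natCast_eq_natCast_iff'] at hab
  rwa [Nat.mod_eq_of_lt (Finset.mem_range.1 ha), Nat.mod_eq_of_lt (Finset.mem_range.1 hb)] at hab

lemma sum_icc (q : ℕ) (χ : DirichletCharacter ℂ q) (n : ℕ) :
    ∑ k ∈ Finset.Icc 1 n, χ (k : ZMod q) = ∑ k ∈ Finset.range n, χ ((k : ZMod q) + 1) := by
  induction n with
  | zero => simp
  | succ n ih =>
    rw [Finset.sum_Icc_succ_top (by omega), Finset.sum_range_succ, ih]
    push_cast
    rfl

lemma sum_full (q : ℕ) [NeZero q] (χ : DirichletCharacter ℂ q) (hχ : χ ≠ 1) :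
    ∑ k ∈ Finset.range q, χ ((k : ZMod q) + 1) = 0 := by
  rw [sum_range_zmod q (fun a => χ (a + 1)), ← MulChar.sum_eq_zero_of_ne_one hχ]
  exact Fintype.sum_equiv (Equiv.addRight (1 : ZMod q)) _ _ (fun _ => rfl)

end PERM

theorem specPER : SpecPER := by
  intro q _ χ hχ n
  rw [PERM.sum_icc]
  induction n using Nat.strong_induction_on with
  | _ n ih =>
    rcases Nat.lt_or_ge n q with h | h
    · refine (norm_sum_le _ _).trans ?_
      refine (Finset.sum_le_card_nsmul _ _ 1 (fun k _ => χ.norm_le_one _)).trans ?_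
      rw [Finset.card_range, nsmul_eq_mul, mul_one]
      exact_mod_cast h.le
    · obtain ⟨m, rfl⟩ := Nat.exists_eq_add_of_le h
      have hq : 0 < q := Nat.pos_of_ne_zero (NeZero.ne q)
      rw [Finset.sum_range_add, PERM.sum_full q χ hχ, zero_add]
      have h1 : ∑ x ∈ Finset.range m, χ (((q + x : ℕ) : ZMod q) + 1) =
          ∑ x ∈ Finset.range m, χ ((x : ZMod q) + 1) := by
        refine Finset.sum_congr rfl (fun x _ => ?_)
        rw [Nat.cast_add, ZMod.natCast_self, zero_add]
      rw [h1]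
      exact ih m (by omega)

end Pool.Agent.Lib.LP
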