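import Pool.Agent.Lib.LP.Spec

/-! # LP, module DB: bounds for `L` and `L'` near the line `σ = 1` -/

set_option autoImplicit false

noncomputable section

namespace Pool.Agent.Lib.LP

open ArithmeticFunction DirichletCharacter MeasureTheory

theorem specDB (hUB : SpecUB) : SpecDB := by
  intro T hT q _ χ hχ hq s him hs1 hs2
  have hT0 : 0 < T := by linarith
  have hq1 : (1 : ℝ) ≤ q := by exact_mod_cast Nat.one_le_iff_ne_zero.2 (NeZero.ne q)
  have hL : 0 ≤ Real.log q := Real.log_nonneg hq1
  have h4T : 1 / (4 * T) ≤ 1 / 4000 := by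
    rw [div_le_div_iff₀ (by positivity) (by norm_num)]
    linarith
  have h4T0 : 0 < 1 / (4 * T) := by positivity
  have h1T : 1 / (1 + T) ≤ 1 / (1 + Real.log q) :=
    one_div_le_one_div_of_le (by linarith) (by linarith)
  have h2T : 2 * (1 / (4 * T)) ≤ 1 / (1 + T) := by
    rw [show 2 * (1 / (4 * T)) = 1 / (2 * T) by field_simp; norm_num,
      div_le_div_iff₀ (by positivity) (by positivity)]
    linarith
  -- the bound on the disc
  have key : ∀ z : ℂ, ‖z - s‖ ≤ 1 / (4 * T) →
      ‖χ.LFunction z‖ ≤ 9 * (T + 3) * (T + 1) := by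
    intro z hz
    have hre : |(z - s).re| ≤ 1 / (4 * T) := (Complex.abs_re_le_norm _).trans hz
    have hre2 := abs_le.1 hre
    rw [Complex.sub_re] at hre2
    have hzre : 1 - 1 / (1 + Real.log q) ≤ z.re := by linarith [hre2.1]
    have hzre2 : 1 / 2 ≤ z.re := by linarith [hre2.1]
    have hb := hUB q χ hχ z hzre2 hzre
    have hns : ‖s‖ ≤ 2 + T := by
      have h1 := Complex.norm_le_abs_re_add_abs_im s
      have h2 : |s.re| ≤ 2 := abs_le.2 ⟨by linarith, hs2⟩
      linarith
    have hnz : ‖z‖ ≤ T + 3 := by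
      have h1 : ‖z‖ ≤ ‖z - s‖ + ‖s‖ := by
        have := norm_add_le (z - s) s
        rwa [sub_add_cancel] at this
      linarith
    refine hb.trans ?_
    have h5 : 9 * ‖z‖ ≤ 9 * (T + 3) := by linarith
    exact mul_le_mul h5 (by linarith) (by linarith) (by positivity)
  constructor
  · have h1 := key s (by rw [sub_self, norm_zero]; exact h4T0.le)
    refine h1.trans ?_
    nlinarith [mul_pos hT0 hT0]
  · have hc := Complex.norm_deriv_le_of_forall_mem_sphere_norm_le (c := s) (R := 1 / (4 * T))
      (C := 9 * (T + 3) * (T + 1)) (f := χ.LFunction) h4T0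
      (differentiable_LFunction hχ).diffContOnCl (fun z hz => key z (by
        rw [← dist_eq_norm]
        exact (Metric.mem_sphere.1 hz).le))
    refine hc.trans ?_
    rw [div_div_eq_mul_div, div_one]
    have h2 : (T + 3) * (T + 1) ≤ 2 * T ^ 2 := by nlinarith
    have h3 : 9 * (T + 3) * (T + 1) * (4 * T) = 36 * T * ((T + 3) * (T + 1)) := by ring
    rw [h3]
    have h4 : 36 * T * ((T + 3) * (T + 1)) ≤ 36 * T * (2 * T ^ 2) :=
      mul_le_mul_of_nonneg_left h2 (by positivity)
    refine h4.trans ?_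
    have h5 : 72 * T ^ 3 ≤ T * T ^ 3 := mul_le_mul_of_nonneg_right (by linarith) (by positivity)
    nlinarith

end Pool.Agent.Lib.LP

end
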