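import Pool.Agent.Lib.LP.Spec

/-!
# LP, module LDB: the logarithmic derivative to the right of the line `σ = 1`
-/

set_option autoImplicit false

namespace Pool.Agent.Lib.LP

open ArithmeticFunction DirichletCharacter MeasureTheory

namespace LDBM

/-- one step of the comparison of `∑ n^(-1-y)` with the integral -/
lemma step (y : ℝ) (hy : 0 < y) (n : ℕ) (hn : 1 ≤ n) :
    y * ((n + 1 : ℕ) : ℝ) ^ (-(1 + y)) ≤ (n : ℝ) ^ (-y) - ((n + 1 : ℕ) : ℝ) ^ (-y) := by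
  have hn0 : (0 : ℝ) < (n : ℝ) := by exact_mod_cast hn
  have hN0 : (0 : ℝ) < ((n + 1 : ℕ) : ℝ) := by positivity
  have hN : ((n + 1 : ℕ) : ℝ) = (n : ℝ) + 1 := by push_cast; rfl
  have e1 : ((n + 1 : ℕ) : ℝ) ^ (-(1 + y)) = ((n + 1 : ℕ) : ℝ) ^ (-y) * (1 / ((n + 1 : ℕ) : ℝ)) := by
    rw [show -(1 + y) = -y - 1 by ring, Real.rpow_sub hN0, Real.rpow_one, div_eq_mul_one_div]
  have e2 : (n : ℝ) ^ (-y) = ((n + 1 : ℕ) : ℝ) ^ (-y) *
      Real.exp (y * (Real.log ((n + 1 : ℕ) : ℝ) - Real.log (n : ℝ))) := by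
    rw [Real.rpow_def_of_pos hn0, Real.rpow_def_of_pos hN0, ← Real.exp_add]
    congr 1
    ring
  have h1 : 1 / ((n + 1 : ℕ) : ℝ) ≤ Real.log ((n + 1 : ℕ) : ℝ) - Real.log (n : ℝ) := by
    have h2 := Real.log_le_sub_one_of_pos (div_pos hn0 hN0)
    rw [Real.log_div hn0.ne' hN0.ne'] at h2
    have h3 : (n : ℝ) / ((n + 1 : ℕ) : ℝ) = 1 - 1 / ((n + 1 : ℕ) : ℝ) := by
      rw [hN]
      field_simp
      ring
    rw [h3] at h2
    linarith
  have h4 := Real.add_one_le_exp (y * (Real.log ((n + 1 : ℕ) : ℝ) - Real.log (n : ℝ)))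
  have h5 : y * (1 / ((n + 1 : ℕ) : ℝ)) ≤ y * (Real.log ((n + 1 : ℕ) : ℝ) - Real.log (n : ℝ)) :=
    mul_le_mul_of_nonneg_left h1 hy.le
  have hp : 0 < ((n + 1 : ℕ) : ℝ) ^ (-y) := Real.rpow_pos_of_pos hN0 _
  rw [e1, e2]
  nlinarith

lemma sum_le (y : ℝ) (hy : 0 < y) (N : ℕ) :
    ∑ n ∈ Finset.range N, (n : ℝ) ^ (-(1 + y)) ≤ 1 + 1 / y := by
  have key : ∀ N : ℕ, 1 ≤ N → ∑ n ∈ Finset.range (N + 1), (n : ℝ) ^ (-(1 + y)) ≤
      1 + 1 / y - (1 / y) * (N : ℝ) ^ (-y) := by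
    intro N hN
    induction N, hN using Nat.le_induction with
    | base =>
      rw [Finset.sum_range_succ, Finset.sum_range_succ, Finset.sum_range_zero]
      have h0 : ((0 : ℕ) : ℝ) ^ (-(1 + y)) = 0 := by
        rw [Nat.cast_zero, Real.zero_rpow]
        linarith
      rw [h0]
      simp
    | succ n hn ih =>
      rw [Finset.sum_range_succ]
      have h1 := step y hy n hn
      have h2 : ((n + 1 : ℕ) : ℝ) ^ (-(1 + y)) ≤
          (1 / y) * ((n : ℝ) ^ (-y) - ((n + 1 : ℕ) : ℝ) ^ (-y)) := by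
        rw [one_div, ← div_eq_inv_mul, le_div_iff₀ hy]
        linarith
      linarith
  rcases Nat.eq_zero_or_pos N with rfl | hN
  · simp
    positivity
  · have h1 := key N hN
    have h2 : ∑ n ∈ Finset.range N, (n : ℝ) ^ (-(1 + y)) ≤
        ∑ n ∈ Finset.range (N + 1), (n : ℝ) ^ (-(1 + y)) := by
      rw [Finset.sum_range_succ]
      have : 0 ≤ (N : ℝ) ^ (-(1 + y)) := by positivity
      linarith
    have h3 : 0 ≤ (1 / y) * (N : ℝ) ^ (-y) := by positivity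
    linarith

lemma summ (y : ℝ) (hy : 0 < y) : Summable fun n : ℕ => (n : ℝ) ^ (-(1 + y)) :=
  summable_of_sum_range_le (fun n => by positivity) (sum_le y hy)

lemma tsum_le (y : ℝ) (hy : 0 < y) : ∑' n : ℕ, (n : ℝ) ^ (-(1 + y)) ≤ 1 + 1 / y :=
  (summ y hy).tsum_le_of_sum_range_le (sum_le y hy)

end LDBM

theorem specLDB : SpecLDB := by
  intro q _ χ s hs hs2
  rw [deriv_LFunction_eq_deriv_LSeries χ hs, LFunction_eq_LSeries χ hs]
  have h1 := LSeries_twist_vonMangoldt_eq χ hs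
  have h2 : ‖deriv (LSeries (χ ·)) s / LSeries (χ ·) s‖ =
      ‖LSeries ((fun n : ℕ => χ n) * (fun n : ℕ => (vonMangoldt n : ℂ))) s‖ := by
    rw [h1, neg_div, norm_neg]
  rw [h2]
  obtain ⟨x, hx⟩ : ∃ x, x = s.re - 1 := ⟨_, rfl⟩
  have hx0 : 0 < x := by linarith
  have hx1 : x ≤ 1 := by linarith
  rw [← hx]
  have hy0 : 0 < x / 2 := by linarith
  have hsum : HasSum (fun n : ℕ => (2 / x) * (n : ℝ) ^ (-(1 + x / 2)))
      ((2 / x) * ∑' n : ℕ, (n : ℝ) ^ (-(1 + x / 2))) :=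
    (LDBM.summ (x / 2) hy0).hasSum.mul_left _
  have hb : ‖LSeries ((fun n : ℕ => χ n) * (fun n : ℕ => (vonMangoldt n : ℂ))) s‖ ≤
      (2 / x) * ∑' n : ℕ, (n : ℝ) ^ (-(1 + x / 2)) := by
    refine tsum_of_norm_bounded hsum fun n => ?_
    rw [LSeries.norm_term_eq]
    split_ifs with hn
    · positivity
    · have hn0 : (0 : ℝ) < (n : ℝ) := by exact_mod_cast Nat.pos_of_ne_zero hn
      have e1 : ‖((fun n : ℕ => χ n) * (fun n : ℕ => (vonMangoldt n : ℂ))) n‖ ≤ Real.log n := by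
        rw [Pi.mul_apply, norm_mul]
        have h3 : ‖((vonMangoldt n : ℝ) : ℂ)‖ ≤ Real.log n := by
          rw [Complex.norm_real, Real.norm_of_nonneg vonMangoldt_nonneg]
          exact vonMangoldt_le_log
        calc ‖χ n‖ * ‖((vonMangoldt n : ℝ) : ℂ)‖ ≤ 1 * Real.log n :=
              mul_le_mul (DirichletCharacter.norm_le_one χ _) h3 (norm_nonneg _) zero_le_one
          _ = Real.log n := one_mul _
      have e2 : Real.log n ≤ (2 / x) * (n : ℝ) ^ (x / 2) := by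
        have h4 := Real.log_le_rpow_div hn0.le hy0
        calc Real.log n ≤ (n : ℝ) ^ (x / 2) / (x / 2) := h4
          _ = (2 / x) * (n : ℝ) ^ (x / 2) := by field_simp
      have hpos : 0 < (n : ℝ) ^ s.re := Real.rpow_pos_of_pos hn0 _
      rw [div_le_iff₀ hpos]
      have e3 : (2 / x) * (n : ℝ) ^ (-(1 + x / 2)) * (n : ℝ) ^ s.re = (2 / x) * (n : ℝ) ^ (x / 2) := by
        rw [mul_assoc, ← Real.rpow_add hn0]
        congr 2
        rw [hx]
        ring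
      rw [e3]
      exact e1.trans e2
  refine hb.trans ?_
  have h5 := LDBM.tsum_le (x / 2) hy0
  calc (2 / x) * ∑' n : ℕ, (n : ℝ) ^ (-(1 + x / 2)) ≤ (2 / x) * (1 + 1 / (x / 2)) :=
        mul_le_mul_of_nonneg_left h5 (by positivity)
    _ = (2 * x + 4) / x ^ 2 := by field_simp; ring
    _ ≤ 8 / x ^ 2 := by
        apply div_le_div_of_nonneg_right _ (by positivity)
        linarith

end Pool.Agent.Lib.LP
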