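import Pool.Agent.Lib.LP.Spec
import Pool.Agent.Lib.LP.LDB

/-!
# LP, module INV: the lower bound to the right of the line `σ = 1`
-/

set_option autoImplicit false

namespace Pool.Agent.Lib.LP

open ArithmeticFunction DirichletCharacter MeasureTheory

namespace INVM

lemma norm_mu_le (n : ℕ) : ‖((moebius n : ℤ) : ℂ)‖ ≤ 1 := by
  rw [Complex.norm_intCast]
  exact_mod_cast ArithmeticFunction.abs_moebius_le_one

end INVM

theorem specINV : SpecINV := by
  intro q _ χ x y hx hx1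
  have hre : ((1 : ℂ) + x + y * Complex.I).re = 1 + x := by simp
  have hs : 1 < ((1 : ℂ) + x + y * Complex.I).re := by rw [hre]; linarith
  obtain ⟨s, hsdef⟩ : ∃ s : ℂ, s = (1 : ℂ) + x + y * Complex.I := ⟨_, rfl⟩
  rw [← hsdef] at hre hs ⊢
  rw [LFunction_eq_LSeries χ hs]
  have h1 := LSeries.mul_mu_eq_one χ hs
  have hb : ‖LSeries ((fun n : ℕ => χ n) * (fun n : ℕ => ((moebius n : ℤ) : ℂ))) s‖ ≤
      ∑' n : ℕ, (n : ℝ) ^ (-(1 + x)) := by
    refine tsum_of_norm_bounded (LDBM.summ x hx).hasSum fun n => ?_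
    rw [LSeries.norm_term_eq]
    split_ifs with hn
    · positivity
    · have hn0 : (0 : ℝ) < (n : ℝ) := by exact_mod_cast Nat.pos_of_ne_zero hn
      have e1 : ‖((fun n : ℕ => χ n) * (fun n : ℕ => ((moebius n : ℤ) : ℂ))) n‖ ≤ 1 := by
        rw [Pi.mul_apply, norm_mul]
        calc ‖χ n‖ * ‖((moebius n : ℤ) : ℂ)‖ ≤ 1 * 1 :=
              mul_le_mul (DirichletCharacter.norm_le_one χ _) (INVM.norm_mu_le n) (norm_nonneg _)
                zero_le_one
          _ = 1 := one_mul _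
      have hpos : 0 < (n : ℝ) ^ s.re := Real.rpow_pos_of_pos hn0 _
      rw [div_le_iff₀ hpos, hre, ← Real.rpow_add hn0]
      simpa using e1
  have h2 := hb.trans (LDBM.tsum_le x hx)
  have h3 : 1 + 1 / x ≤ 2 / x := by
    rw [le_div_iff₀ hx, add_mul, one_div, inv_mul_cancel₀ hx.ne']
    linarith
  have h4 := h2.trans h3
  have h5 : ‖LSeries (χ ·) s‖ *
      ‖LSeries ((fun n : ℕ => χ n) * (fun n : ℕ => ((moebius n : ℤ) : ℂ))) s‖ = 1 := by
    rw [← norm_mul]
    have : LSeries (χ ·) s *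
      LSeries ((fun n : ℕ => χ n) * (fun n : ℕ => ((moebius n : ℤ) : ℂ))) s = 1 := h1
    rw [this, norm_one]
  have h6 : 1 ≤ ‖LSeries (χ ·) s‖ * (2 / x) := by
    rw [← h5]
    exact mul_le_mul_of_nonneg_left h4 (norm_nonneg _)
  have h7 : ‖LSeries (χ ·) s‖ * (2 / x) = ‖LSeries (χ ·) s‖ * 2 / x := by ring
  rw [h7, le_div_iff₀ hx] at h6
  linarith

end Pool.Agent.Lib.LP
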