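import Pool.Agent.Lib.LP.Spec

/-!
# Primes in progressions to large moduli, module LOW

No zeros near the line `σ = 1` for all the moduli `q ∣ Q` prime to `p₀`.
-/

set_option autoImplicit false

namespace Pool.Agent.Lib.LP

namespace LOWM

lemma pow_anti {t : ℝ} (h0 : 0 ≤ t) (h1 : t ≤ 1) {m n : ℕ} (h : m ≤ n) : t ^ n ≤ t ^ m :=
  pow_le_pow_of_le_one h0 h1 h

/-- close to `1`: comparison with the value at `1` -/
lemma near (hDB : SpecDB) {T : ℝ} (hT : 1000 ≤ T) (q : ℕ) [NeZero q] (χ : DirichletCharacter ℂ q)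
    (hχ : χ ≠ 1) (hq : Real.log q ≤ T) (h1 : (T ^ 14)⁻¹ ≤ ‖χ.LFunction 1‖) {σ y : ℝ}
    (hy : |y| ≤ (T ^ 20)⁻¹) (hσ1 : 1 - (T ^ 44)⁻¹ ≤ σ) (hσ2 : σ ≤ 1 + (T ^ 20)⁻¹) :
    (T ^ 44)⁻¹ ≤ ‖χ.LFunction (σ + y * Complex.I)‖ := by
  have hT0 : 0 < T := by linarith
  obtain ⟨t, ht⟩ : ∃ t : ℝ, t = T⁻¹ := ⟨_, rfl⟩
  have ht0 : 0 < t := by rw [ht]; exact inv_pos.2 hT0
  have ht1 : t ≤ 1 / 1000 := by
    rw [ht, one_div]
    exact inv_anti₀ (by norm_num) hT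
  have hTt : T * t = 1 := by rw [ht]; exact mul_inv_cancel₀ hT0.ne'
  have hpow : ∀ n : ℕ, (T ^ n)⁻¹ = t ^ n := fun n => by rw [ht, inv_pow]
  simp only [hpow] at h1 hy hσ1 hσ2 ⊢
  have hle1 : t ≤ 1 := by linarith
  have h44 : t ^ 44 ≤ t ^ 20 := pow_anti ht0.le hle1 (by norm_num)
  have h20 : t ^ 20 ≤ t ^ 2 := pow_anti ht0.le hle1 (by norm_num)
  have h2 : t ^ 2 ≤ t / 4 := by nlinarith
  have h4T : 1 / (4 * T) = t / 4 := by
    rw [ht]
    field_simp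
  -- the region
  obtain ⟨S, hS⟩ : ∃ S : Set ℂ, S = (Set.Icc (1 - 1 / (4 * T)) 2) ×ℂ (Set.Icc (-T) T) := ⟨_, rfl⟩
  have hconv : Convex ℝ S := by
    have e : S = Complex.reLm ⁻¹' (Set.Icc (1 - 1 / (4 * T)) 2) ∩ Complex.imLm ⁻¹' (Set.Icc (-T) T) := by
      rw [hS]
      rfl
    rw [e]
    exact ((convex_Icc _ _).linear_preimage Complex.reLm).inter
      ((convex_Icc _ _).linear_preimage Complex.imLm)
  have hmem : ∀ z : ℂ, z ∈ S ↔ (1 - 1 / (4 * T) ≤ z.re ∧ z.re ≤ 2) ∧ |z.im| ≤ T := by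
    intro z
    rw [hS, Complex.mem_reProdIm, Set.mem_Icc, Set.mem_Icc, abs_le]
  have hd := Convex.norm_image_sub_le_of_norm_deriv_le (f := χ.LFunction) (C := T ^ 4) (s := S)
    (x := (1 : ℂ)) (y := (σ : ℂ) + y * Complex.I)
    (fun z _ => (DirichletCharacter.differentiable_LFunction hχ).differentiableAt)
    (fun z hz => by
      rw [hmem] at hz
      exact (hDB T hT q χ hχ hq z hz.2 hz.1.1 hz.1.2).2) hconv
    (by
      rw [hmem]
      simp only [Complex.one_re, Complex.one_im, abs_zero]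
      rw [h4T]
      exact ⟨⟨by linarith, by norm_num⟩, hT0.le⟩)
    (by
      rw [hmem]
      simp only [Complex.add_re, Complex.ofReal_re, Complex.mul_re, Complex.I_re, mul_zero,
        Complex.ofReal_im, Complex.I_im, mul_one, sub_self, add_zero, Complex.add_im, Complex.mul_im,
        zero_add]
      rw [h4T]
      have h3 : t ^ 20 ≤ 1 := pow_le_one₀ ht0.le hle1
      exact ⟨⟨by linarith, by linarith⟩, by linarith⟩)
  have hdist : ‖(σ : ℂ) + y * Complex.I - 1‖ ≤ t ^ 20 + t ^ 20 := by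
    have e : (σ : ℂ) + y * Complex.I - 1 = ((σ - 1 : ℝ) : ℂ) + (y : ℂ) * Complex.I := by
      push_cast
      ring
    rw [e]
    refine (norm_add_le _ _).trans ?_
    rw [norm_mul, Complex.norm_I, mul_one, Complex.norm_real, Complex.norm_real, Real.norm_eq_abs,
      Real.norm_eq_abs]
    refine add_le_add ?_ hy
    rw [abs_le]
    exact ⟨by linarith, by linarith⟩
  have hT4 : T ^ 4 * (t ^ 20 + t ^ 20) = 2 * t ^ 16 := by
    have : T ^ 4 * (t ^ 20 + t ^ 20) = 2 * (T * t) ^ 4 * t ^ 16 := by ring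
    rw [this, hTt]
    ring
  have hb : ‖χ.LFunction ((σ : ℂ) + y * Complex.I) - χ.LFunction 1‖ ≤ 2 * t ^ 16 := by
    refine hd.trans ?_
    rw [← hT4]
    exact mul_le_mul_of_nonneg_left hdist (by positivity)
  have hn : ‖χ.LFunction 1‖ ≤ ‖χ.LFunction ((σ : ℂ) + y * Complex.I)‖ + 2 * t ^ 16 := by
    have h5 := norm_sub_norm_le (χ.LFunction 1) (χ.LFunction ((σ : ℂ) + y * Complex.I))
    rw [norm_sub_rev] at h5
    linarith
  have h6 : t ^ 44 ≤ t ^ 16 := pow_anti ht0.le hle1 (by norm_num)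
  have h7 : 3 * t ^ 16 ≤ t ^ 14 := by
    have h8 : 3 * t ^ 2 ≤ 1 := by nlinarith
    calc 3 * t ^ 16 = (3 * t ^ 2) * t ^ 14 := by ring
      _ ≤ 1 * t ^ 14 := mul_le_mul_of_nonneg_right h8 (by positivity)
      _ = t ^ 14 := one_mul _
  linarith

/-- away from `1` on the right -/
lemma far (hINV : SpecINV) {T : ℝ} (hT : 1000 ≤ T) (q : ℕ) [NeZero q] (χ : DirichletCharacter ℂ q)
    {σ y : ℝ} (hσ1 : 1 + (T ^ 20)⁻¹ < σ) (hσ2 : σ ≤ 2) :
    (T ^ 44)⁻¹ ≤ ‖χ.LFunction (σ + y * Complex.I)‖ := by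
  have hT0 : 0 < T := by linarith
  obtain ⟨t, ht⟩ : ∃ t : ℝ, t = T⁻¹ := ⟨_, rfl⟩
  have ht0 : 0 < t := by rw [ht]; exact inv_pos.2 hT0
  have ht1 : t ≤ 1 / 1000 := by
    rw [ht, one_div]
    exact inv_anti₀ (by norm_num) hT
  have hpow : ∀ n : ℕ, (T ^ n)⁻¹ = t ^ n := fun n => by rw [ht, inv_pow]
  simp only [hpow] at hσ1 ⊢
  have hle1 : t ≤ 1 := by linarith
  have h20 : 0 < t ^ 20 := by positivity
  have h := hINV q χ (σ - 1) y (by linarith) (by linarith)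
  have e : (1 : ℂ) + ((σ - 1 : ℝ) : ℂ) + y * Complex.I = (σ : ℂ) + y * Complex.I := by
    push_cast
    ring
  rw [e] at h
  have h1 : t ^ 44 ≤ t ^ 21 := pow_anti ht0.le hle1 (by norm_num)
  have h2 : t ^ 21 ≤ t ^ 20 / 2 := by
    have : t ^ 21 = t * t ^ 20 := by ring
    rw [this]
    nlinarith
  linarith

end LOWM

theorem specLOW (hDB : SpecDB) (hINV : SpecINV) (hLB : SpecLB) (hEXC : SpecEXC) : SpecLOW := by
  intro B
  obtain ⟨T₁, hT₁, h⟩ := hEXC B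
  refine ⟨T₁, hT₁, fun T hT Q _ hQ hlog => ?_⟩
  obtain ⟨p₀, hp₀, hB, hq⟩ := h T hT Q hQ hlog
  refine ⟨p₀, hp₀, hB, fun q _ hqQ hcop χ hχ σ y hy hσ1 hσ2 => ?_⟩
  have hT' : 1000 ≤ T := hT₁.trans hT
  have hlogq : Real.log q ≤ T := by
    refine le_trans (Real.log_le_log ?_ ?_) hlog
    · exact_mod_cast Nat.pos_of_ne_zero (NeZero.ne q)
    · exact_mod_cast Nat.le_of_dvd (Nat.pos_of_ne_zero (NeZero.ne Q)) hqQ
  by_cases hc : χ ^ 2 ≠ 1 ∨ (T ^ 20)⁻¹ ≤ |y|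
  · exact hLB T hT' q χ hχ hlogq σ y hy hc hσ1 hσ2
  · rw [not_or, not_not, not_le] at hc
    by_cases hs : σ ≤ 1 + (T ^ 20)⁻¹
    · exact LOWM.near hDB hT' q χ hχ hlogq (hq q hqQ hcop χ hχ hc.1) hc.2.le hσ1 hs
    · exact LOWM.far hINV hT' q χ (not_le.1 hs) hσ2

end Pool.Agent.Lib.LP
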