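import Pool.Agent.Lib.LP.Spec

/-! # LP, module UB: the upper bound for `L(s, χ)` -/

set_option autoImplicit false

noncomputable section

namespace Pool.Agent.Lib.LP

open ArithmeticFunction DirichletCharacter MeasureTheory

namespace UBM

/-- the majorant of the integrand -/
def maj (q : ℕ) (σ : ℝ) (u : ℝ) : ℝ :=
  (Set.Ioc (1 : ℝ) q).indicator (fun u => Real.exp 1 * u⁻¹) u +
    (Set.Ioi (q : ℝ)).indicator (fun u => q * u ^ (-σ - 1)) u

lemma exp_bound {L σ v : ℝ} (hv0 : 0 ≤ v) (hvL : v ≤ L) (h : 1 - 1 / (1 + L) ≤ σ) :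
    (1 - σ) * v ≤ 1 := by
  have hL : 0 ≤ L := hv0.trans hvL
  have h1 : (1 - σ) * v ≤ 1 / (1 + L) * v := mul_le_mul_of_nonneg_right (by linarith) hv0
  refine h1.trans ?_
  rw [one_div, inv_mul_le_iff₀ (by linarith)]
  linarith

lemma rpow_bound {L σ v : ℝ} (hv : 1 ≤ v) (hvL : Real.log v ≤ L) (h : 1 - 1 / (1 + L) ≤ σ) :
    v ^ (1 - σ) ≤ Real.exp 1 := by
  rw [Real.rpow_def_of_pos (by linarith), mul_comm]
  exact Real.exp_le_exp.2 (exp_bound (Real.log_nonneg hv) hvL h)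

lemma norm_sum_le_floor {q : ℕ} (χ : DirichletCharacter ℂ q) (n : ℕ) :
    ‖∑ k ∈ Finset.Icc 1 n, χ (k : ZMod q)‖ ≤ n := by
  refine (norm_sum_le _ _).trans ?_
  refine (Finset.sum_le_card_nsmul _ _ 1 (fun k _ => χ.norm_le_one _)).trans ?_
  simp

lemma pointwise (hPER : SpecPER) {q : ℕ} [NeZero q] (χ : DirichletCharacter ℂ q) (hχ : χ ≠ 1)
    {s : ℂ} (hs : 1 - 1 / (1 + Real.log q) ≤ s.re) {u : ℝ} (hu : 1 < u) :
    ‖(∑ k ∈ Finset.Icc 1 ⌊u⌋₊, χ (k : ZMod q)) * (u : ℂ) ^ (-(s + 1))‖ ≤ maj q s.re u := by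
  have hu0 : 0 < u := by linarith
  rw [norm_mul, Complex.norm_cpow_eq_rpow_re_of_pos hu0]
  have hre : (-(s + 1)).re = -s.re - 1 := by simp; ring
  rw [hre]
  unfold maj
  rcases le_or_gt u q with h | h
  · rw [Set.indicator_of_mem (show u ∈ Set.Ioc (1 : ℝ) q from ⟨hu, h⟩),
      Set.indicator_of_notMem (show u ∉ Set.Ioi (q : ℝ) from fun h2 => absurd h2 (not_lt.2 h)),
      add_zero]
    have h1 : ‖∑ k ∈ Finset.Icc 1 ⌊u⌋₊, χ (k : ZMod q)‖ ≤ u :=
      (norm_sum_le_floor χ _).trans (Nat.floor_le hu0.le)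
    have h2 : u * u ^ (-s.re - 1) = u ^ (1 - s.re) * u⁻¹ := by
      rw [← Real.rpow_neg_one u, ← Real.rpow_add hu0]
      nth_rewrite 1 [← Real.rpow_one u]
      rw [← Real.rpow_add hu0]
      congr 1
      ring
    refine (mul_le_mul_of_nonneg_right h1 (Real.rpow_nonneg hu0.le _)).trans ?_
    rw [h2]
    refine mul_le_mul_of_nonneg_right ?_ (inv_nonneg.2 hu0.le)
    exact rpow_bound hu.le (Real.log_le_log hu0 h) hs
  · rw [Set.indicator_of_mem (show u ∈ Set.Ioi (q : ℝ) from h),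
      Set.indicator_of_notMem (show u ∉ Set.Ioc (1 : ℝ) q from fun h2 => absurd h2.2 (not_le.2 h)),
      zero_add]
    exact mul_le_mul_of_nonneg_right (hPER q χ hχ _) (Real.rpow_nonneg hu0.le _)

lemma integrable_maj {q : ℕ} (hq : 1 ≤ q) {σ : ℝ} (hσ : 0 < σ) :
    Integrable (maj q σ) (volume.restrict (Set.Ioi 1)) := by
  have hq1 : (1 : ℝ) ≤ q := by exact_mod_cast hq
  refine Integrable.add ?_ ?_
  · refine Integrable.restrict ?_
    rw [integrable_indicator_iff measurableSet_Ioc]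
    refine Integrable.const_mul ?_ _
    have h1 : IntervalIntegrable (fun u : ℝ => u⁻¹) volume 1 q := by
      refine ContinuousOn.intervalIntegrable ?_
      rw [Set.uIcc_of_le hq1]
      refine continuousOn_inv₀.mono ?_
      intro x hx
      have : (1 : ℝ) ≤ x := hx.1
      simp only [Set.mem_compl_iff, Set.mem_singleton_iff]
      linarith
    rw [intervalIntegrable_iff_integrableOn_Ioc_of_le hq1] at h1
    exact h1
  · refine Integrable.restrict ?_
    rw [integrable_indicator_iff measurableSet_Ioi]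
    exact Integrable.const_mul (integrableOn_Ioi_rpow_of_lt (by linarith) (by linarith)) _

lemma integral_maj {q : ℕ} (hq : 1 ≤ q) {σ : ℝ} (hσ : 0 < σ) :
    ∫ u in Set.Ioi (1 : ℝ), maj q σ u = Real.exp 1 * Real.log q + (q : ℝ) ^ (1 - σ) / σ := by
  have hq1 : (1 : ℝ) ≤ q := by exact_mod_cast hq
  have hq0 : (0 : ℝ) < q := by linarith
  have hi := integrable_maj hq hσ
  have h1 : IntegrableOn (fun u : ℝ => u⁻¹) (Set.Ioc 1 (q : ℝ)) := by
    have h1 : IntervalIntegrable (fun u : ℝ => u⁻¹) volume 1 q := by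
      refine ContinuousOn.intervalIntegrable ?_
      rw [Set.uIcc_of_le hq1]
      refine continuousOn_inv₀.mono ?_
      intro x hx
      have : (1 : ℝ) ≤ x := hx.1
      simp only [Set.mem_compl_iff, Set.mem_singleton_iff]
      linarith
    rwa [intervalIntegrable_iff_integrableOn_Ioc_of_le hq1] at h1
  unfold maj
  rw [integral_add]
  · rw [setIntegral_indicator measurableSet_Ioc, setIntegral_indicator measurableSet_Ioi]
    have e1 : Set.Ioi (1 : ℝ) ∩ Set.Ioc 1 (q : ℝ) = Set.Ioc 1 (q : ℝ) := by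
      ext t; simp only [Set.mem_inter_iff, Set.mem_Ioi, Set.mem_Ioc]; tauto
    have e2 : Set.Ioi (1 : ℝ) ∩ Set.Ioi (q : ℝ) = Set.Ioi (q : ℝ) := by
      ext t; simp only [Set.mem_inter_iff, Set.mem_Ioi]
      exact ⟨fun h => h.2, fun h => ⟨by linarith, h⟩⟩
    rw [e1, e2, integral_const_mul, integral_const_mul,
      ← intervalIntegral.integral_of_le hq1, integral_inv_of_pos one_pos hq0, div_one,
      integral_Ioi_rpow_of_lt (by linarith) hq0]
    congr 1
    have h3 : (q : ℝ) ^ (1 - σ) = q * (q : ℝ) ^ (-σ) := by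
      rw [sub_eq_add_neg, Real.rpow_add hq0, Real.rpow_one]
    rw [h3, show -σ - 1 + 1 = -σ by ring]
    field_simp
  · refine Integrable.restrict ?_
    rw [integrable_indicator_iff measurableSet_Ioc]
    exact Integrable.const_mul h1 _
  · refine Integrable.restrict ?_
    rw [integrable_indicator_iff measurableSet_Ioi]
    exact Integrable.const_mul (integrableOn_Ioi_rpow_of_lt (by linarith) (by linarith)) _

end UBM

theorem specUB (hPER : SpecPER) (hCON : SpecCON) : SpecUB := by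
  intro q _ χ hχ s hs2 hs
  have hq : 1 ≤ q := Nat.one_le_iff_ne_zero.2 (NeZero.ne q)
  have hq1 : (1 : ℝ) ≤ q := by exact_mod_cast hq
  have hL : 0 ≤ Real.log q := Real.log_nonneg hq1
  have hσ : 0 < s.re := by linarith
  rw [hCON q χ hχ s hσ, norm_mul]
  have h1 : ‖∫ u in Set.Ioi (1 : ℝ),
      (∑ k ∈ Finset.Icc 1 ⌊u⌋₊, χ (k : ZMod q)) * (u : ℂ) ^ (-(s + 1))‖ ≤
      ∫ u in Set.Ioi (1 : ℝ), UBM.maj q s.re u := by
    refine norm_integral_le_of_norm_le (UBM.integrable_maj hq hσ) ?_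
    refine (ae_restrict_iff' measurableSet_Ioi).2 (Filter.Eventually.of_forall (fun u hu => ?_))
    exact UBM.pointwise hPER χ hχ hs hu
  rw [UBM.integral_maj hq hσ] at h1
  have h2 : (q : ℝ) ^ (1 - s.re) / s.re ≤ 2 * Real.exp 1 := by
    rw [div_le_iff₀ hσ]
    have h3 := UBM.rpow_bound hq1 le_rfl hs
    have h4 : Real.exp 1 ≤ 2 * Real.exp 1 * s.re := by
      nlinarith [Real.exp_pos 1]
    exact h3.trans h4
  have h3 : Real.exp 1 ≤ 3 := by linarith [Real.exp_one_lt_d9]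
  have h4 : Real.exp 1 * Real.log q + (q : ℝ) ^ (1 - s.re) / s.re ≤ 9 * (1 + Real.log q) := by
    nlinarith
  calc ‖s‖ * _ ≤ ‖s‖ * (9 * (1 + Real.log q)) :=
        mul_le_mul_of_nonneg_left (h1.trans h4) (norm_nonneg _)
    _ = 9 * ‖s‖ * (1 + Real.log q) := by ring

end Pool.Agent.Lib.LP

end
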