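import Pool.Agent.Lib.LP.Spec

/-!
# Primes in progressions to large moduli, module SIG

The products of `1 + 1/p` and `1 - 1/p` over the prime divisors of `q`.
-/

set_option autoImplicit false

noncomputable section

namespace Pool.Agent.Lib.LP

namespace SIGM

lemma prod_le (q : ℕ) (hq : q ≠ 0) :
    ∏ p ∈ q.primeFactors, (1 + 1 / (p : ℝ)) ≤ 1 + Real.log q := by
  classical
  have h1 : ∏ p ∈ q.primeFactors, (1 + 1 / (p : ℝ)) =
      ∑ t ∈ q.primeFactors.powerset, 1 / ((∏ p ∈ t, p : ℕ) : ℝ) := by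
    rw [Finset.prod_one_add]
    refine Finset.sum_congr rfl (fun t _ => ?_)
    rw [Nat.cast_prod, one_div, ← Finset.prod_inv_distrib]
    exact Finset.prod_congr rfl (fun p _ => one_div _)
  have hinj : Set.InjOn (fun t : Finset ℕ => ∏ p ∈ t, p) (q.primeFactors.powerset : Set (Finset ℕ)) := by
    intro t ht t' ht' h
    have ht1 : t ⊆ q.primeFactors := Finset.mem_powerset.1 (Finset.mem_coe.1 ht)
    have ht2 : t' ⊆ q.primeFactors := Finset.mem_powerset.1 (Finset.mem_coe.1 ht')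
    have e1 := Nat.primeFactors_prod (s := t) (fun p hp => Nat.prime_of_mem_primeFactors (ht1 hp))
    have e2 := Nat.primeFactors_prod (s := t') (fun p hp => Nat.prime_of_mem_primeFactors (ht2 hp))
    have h' : ∏ p ∈ t, p = ∏ p ∈ t', p := h
    rw [← e1, ← e2, h']
  have h2 : ∑ t ∈ q.primeFactors.powerset, 1 / ((∏ p ∈ t, p : ℕ) : ℝ) =
      ∑ d ∈ q.primeFactors.powerset.image (fun t : Finset ℕ => ∏ p ∈ t, p), 1 / (d : ℝ) := by
    rw [Finset.sum_image hinj]
  have h3 : q.primeFactors.powerset.image (fun t : Finset ℕ => ∏ p ∈ t, p) ⊆ Finset.Icc 1 q := by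
    intro d hd
    obtain ⟨t, ht, rfl⟩ := Finset.mem_image.1 hd
    have ht1 : t ⊆ q.primeFactors := Finset.mem_powerset.1 ht
    have h4 : ∏ p ∈ t, p ∣ q :=
      (Finset.prod_dvd_prod_of_subset _ _ (fun p => p) ht1).trans (Nat.prod_primeFactors_dvd q)
    exact Finset.mem_Icc.2 ⟨Nat.pos_of_dvd_of_pos h4 (Nat.pos_of_ne_zero hq),
      Nat.le_of_dvd (Nat.pos_of_ne_zero hq) h4⟩
  rw [h1, h2]
  refine (Finset.sum_le_sum_of_subset_of_nonneg h3 (fun d _ _ => by positivity)).trans ?_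
  have h5 := harmonic_le_one_add_log q
  rw [harmonic_eq_sum_Icc] at h5
  push_cast at h5
  simpa [one_div] using h5

lemma prod_Icc (N : ℕ) (hN : 1 ≤ N) :
    ∏ n ∈ Finset.Icc 2 N, (1 - 1 / (n : ℝ) ^ 2) = ((N : ℝ) + 1) / (2 * (N : ℝ)) := by
  induction N, hN using Nat.le_induction with
  | base => norm_num
  | succ N hN ih =>
    rw [Finset.prod_Icc_succ_top (by omega), ih]
    have hN' : (N : ℝ) ≠ 0 := by positivity
    have hN2 : (N : ℝ) + 1 ≠ 0 := by positivity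
    push_cast
    field_simp
    ring

lemma half_le (q : ℕ) (hq : q ≠ 0) :
    1 / 2 ≤ ∏ p ∈ q.primeFactors, (1 - 1 / (p : ℝ) ^ 2) := by
  have hsub : q.primeFactors ⊆ Finset.Icc 2 q := by
    intro p hp
    exact Finset.mem_Icc.2 ⟨(Nat.prime_of_mem_primeFactors hp).two_le,
      Nat.le_of_mem_primeFactors hp⟩
  have hf : ∀ n ∈ Finset.Icc 2 q, 0 ≤ 1 - 1 / (n : ℝ) ^ 2 ∧ 1 - 1 / (n : ℝ) ^ 2 ≤ 1 := by
    intro n hn
    have hn2 : (2 : ℝ) ≤ n := by exact_mod_cast (Finset.mem_Icc.1 hn).1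
    have h1 : 1 / (n : ℝ) ^ 2 ≤ 1 := by
      rw [div_le_one (by positivity)]
      nlinarith
    have h2 : 0 ≤ 1 / (n : ℝ) ^ 2 := by positivity
    constructor <;> linarith
  have h1 := prod_Icc q (Nat.pos_of_ne_zero hq)
  have h2 : ∏ n ∈ Finset.Icc 2 q, (1 - 1 / (n : ℝ) ^ 2) ≤
      ∏ p ∈ q.primeFactors, (1 - 1 / (p : ℝ) ^ 2) := by
    rw [← Finset.prod_sdiff hsub]
    refine mul_le_of_le_one_left (Finset.prod_nonneg (fun n hn => (hf n (hsub hn)).1)) ?_
    exact Finset.prod_le_one (fun n hn => (hf n (Finset.mem_sdiff.1 hn).1).1)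
      (fun n hn => (hf n (Finset.mem_sdiff.1 hn).1).2)
  refine le_trans ?_ h2
  rw [h1, div_le_div_iff₀ (by norm_num) (by positivity)]
  linarith

end SIGM

theorem specSIG : SpecSIG := by
  intro q hq
  refine ⟨SIGM.prod_le q hq, ?_⟩
  have h1 := SIGM.prod_le q hq
  have h2 := SIGM.half_le q hq
  have h3 : ∏ p ∈ q.primeFactors, (1 - 1 / (p : ℝ) ^ 2) =
      (∏ p ∈ q.primeFactors, (1 + 1 / (p : ℝ))) * ∏ p ∈ q.primeFactors, (1 - 1 / (p : ℝ)) := by
    rw [← Finset.prod_mul_distrib]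
    refine Finset.prod_congr rfl (fun p _ => ?_)
    rw [← one_div_pow]
    ring
  have h4 : 0 ≤ ∏ p ∈ q.primeFactors, (1 - 1 / (p : ℝ)) := by
    refine Finset.prod_nonneg (fun p hp => ?_)
    have hp1 : (1 : ℝ) ≤ p := by exact_mod_cast (Nat.prime_of_mem_primeFactors hp).one_lt.le
    have : 1 / (p : ℝ) ≤ 1 := by rw [div_le_one (by positivity)]; exact hp1
    linarith
  have h5 := mul_le_mul_of_nonneg_right h1 h4
  rw [h3] at h2
  linarith

end Pool.Agent.Lib.LP
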