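import Pool.Agent.Lib.LP.Spec

/-!
# Landau-Page, weak form: module ZB (the principal character)
-/

set_option autoImplicit false

noncomputable section

namespace Pool.Agent.Lib.LP

open ArithmeticFunction DirichletCharacter MeasureTheory

namespace ZBM

theorem zeta_eq {s : ℂ} (hs : 1 < s.re) : riemannZeta s =
    s * ∫ t in Set.Ioi (1 : ℝ), ((⌊t⌋₊ : ℝ) : ℂ) * (t : ℂ) ^ (-(s + 1)) := by
  rw [← LSeries_one_eq_riemannZeta hs]
  have h := LSeries_eq_mul_integral' (1 : ℕ → ℂ) (r := 1) zero_le_one hs (by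
    refine Asymptotics.isBigO_of_le _ fun n => ?_
    simp)
  rw [h]
  congr 1
  refine integral_congr_ae (Filter.Eventually.of_forall fun t => ?_)
  simp

theorem norm_cpow_eq {s : ℂ} {t : ℝ} (ht : 0 < t) : ‖(t : ℂ) ^ s‖ = t ^ s.re :=
  Complex.norm_cpow_eq_rpow_re_of_pos ht s

theorem zeta_le_one {s : ℂ} (hs : 1 < s.re) : ‖riemannZeta s‖ ≤ ‖s‖ / (s.re - 1) := by
  rw [zeta_eq hs, norm_mul, div_eq_mul_inv]
  refine mul_le_mul_of_nonneg_left ?_ (norm_nonneg _)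
  have hI : IntegrableOn (fun t : ℝ => t ^ (-s.re)) (Set.Ioi 1) :=
    integrableOn_Ioi_rpow_of_lt (by linarith) one_pos
  have hv : ∫ t in Set.Ioi (1 : ℝ), t ^ (-s.re) = (s.re - 1)⁻¹ := by
    rw [integral_Ioi_rpow_of_lt (by linarith) one_pos, Real.one_rpow]
    rw [show -s.re + 1 = -(s.re - 1) by ring, neg_div_neg_eq, one_div]
  rw [← hv]
  refine norm_integral_le_of_norm_le hI ?_
  filter_upwards [self_mem_ae_restrict measurableSet_Ioi] with t ht
  have ht1 : (1 : ℝ) < t := ht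
  have ht0 : (0 : ℝ) < t := by linarith
  rw [norm_mul, norm_cpow_eq ht0, Complex.norm_real, Real.norm_of_nonneg (Nat.cast_nonneg _)]
  calc (⌊t⌋₊ : ℝ) * t ^ (-(s + 1)).re ≤ t * t ^ (-(s + 1)).re :=
        mul_le_mul_of_nonneg_right (Nat.floor_le ht0.le) (Real.rpow_nonneg ht0.le _)
    _ = t ^ (-s.re) := by
        rw [mul_comm, ← Real.rpow_add_one ht0.ne']
        congr 1
        simp

theorem meas (s : ℂ) : Measurable fun t : ℝ => ((t - ⌊t⌋₊ : ℝ) : ℂ) * (t : ℂ) ^ (-(s + 1)) := by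
  refine Measurable.mul ?_ (Complex.measurable_ofReal.pow_const _)
  refine Complex.measurable_ofReal.comp (measurable_id.sub ?_)
  exact (measurable_from_nat (f := fun n : ℕ => (n : ℝ))).comp Nat.measurable_floor

theorem zeta_le_two {s : ℂ} (hs : 1 < s.re) : ‖riemannZeta s‖ ≤ ‖s‖ / ‖s - 1‖ + ‖s‖ := by
  have hs1 : s - 1 ≠ 0 := by
    intro h
    have := congrArg Complex.re h
    simp at this
    linarith
  have hbd : ∀ᵐ t ∂(volume.restrict (Set.Ioi (1 : ℝ))),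
      ‖((t - ⌊t⌋₊ : ℝ) : ℂ) * (t : ℂ) ^ (-(s + 1))‖ ≤ t ^ (-(s.re + 1)) := by
    filter_upwards [self_mem_ae_restrict measurableSet_Ioi] with t ht
    have ht1 : (1 : ℝ) < t := ht
    have ht0 : (0 : ℝ) < t := by linarith
    rw [norm_mul, norm_cpow_eq ht0, Complex.norm_real,
      Real.norm_of_nonneg (sub_nonneg.2 (Nat.floor_le ht0.le))]
    have h1 : t - ⌊t⌋₊ ≤ 1 := by
      have := Nat.lt_floor_add_one t
      linarith
    calc (t - ⌊t⌋₊) * t ^ (-(s + 1)).re ≤ 1 * t ^ (-(s + 1)).re :=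
          mul_le_mul_of_nonneg_right h1 (Real.rpow_nonneg ht0.le _)
      _ = t ^ (-(s.re + 1)) := by rw [one_mul]; simp
  have hI2 : IntegrableOn (fun t : ℝ => t ^ (-(s.re + 1))) (Set.Ioi 1) :=
    integrableOn_Ioi_rpow_of_lt (by linarith) one_pos
  have hJint : IntegrableOn (fun t : ℝ => ((t - ⌊t⌋₊ : ℝ) : ℂ) * (t : ℂ) ^ (-(s + 1)))
      (Set.Ioi 1) := by
    refine Integrable.mono' hI2 (meas s).aestronglyMeasurable hbd
  have hJ : ‖∫ t in Set.Ioi (1 : ℝ), ((t - ⌊t⌋₊ : ℝ) : ℂ) * (t : ℂ) ^ (-(s + 1))‖ ≤ 1 := by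
    refine (norm_integral_le_of_norm_le hI2 hbd).trans ?_
    rw [integral_Ioi_rpow_of_lt (by linarith) one_pos, Real.one_rpow,
      show -(s.re + 1) + 1 = -s.re by ring, neg_div_neg_eq, div_le_one (by linarith)]
    exact hs.le
  have hI1 : IntegrableOn (fun t : ℝ => (t : ℂ) ^ (-s)) (Set.Ioi 1) :=
    integrableOn_Ioi_cpow_of_lt (by simpa using hs) one_pos
  have hv : ∫ t in Set.Ioi (1 : ℝ), (t : ℂ) ^ (-s) = (s - 1)⁻¹ := by
    rw [integral_Ioi_cpow_of_lt (by simpa using hs) one_pos, Complex.ofReal_one, Complex.one_cpow,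
      show -s + 1 = -(s - 1) by ring, neg_div_neg_eq, one_div]
  have hsplit : ∫ t in Set.Ioi (1 : ℝ), ((⌊t⌋₊ : ℝ) : ℂ) * (t : ℂ) ^ (-(s + 1)) =
      (s - 1)⁻¹ - ∫ t in Set.Ioi (1 : ℝ), ((t - ⌊t⌋₊ : ℝ) : ℂ) * (t : ℂ) ^ (-(s + 1)) := by
    rw [← hv, ← integral_sub hI1 hJint]
    refine setIntegral_congr_fun measurableSet_Ioi fun t ht => ?_
    have ht1 : (1 : ℝ) < t := ht
    have ht0 : (t : ℂ) ≠ 0 := by
      exact_mod_cast (by linarith : (t : ℝ) ≠ 0)
    have h2 : (t : ℂ) ^ (-s) = t * (t : ℂ) ^ (-(s + 1)) := by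
      rw [show -s = -(s + 1) + 1 by ring, Complex.cpow_add _ _ ht0, Complex.cpow_one, mul_comm]
    rw [h2]
    push_cast
    ring
  rw [zeta_eq hs, hsplit, norm_mul]
  calc ‖s‖ * ‖(s - 1)⁻¹ - ∫ t in Set.Ioi (1 : ℝ),
        ((t - ⌊t⌋₊ : ℝ) : ℂ) * (t : ℂ) ^ (-(s + 1))‖
      ≤ ‖s‖ * (‖(s - 1)⁻¹‖ + 1) :=
        mul_le_mul_of_nonneg_left ((norm_sub_le _ _).trans (by gcongr)) (norm_nonneg _)
    _ = ‖s‖ / ‖s - 1‖ + ‖s‖ := by
        rw [norm_inv, mul_add, mul_one, div_eq_mul_inv]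

end ZBM

theorem specZB (hSIG : SpecSIG) : SpecZB := by
  intro q _
  refine ⟨fun x hx hx1 => ?_, fun s hs => ?_⟩
  · have hs : (1 : ℝ) < (1 + x : ℂ).re := by simp [hx]
    have hne : (1 + x : ℂ) ≠ 1 := by
      intro h
      have h2 := congrArg Complex.re h
      simp at h2
      exact hx.ne' h2
    rw [LFunctionTrivChar_eq_mul_riemannZeta hne, norm_mul]
    have h1 : ‖riemannZeta (1 + x)‖ ≤ 2 / x := by
      refine (ZBM.zeta_le_one hs).trans ?_
      have h3 : ‖(1 + x : ℂ)‖ = 1 + x := by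
        rw [show (1 + x : ℂ) = ((1 + x : ℝ) : ℂ) by push_cast; ring, Complex.norm_real,
          Real.norm_of_nonneg (by linarith)]
      rw [h3]
      have h4 : (1 + x : ℂ).re - 1 = x := by simp
      rw [h4]
      gcongr
      linarith
    have h2 : ‖∏ p ∈ q.primeFactors, (1 - (p : ℂ) ^ (-(1 + x : ℂ)))‖ ≤ 1 := by
      rw [norm_prod]
      refine Finset.prod_le_one (fun p _ => norm_nonneg _) fun p hp => ?_
      have hp1 : (1 : ℝ) < p := by exact_mod_cast (Nat.prime_of_mem_primeFactors hp).one_lt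
      have h5 : (p : ℂ) ^ (-(1 + x : ℂ)) = (((p : ℝ) ^ (-(1 + x)) : ℝ) : ℂ) := by
        rw [Complex.ofReal_cpow (by linarith)]
        push_cast
        rfl
      rw [h5, show (1 : ℂ) - (((p : ℝ) ^ (-(1 + x)) : ℝ) : ℂ) =
        ((1 - (p : ℝ) ^ (-(1 + x)) : ℝ) : ℂ) by push_cast; ring, Complex.norm_real,
        Real.norm_eq_abs, abs_le]
      have h6 : (p : ℝ) ^ (-(1 + x)) ≤ 1 := Real.rpow_le_one_of_one_le_of_nonpos hp1.le (by linarith)
      have h7 : 0 ≤ (p : ℝ) ^ (-(1 + x)) := Real.rpow_nonneg (by linarith) _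
      constructor <;> linarith
    calc _ ≤ 1 * (2 / x) := mul_le_mul h2 h1 (norm_nonneg _) zero_le_one
      _ = 2 / x := one_mul _
  · have hne : s ≠ 1 := by
      rintro rfl
      simp at hs
    rw [LFunctionTrivChar_eq_mul_riemannZeta hne, norm_mul]
    refine mul_le_mul ?_ (ZBM.zeta_le_two hs) (norm_nonneg _) ?_
    · refine le_trans ?_ (hSIG q (NeZero.ne q)).1
      rw [norm_prod]
      refine Finset.prod_le_prod (fun p _ => norm_nonneg _) fun p hp => ?_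
      have hp1 : (1 : ℝ) < p := by exact_mod_cast (Nat.prime_of_mem_primeFactors hp).one_lt
      have hp0 : (0 : ℝ) < p := by linarith
      refine (norm_sub_le _ _).trans ?_
      rw [norm_one]
      gcongr
      have h8 : ‖(p : ℂ) ^ (-s)‖ = (p : ℝ) ^ (-s).re := by
        have := ZBM.norm_cpow_eq (s := -s) hp0
        simpa using this
      rw [h8, one_div, ← Real.rpow_neg_one]
      exact Real.rpow_le_rpow_of_exponent_le hp1.le (by simpa using hs.le)
    · have : 0 ≤ Real.log q := Real.log_natCast_nonneg q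
      linarith

end Pool.Agent.Lib.LP
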