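import Pool.Agent.Lib.LP.Spec

/-!
# LP, module EXP: the explicit formula with Gaussian weights, right of the line `σ = 1`
-/

set_option autoImplicit false

noncomputable section

namespace Pool.Agent.Lib.LP

open ArithmeticFunction DirichletCharacter MeasureTheory

namespace EXPM

lemma summable_vm {σ : ℝ} (hσ : 1 < σ) : Summable (fun n : ℕ => vonMangoldt n * (n : ℝ) ^ (-σ)) := by
  have h := ArithmeticFunction.LSeriesSummable_vonMangoldt (s := (σ : ℂ)) (by simpa using hσ)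
  have h2 : Summable (fun n => ‖LSeries.term (fun n => ((vonMangoldt n : ℝ) : ℂ)) (σ : ℂ) n‖) := h.norm
  refine h2.congr (fun n => ?_)
  rw [LSeries.norm_term_eq]
  rcases eq_or_ne n 0 with rfl | hn
  · simp
  · rw [if_neg hn, Complex.norm_real, Real.norm_eq_abs, abs_of_nonneg vonMangoldt_nonneg,
      Complex.ofReal_re, Real.rpow_neg (Nat.cast_nonneg n), div_eq_mul_inv]

lemma G_nonneg {lam : ℝ} (v : ℝ) : 0 ≤ G lam v :=
  mul_nonneg (Real.sqrt_nonneg _) (Real.exp_pos _).le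

/-- the constant of GAU -/
def Cst (lam u σ : ℝ) : ℝ := Real.exp (σ * u + σ ^ 2 / (4 * lam)) * √(4 * Real.pi * lam)

lemma Cst_nonneg (lam u σ : ℝ) : 0 ≤ Cst lam u σ :=
  mul_nonneg (Real.exp_pos _).le (Real.sqrt_nonneg _)

lemma G_le (hG : SpecGAU) {lam : ℝ} (hlam : 0 < lam) (u σ : ℝ) {n : ℕ} (hn : n ≠ 0) :
    2 * Real.pi * G lam (u - Real.log n) ≤ (n : ℝ) ^ (-σ) * Cst lam u σ := by
  obtain ⟨_, h2, h3⟩ := hG lam hlam u σ n hn
  have h4 := norm_integral_le_integral_norm (μ := volume) (fun t : ℝ =>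
    (n : ℂ) ^ (-(σ + t * Complex.I)) *
      Complex.exp ((σ + t * Complex.I) * u + (σ + t * Complex.I) ^ 2 / (4 * lam)))
  rw [h2, h3, Complex.norm_real, Real.norm_eq_abs, abs_of_nonneg] at h4
  · exact h4
  · exact mul_nonneg (by positivity) (G_nonneg _)

lemma summable_G (hG : SpecGAU) {lam : ℝ} (hlam : 0 < lam) (u : ℝ) :
    Summable fun n : ℕ => vonMangoldt n * G lam (u - Real.log n) := by
  refine Summable.of_nonneg_of_le (fun n => mul_nonneg vonMangoldt_nonneg (G_nonneg _)) (fun n => ?_)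
    ((summable_vm (σ := 2) (by norm_num)).mul_right (Cst lam u 2 / (2 * Real.pi)))
  rcases eq_or_ne n 0 with rfl | hn
  · simp
  · have h := G_le hG hlam u 2 hn
    have h1 : G lam (u - Real.log n) ≤ (n : ℝ) ^ (-(2 : ℝ)) * (Cst lam u 2 / (2 * Real.pi)) := by
      rw [← mul_div_assoc, le_div_iff₀ (by positivity), mul_comm]
      exact h
    calc vonMangoldt n * G lam (u - Real.log n)
        ≤ vonMangoldt n * ((n : ℝ) ^ (-(2 : ℝ)) * (Cst lam u 2 / (2 * Real.pi))) :=
          mul_le_mul_of_nonneg_left h1 vonMangoldt_nonneg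
      _ = vonMangoldt n * (n : ℝ) ^ (-(2 : ℝ)) * (Cst lam u 2 / (2 * Real.pi)) := by ring

/-- the Gaussian factor -/
def W (lam u σ t : ℝ) : ℂ :=
  Complex.exp ((σ + t * Complex.I) * u + (σ + t * Complex.I) ^ 2 / (4 * lam))

lemma W_int (hG : SpecGAU) {lam : ℝ} (hlam : 0 < lam) (u σ : ℝ) :
    Integrable (fun t : ℝ => W lam u σ t) := by
  have h := (hG lam hlam u σ 1 one_ne_zero).1
  simpa [W] using h

/-- the terms of the Dirichlet series -/
def A {q : ℕ} (χ : DirichletCharacter ℂ q) (σ : ℝ) (n : ℕ) (t : ℝ) : ℂ :=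
  (vonMangoldt n : ℂ) * χ n * (n : ℂ) ^ (-((σ : ℂ) + t * Complex.I))

lemma A_norm {q : ℕ} (χ : DirichletCharacter ℂ q) (σ : ℝ) (n : ℕ) (t : ℝ) :
    ‖A χ σ n t‖ ≤ vonMangoldt n * (n : ℝ) ^ (-σ) := by
  rcases eq_or_ne n 0 with rfl | hn
  · simp [A]
  · have h1 : ‖(n : ℂ) ^ (-((σ : ℂ) + t * Complex.I))‖ = (n : ℝ) ^ (-σ) := by
      rw [Complex.norm_natCast_cpow_of_pos (Nat.pos_of_ne_zero hn)]
      simp
    rw [A, norm_mul, norm_mul, h1, Complex.norm_real, Real.norm_eq_abs,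
      abs_of_nonneg vonMangoldt_nonneg]
    have h2 : ‖χ (n : ZMod q)‖ ≤ 1 := DirichletCharacter.norm_le_one χ _
    have h3 : vonMangoldt n * ‖χ (n : ZMod q)‖ ≤ vonMangoldt n * 1 :=
      mul_le_mul_of_nonneg_left h2 vonMangoldt_nonneg
    have h4 : (0 : ℝ) ≤ (n : ℝ) ^ (-σ) := Real.rpow_nonneg (Nat.cast_nonneg n) _
    calc vonMangoldt n * ‖χ (n : ZMod q)‖ * (n : ℝ) ^ (-σ)
        ≤ vonMangoldt n * 1 * (n : ℝ) ^ (-σ) := mul_le_mul_of_nonneg_right h3 h4
      _ = vonMangoldt n * (n : ℝ) ^ (-σ) := by rw [mul_one]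

lemma A_cont {q : ℕ} (χ : DirichletCharacter ℂ q) (σ : ℝ) (n : ℕ) :
    Continuous (fun t : ℝ => A χ σ n t) := by
  rcases eq_or_ne n 0 with rfl | hn
  · simp only [A, ArithmeticFunction.map_zero, Complex.ofReal_zero, zero_mul]
    exact continuous_const
  · unfold A
    refine continuous_const.mul ?_
    refine Continuous.const_cpow ?_ (Or.inl (Nat.cast_ne_zero.2 hn))
    fun_prop

lemma A_sum {q : ℕ} [NeZero q] (χ : DirichletCharacter ℂ q) {σ : ℝ} (hσ : 1 < σ) (t : ℝ) :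
    ∑' n, A χ σ n t = -(deriv χ.LFunction (σ + t * Complex.I) / χ.LFunction (σ + t * Complex.I)) := by
  have hs : 1 < ((σ : ℂ) + t * Complex.I).re := by simpa using hσ
  have h := LSeries_twist_vonMangoldt_eq χ hs
  rw [deriv_LFunction_eq_deriv_LSeries χ hs, LFunction_eq_LSeries χ hs, ← neg_div, ← h, LSeries]
  refine tsum_congr (fun n => ?_)
  rcases eq_or_ne n 0 with rfl | hn
  · simp [A]
  · rw [LSeries.term_of_ne_zero hn, A, Complex.cpow_neg, div_eq_mul_inv]
    simp only [Pi.mul_apply]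
    ring

end EXPM

open EXPM in
theorem specEXP (hG : SpecGAU) : SpecEXP := by
  intro lam hlam u
  refine ⟨summable_G hG hlam u, fun q _ χ σ hσ => ?_⟩
  have hsum := summable_vm hσ
  have hcont : Continuous (fun t : ℝ => ∑' n, A χ σ n t) :=
    continuous_tsum (A_cont χ σ) hsum (fun n t => A_norm χ σ n t)
  have hbd : ∀ t : ℝ, ‖∑' n, A χ σ n t‖ ≤ ∑' n, vonMangoldt n * (n : ℝ) ^ (-σ) := fun t =>
    tsum_of_norm_bounded hsum.hasSum (fun n => A_norm χ σ n t)
  have hint : Integrable (fun t : ℝ => (∑' n, A χ σ n t) * W lam u σ t) :=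
    (W_int hG hlam u σ).bdd_mul hcont.aestronglyMeasurable (Filter.Eventually.of_forall hbd)
  have heq : ∀ t : ℝ, (∑' n, A χ σ n t) * W lam u σ t =
      -(deriv χ.LFunction (σ + t * Complex.I) / χ.LFunction (σ + t * Complex.I)) *
        Complex.exp ((σ + t * Complex.I) * u + (σ + t * Complex.I) ^ 2 / (4 * lam)) := fun t => by
    rw [A_sum χ hσ, W]
  have hfun : (fun t : ℝ => (∑' n, A χ σ n t) * W lam u σ t) = (fun t : ℝ =>
      -(deriv χ.LFunction (σ + t * Complex.I) / χ.LFunction (σ + t * Complex.I)) *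
        Complex.exp ((σ + t * Complex.I) * u + (σ + t * Complex.I) ^ 2 / (4 * lam))) :=
    funext heq
  refine ⟨hfun ▸ hint, ?_⟩
  rw [← hfun]
  -- term by term
  have hterm : ∀ n : ℕ, Integrable (fun t : ℝ => A χ σ n t * W lam u σ t) ∧
      ∫ t : ℝ, A χ σ n t * W lam u σ t = (2 * Real.pi : ℝ) *
        ((vonMangoldt n : ℂ) * χ n * ((G lam (u - Real.log n) : ℝ) : ℂ)) ∧
      ∫ t : ℝ, ‖A χ σ n t * W lam u σ t‖ ≤ vonMangoldt n * (n : ℝ) ^ (-σ) * Cst lam u σ := by
    intro n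
    rcases eq_or_ne n 0 with rfl | hn
    · simp [A]
    · obtain ⟨h1, h2, h3⟩ := hG lam hlam u σ n hn
      have hfn : (fun t : ℝ => A χ σ n t * W lam u σ t) = fun t : ℝ =>
          ((vonMangoldt n : ℂ) * χ n) * ((n : ℂ) ^ (-(σ + t * Complex.I)) *
          Complex.exp ((σ + t * Complex.I) * u + (σ + t * Complex.I) ^ 2 / (4 * lam))) := by
        funext t
        rw [A, W]; ring
      refine ⟨?_, ?_, ?_⟩
      · rw [hfn]; exact h1.const_mul _
      · rw [hfn, integral_const_mul, h2]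
        push_cast
        ring
      · have hfn' : (fun t : ℝ => ‖A χ σ n t * W lam u σ t‖) = fun t : ℝ =>
            ‖((vonMangoldt n : ℂ) * χ n)‖ * ‖((n : ℂ) ^ (-(σ + t * Complex.I)) *
            Complex.exp ((σ + t * Complex.I) * u + (σ + t * Complex.I) ^ 2 / (4 * lam)))‖ := by
          funext t
          rw [congrFun hfn t, norm_mul]
        rw [hfn', integral_const_mul, h3, norm_mul, Complex.norm_real, Real.norm_eq_abs,
          abs_of_nonneg vonMangoldt_nonneg]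
        have h2 : ‖χ (n : ZMod q)‖ ≤ 1 := DirichletCharacter.norm_le_one χ _
        have h3 : vonMangoldt n * ‖χ (n : ZMod q)‖ ≤ vonMangoldt n * 1 :=
          mul_le_mul_of_nonneg_left h2 vonMangoldt_nonneg
        have h4 : (0 : ℝ) ≤ (n : ℝ) ^ (-σ) * Cst lam u σ :=
          mul_nonneg (Real.rpow_nonneg (Nat.cast_nonneg n) _) (Cst_nonneg _ _ _)
        have h5 := mul_le_mul_of_nonneg_right h3 h4
        rw [mul_one, ← mul_assoc (vonMangoldt n) ((n : ℝ) ^ (-σ))] at h5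
        exact h5
  have hs2 : Summable (fun n : ℕ => ∫ t : ℝ, ‖A χ σ n t * W lam u σ t‖) :=
    Summable.of_nonneg_of_le (fun n => integral_nonneg (fun t => norm_nonneg _))
      (fun n => (hterm n).2.2) (hsum.mul_right _)
  have hhs := hasSum_integral_of_summable_integral_norm (fun n => (hterm n).1) hs2
  have h6 : ∀ t : ℝ, ∑' n, A χ σ n t * W lam u σ t = (∑' n, A χ σ n t) * W lam u σ t :=
    fun t => tsum_mul_right
  rw [← integral_congr_ae (Filter.Eventually.of_forall h6), ← hhs.tsum_eq]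
  rw [tsum_congr (fun n => (hterm n).2.1), tsum_mul_left, F]

end Pool.Agent.Lib.LP
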