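import Pool.Agent.Lib.LP.Spec

/-!
# LP, module GAU: the Gaussian kernel on a vertical line
-/

set_option autoImplicit false

noncomputable section

namespace Pool.Agent.Lib.LP

open MeasureTheory

namespace GAUM

lemma expo (lam u σ : ℝ) (hlam : 0 < lam) (n : ℕ) (hn : n ≠ 0) (t : ℝ) :
    (n : ℂ) ^ (-((σ : ℂ) + t * Complex.I)) *
    Complex.exp (((σ : ℂ) + t * Complex.I) * u + ((σ : ℂ) + t * Complex.I) ^ 2 / (4 * lam)) =
    Complex.exp (((-(1 / (4 * lam)) : ℝ) : ℂ) * (t : ℂ) ^ 2 +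
      ((((u - Real.log n) + σ / (2 * lam) : ℝ) : ℂ) * Complex.I) * t +
      ((σ * (u - Real.log n) + σ ^ 2 / (4 * lam) : ℝ) : ℂ)) := by
  have hl : (lam : ℂ) ≠ 0 := by exact_mod_cast hlam.ne'
  rw [Complex.cpow_def_of_ne_zero (Nat.cast_ne_zero.mpr hn), ← Complex.exp_add]
  congr 1
  rw [← Complex.natCast_log]
  push_cast
  field_simp
  ring_nf
  rw [Complex.I_sq]
  ring

lemma nrm (lam u σ : ℝ) (n : ℕ) (t : ℝ) :
    ‖Complex.exp (((-(1 / (4 * lam)) : ℝ) : ℂ) * (t : ℂ) ^ 2 +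
      ((((u - Real.log n) + σ / (2 * lam) : ℝ) : ℂ) * Complex.I) * t +
      ((σ * (u - Real.log n) + σ ^ 2 / (4 * lam) : ℝ) : ℂ))‖ =
    Real.exp (σ * (u - Real.log n) + σ ^ 2 / (4 * lam)) *
      Real.exp (-(1 / (4 * lam)) * t ^ 2) := by
  rw [Complex.norm_exp, ← Real.exp_add]
  congr 1
  have h1 : (t : ℂ) ^ 2 = ((t ^ 2 : ℝ) : ℂ) := by push_cast; rfl
  rw [h1]
  simp only [Complex.add_re, Complex.mul_re, Complex.ofReal_re, Complex.ofReal_im, Complex.I_re,
    Complex.I_im, Complex.mul_im]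
  ring

end GAUM

open GAUM in
theorem specGAU : SpecGAU := by
  intro lam hlam u σ n hn
  have hb : (((-(1 / (4 * lam)) : ℝ) : ℂ)).re < 0 := by
    rw [Complex.ofReal_re]
    have : 0 < 1 / (4 * lam) := by positivity
    linarith
  have hfun : (fun t : ℝ => (n : ℂ) ^ (-((σ : ℂ) + t * Complex.I)) *
      Complex.exp (((σ : ℂ) + t * Complex.I) * u + ((σ : ℂ) + t * Complex.I) ^ 2 / (4 * lam))) =
      fun t : ℝ => Complex.exp (((-(1 / (4 * lam)) : ℝ) : ℂ) * (t : ℂ) ^ 2 +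
      ((((u - Real.log n) + σ / (2 * lam) : ℝ) : ℂ) * Complex.I) * t +
      ((σ * (u - Real.log n) + σ ^ 2 / (4 * lam) : ℝ) : ℂ)) := by
    funext t
    exact expo lam u σ hlam n hn t
  have hnn : (0 : ℝ) < (n : ℝ) := by exact_mod_cast Nat.pos_of_ne_zero hn
  have hpi := Real.pi_pos
  refine ⟨?_, ?_, ?_⟩
  · rw [hfun]
    exact integrable_cexp_quadratic' hb _ _
  · rw [hfun, integral_cexp_quadratic hb]
    have hneg : -(((-(1 / (4 * lam)) : ℝ) : ℂ)) = ((1 / (4 * lam) : ℝ) : ℂ) := by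
      push_cast; ring
    have h1 : ((Real.pi : ℂ) / -(((-(1 / (4 * lam)) : ℝ) : ℂ))) ^ (1 / 2 : ℂ) =
        ((√(4 * Real.pi * lam) : ℝ) : ℂ) := by
      rw [hneg, ← Complex.ofReal_div, Real.sqrt_eq_rpow,
        Complex.ofReal_cpow (by positivity : 0 ≤ 4 * Real.pi * lam)]
      have : Real.pi / (1 / (4 * lam)) = 4 * Real.pi * lam := by field_simp
      rw [this]
      norm_num
    rw [h1]
    have hl : (lam : ℂ) ≠ 0 := by exact_mod_cast hlam.ne'
    have h2 : ((σ * (u - Real.log n) + σ ^ 2 / (4 * lam) : ℝ) : ℂ) -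
        ((((u - Real.log n) + σ / (2 * lam) : ℝ) : ℂ) * Complex.I) ^ 2 /
          (4 * ((-(1 / (4 * lam)) : ℝ) : ℂ)) = ((-lam * (u - Real.log n) ^ 2 : ℝ) : ℂ) := by
      rw [mul_pow, Complex.I_sq]
      push_cast
      field_simp
      ring
    rw [h2, ← Complex.ofReal_exp, ← Complex.ofReal_mul]
    congr 1
    unfold G
    have h3 : √(4 * Real.pi * lam) = 2 * Real.pi * √(lam / Real.pi) := by
      have h4 : 4 * Real.pi * lam = (2 * Real.pi) ^ 2 * (lam / Real.pi) := by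
        field_simp
        ring
      rw [h4, Real.sqrt_mul (by positivity), Real.sqrt_sq (by positivity)]
    rw [h3]
    ring
  · have hn2 : (fun t : ℝ => ‖(n : ℂ) ^ (-((σ : ℂ) + t * Complex.I)) *
      Complex.exp (((σ : ℂ) + t * Complex.I) * u + ((σ : ℂ) + t * Complex.I) ^ 2 / (4 * lam))‖) =
      fun t : ℝ => Real.exp (σ * (u - Real.log n) + σ ^ 2 / (4 * lam)) *
        Real.exp (-(1 / (4 * lam)) * t ^ 2) := by
      funext t
      rw [expo lam u σ hlam n hn t, nrm]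
    rw [hn2, integral_const_mul, integral_gaussian]
    have h5 : Real.pi / (1 / (4 * lam)) = 4 * Real.pi * lam := by field_simp
    rw [h5, Real.rpow_def_of_pos hnn, ← mul_assoc, ← Real.exp_add]
    congr 2
    ring

end Pool.Agent.Lib.LP
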