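import Pool.Agent.Lib.LP.Spec

/-!
# Landau-Page, weak form: the shift of the line of integration
-/

set_option autoImplicit false

noncomputable section

namespace Pool.Agent.Lib.LP

open ArithmeticFunction DirichletCharacter MeasureTheory

namespace PSIM

/-- powers against the Gaussian -/
theorem small (C b : ℝ) (k : ℕ) (hb : 0 < b) :
    ∃ T₀ : ℝ, ∀ T : ℝ, T₀ ≤ T → C * T ^ k * Real.exp (-(b * T ^ 2)) ≤ Real.exp (-(2 * T)) := by
  have h1 := (Real.tendsto_pow_mul_exp_neg_atTop_nhds_zero k).const_mul C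
  rw [mul_zero] at h1
  have h2 := h1.eventually (gt_mem_nhds (show (0 : ℝ) < 1 by norm_num))
  obtain ⟨T₁, hT₁⟩ := Filter.eventually_atTop.1 h2
  refine ⟨max T₁ (3 / b), fun T hT => ?_⟩
  have h3 := hT₁ T ((le_max_left _ _).trans hT)
  have h4 : 3 / b ≤ T := (le_max_right _ _).trans hT
  have h5 : 0 < T := lt_of_lt_of_le (by positivity) h4
  have h6 : 3 * T ≤ b * T ^ 2 := by
    rw [div_le_iff₀ hb] at h4
    nlinarith
  have h7 : Real.exp (-(b * T ^ 2)) ≤ Real.exp (-T) * Real.exp (-(2 * T)) := by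
    rw [← Real.exp_add]
    exact Real.exp_le_exp.2 (by linarith)
  by_cases hC : 0 ≤ C
  · calc C * T ^ k * Real.exp (-(b * T ^ 2))
        ≤ C * T ^ k * (Real.exp (-T) * Real.exp (-(2 * T))) :=
          mul_le_mul_of_nonneg_left h7 (by positivity)
      _ = C * (T ^ k * Real.exp (-T)) * Real.exp (-(2 * T)) := by ring
      _ ≤ 1 * Real.exp (-(2 * T)) :=
          mul_le_mul_of_nonneg_right h3.le (Real.exp_pos _).le
      _ = Real.exp (-(2 * T)) := one_mul _
  · have h8 : C * T ^ k * Real.exp (-(b * T ^ 2)) ≤ 0 := by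
      have : 0 ≤ T ^ k * Real.exp (-(b * T ^ 2)) := by positivity
      nlinarith
    exact h8.trans (Real.exp_pos _).le

theorem norm_exp {lam : ℝ} (hlam : 0 < lam) (u σ t : ℝ) (h0 : 0 ≤ σ) (h2 : σ ≤ 2) :
    ‖Complex.exp ((σ + t * Complex.I) * u + (σ + t * Complex.I) ^ 2 / (4 * lam))‖ ≤
      Real.exp (1 / lam) * Real.exp (σ * u) * Real.exp (-(t ^ 2 / (4 * lam))) := by
  have h : ((σ + t * Complex.I) * u + (σ + t * Complex.I) ^ 2 / (4 * lam) : ℂ) =
      ((σ * u + (σ ^ 2 - t ^ 2) / (4 * lam) : ℝ) : ℂ) +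
        ((t * u + 2 * σ * t / (4 * lam) : ℝ) : ℂ) * Complex.I := by
    push_cast
    linear_combination ((t : ℂ) ^ 2 / (4 * lam)) * Complex.I_sq
  rw [h, Complex.norm_exp, ← Real.exp_add, ← Real.exp_add]
  refine Real.exp_le_exp.2 ?_
  have h3 : (((σ * u + (σ ^ 2 - t ^ 2) / (4 * lam) : ℝ) : ℂ) +
        ((t * u + 2 * σ * t / (4 * lam) : ℝ) : ℂ) * Complex.I).re =
      σ * u + (σ ^ 2 - t ^ 2) / (4 * lam) := by
    rw [Complex.add_re, Complex.ofReal_re, Complex.re_ofReal_mul, Complex.I_re, mul_zero,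
      add_zero]
  rw [h3, sub_div]
  have h4 : σ ^ 2 / (4 * lam) ≤ 1 / lam := by
    rw [div_le_div_iff₀ (by positivity) hlam]
    have h5 : σ ^ 2 ≤ 4 := by nlinarith
    have h6 := mul_le_mul_of_nonneg_right h5 hlam.le
    linarith
  linarith

/-- the integrand -/
def f (lam u : ℝ) {q : ℕ} [NeZero q] (χ : DirichletCharacter ℂ q) (s : ℂ) : ℂ :=
  -(deriv χ.LFunction s / χ.LFunction s) * Complex.exp (s * u + s ^ 2 / (4 * lam))

theorem norm_f_le {lam : ℝ} (hlam : 0 < lam) (u : ℝ) {q : ℕ} [NeZero q]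
    (χ : DirichletCharacter ℂ q) (σ t K : ℝ) (h0 : 0 ≤ σ) (h2 : σ ≤ 2)
    (hK : ‖deriv χ.LFunction (σ + t * Complex.I) / χ.LFunction (σ + t * Complex.I)‖ ≤ K) :
    ‖f lam u χ (σ + t * Complex.I)‖ ≤
      K * (Real.exp (1 / lam) * Real.exp (σ * u) * Real.exp (-(t ^ 2 / (4 * lam)))) := by
  unfold f
  rw [norm_mul, norm_neg]
  exact mul_le_mul hK (norm_exp hlam u σ t h0 h2) (norm_nonneg _) ((norm_nonneg _).trans hK)

/-- the tail -/
theorem tail {lam T K : ℝ} (hlam : 0 < lam) (hT : 0 < T) (g : ℝ → ℂ)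
    (hg : ∀ t, ‖g t‖ ≤ K * Real.exp (-(t ^ 2 / (4 * lam)))) (hK : 0 ≤ K) :
    ‖∫ t in (Set.Ioc (-T) T)ᶜ, g t‖ ≤
      K * Real.exp (-(1 / (8 * lam) * T ^ 2)) * √(Real.pi / (1 / (8 * lam))) := by
  have hb : 0 < 1 / (8 * lam) := by positivity
  set b : ℝ := 1 / (8 * lam) with hbd
  have hint : Integrable fun t : ℝ => K * Real.exp (-(b * T ^ 2)) * Real.exp (-b * t ^ 2) :=
    (integrable_exp_neg_mul_sq hb).const_mul _
  have h1 : ‖∫ t in (Set.Ioc (-T) T)ᶜ, g t‖ ≤
      ∫ t in (Set.Ioc (-T) T)ᶜ, K * Real.exp (-(b * T ^ 2)) * Real.exp (-b * t ^ 2) := by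
    refine norm_integral_le_of_norm_le hint.integrableOn ?_
    refine (ae_restrict_iff' measurableSet_Ioc.compl).2 (Filter.Eventually.of_forall ?_)
    intro t ht
    have hT2 : T ^ 2 ≤ t ^ 2 := by
      rw [Set.mem_compl_iff, Set.mem_Ioc, not_and_or, not_lt, not_le] at ht
      rcases ht with h | h
      · nlinarith
      · nlinarith
    refine (hg t).trans ?_
    rw [mul_assoc]
    refine mul_le_mul_of_nonneg_left ?_ hK
    rw [← Real.exp_add]
    refine Real.exp_le_exp.2 ?_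
    have e1 : t ^ 2 / (4 * lam) = 2 * (b * t ^ 2) := by
      rw [hbd]
      field_simp
      ring
    rw [e1]
    have e2 : b * T ^ 2 ≤ b * t ^ 2 := mul_le_mul_of_nonneg_left hT2 hb.le
    linarith
  refine h1.trans ?_
  refine (setIntegral_le_integral hint (Filter.Eventually.of_forall fun t => by positivity)).trans ?_
  rw [integral_const_mul, integral_gaussian]

end PSIM

open PSIM in
theorem specPSI (hDB : SpecDB) (hLDB : SpecLDB) (hEXP : SpecEXP) (hREC : SpecREC) : SpecPSI := by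
  intro lam hlam
  set E : ℝ := Real.exp (1 / lam) with hE
  have hE0 : 0 < E := Real.exp_pos _
  set W : ℝ := √(Real.pi / (1 / (8 * lam))) with hW
  have hW0 : 0 ≤ W := Real.sqrt_nonneg _
  obtain ⟨T1, hT1⟩ := small (2 * E) 1 49 one_pos
  obtain ⟨T2, hT2⟩ := small (4 * E * Real.exp 1) (1 / (4 * lam)) 48 (by positivity)
  obtain ⟨T3, hT3⟩ := small (8 * E * Real.exp 1 * W) (1 / (8 * lam)) 120 (by positivity)
  refine ⟨max (max T1 T2) (max T3 1000), fun T hT q _ hqT hgood χ hχ u hu1 hu2 => ?_⟩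
  have t1 := hT1 T (((le_max_left _ _).trans (le_max_left _ _)).trans hT)
  have t2 := hT2 T (((le_max_right _ _).trans (le_max_left _ _)).trans hT)
  have t3 := hT3 T (((le_max_left _ _).trans (le_max_right _ _)).trans hT)
  have hT1000 : 1000 ≤ T := ((le_max_right _ _).trans (le_max_right _ _)).trans hT
  have hT0 : 0 < T := by linarith
  have hT46 : 1 ≤ T ^ 46 := one_le_pow₀ (by linarith)
  have hu : 1 ≤ u := hT46.trans hu1
  have hu0 : 0 < u := by linarith
  set σ₀ : ℝ := 1 + 1 / u with hσ₀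
  set σ₁ : ℝ := 1 - (T ^ 44)⁻¹ with hσ₁
  have hinv : (T ^ 44)⁻¹ ≤ 1 / (4 * T) := by
    rw [inv_eq_one_div]
    refine one_div_le_one_div_of_le (by positivity) ?_
    have : T ^ 2 ≤ T ^ 44 := pow_le_pow_right₀ (by linarith) (by norm_num)
    nlinarith
  have hinv2 : 1 / (4 * T) ≤ 1 / 2 := by
    refine one_div_le_one_div_of_le (by norm_num) ?_
    linarith
  have hinv0 : 0 < (T ^ 44)⁻¹ := by positivity
  have h1u : 0 < 1 / u := by positivity
  have h1u' : 1 / u ≤ 1 := by
    rw [div_le_one hu0]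
    exact hu
  have hσ₀u : σ₀ * u = u + 1 := by
    rw [hσ₀]
    field_simp
  -- bound for the logarithmic derivative on the rectangle
  have hlog : ∀ σ t : ℝ, σ₁ ≤ σ → σ ≤ σ₀ → |t| ≤ T →
      χ.LFunction (σ + t * Complex.I) ≠ 0 ∧
      ‖deriv χ.LFunction (σ + t * Complex.I) / χ.LFunction (σ + t * Complex.I)‖ ≤ T ^ 48 := by
    intro σ t h1 h2 h3
    have hre : ((σ : ℂ) + t * Complex.I).re = σ := by simp
    have him : ((σ : ℂ) + t * Complex.I).im = t := by simp
    have e1 := (hDB T hT1000 q χ hχ hqT (σ + t * Complex.I) (by rw [him]; exact h3)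
      (by rw [hre]; linarith) (by rw [hre]; linarith)).2
    have e2 := hgood χ hχ σ t h3 (by linarith) (by linarith)
    have e3 : 0 < ‖χ.LFunction (σ + t * Complex.I)‖ := lt_of_lt_of_le hinv0 e2
    refine ⟨norm_pos_iff.1 e3, ?_⟩
    rw [norm_div, div_le_iff₀ e3]
    calc ‖deriv χ.LFunction (σ + t * Complex.I)‖ ≤ T ^ 4 := e1
      _ = T ^ 48 * (T ^ 44)⁻¹ := by
        rw [show (48 : ℕ) = 4 + 44 from rfl, pow_add, mul_assoc,
          mul_inv_cancel₀ (by positivity), mul_one]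
      _ ≤ _ := mul_le_mul_of_nonneg_left e2 (by positivity)
  -- the formula
  obtain ⟨hint, hform⟩ := (hEXP lam hlam u).2 q χ σ₀ (by linarith)
  have hint' : Integrable fun t : ℝ => f lam u χ (σ₀ + t * Complex.I) := hint
  have hform' : (2 * Real.pi : ℝ) * F lam χ u = ∫ t : ℝ, f lam u χ (σ₀ + t * Complex.I) := hform
  have hsplit : ∫ t : ℝ, f lam u χ (σ₀ + t * Complex.I) =
      (∫ t in (-T)..T, f lam u χ (σ₀ + t * Complex.I)) +
      ∫ t in (Set.Ioc (-T) T)ᶜ, f lam u χ (σ₀ + t * Complex.I) := by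
    rw [intervalIntegral.integral_of_le (by linarith), integral_add_compl measurableSet_Ioc hint']
  -- tail
  have htail : ‖∫ t in (Set.Ioc (-T) T)ᶜ, f lam u χ (σ₀ + t * Complex.I)‖ ≤
      Real.exp (u - 2 * T) := by
    have e1 : ∀ t : ℝ, ‖f lam u χ (σ₀ + t * Complex.I)‖ ≤
        (8 * u ^ 2 * (E * Real.exp (u + 1))) * Real.exp (-(t ^ 2 / (4 * lam))) := by
      intro t
      have hre : ((σ₀ : ℂ) + t * Complex.I).re = σ₀ := by simp
      have e2 := hLDB q χ (σ₀ + t * Complex.I) (by rw [hre]; linarith) (by rw [hre]; linarith)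
      rw [hre] at e2
      have e3 : 8 / (σ₀ - 1) ^ 2 = 8 * u ^ 2 := by
        rw [hσ₀]
        field_simp
        ring
      rw [e3] at e2
      have e4 := norm_f_le hlam u χ σ₀ t _ (by linarith) (by linarith) e2
      rw [hσ₀u] at e4
      refine e4.trans (le_of_eq ?_)
      ring
    have e5 := tail hlam hT0 _ e1 (by positivity)
    refine e5.trans ?_
    have e6 : u ^ 2 ≤ T ^ 120 := by
      calc u ^ 2 ≤ (T ^ 60) ^ 2 := pow_le_pow_left₀ hu0.le hu2 2
        _ = T ^ 120 := by ring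
    have e7 : Real.exp (u + 1) = Real.exp u * Real.exp 1 := Real.exp_add _ _
    have e8 : Real.exp (u - 2 * T) = Real.exp u * Real.exp (-(2 * T)) := by
      rw [← Real.exp_add]
      congr 1
    rw [e7, e8]
    calc 8 * u ^ 2 * (E * (Real.exp u * Real.exp 1)) * Real.exp (-(1 / (8 * lam) * T ^ 2)) * W
        = u ^ 2 * (8 * E * Real.exp 1 * W * Real.exp (-(1 / (8 * lam) * T ^ 2))) *
          Real.exp u := by ring
      _ ≤ T ^ 120 * (8 * E * Real.exp 1 * W * Real.exp (-(1 / (8 * lam) * T ^ 2))) *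
          Real.exp u := by
        refine mul_le_mul_of_nonneg_right (mul_le_mul_of_nonneg_right e6 ?_) (Real.exp_pos _).le
        positivity
      _ = (8 * E * Real.exp 1 * W * T ^ 120 * Real.exp (-(1 / (8 * lam) * T ^ 2))) *
          Real.exp u := by ring
      _ ≤ Real.exp (-(2 * T)) * Real.exp u :=
        mul_le_mul_of_nonneg_right t3 (Real.exp_pos _).le
      _ = _ := by ring
  -- the shift
  have hshift := hREC (f lam u χ) σ₁ σ₀ T (by linarith) hT0.le (by
    intro σ t h1 h2 h3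
    have hd := DirichletCharacter.differentiable_LFunction hχ
    have hne := (hlog σ t h1 h2 h3).1
    unfold f
    refine DifferentiableAt.mul ?_ ?_
    · refine DifferentiableAt.neg (DifferentiableAt.div ?_ (hd _) hne)
      exact (hd.analyticAt _).deriv.differentiableAt
    · refine DifferentiableAt.cexp ?_
      fun_prop)
  -- the vertical side
  have hvert : ‖∫ t in (-T)..T, f lam u χ (σ₁ + t * Complex.I)‖ ≤ Real.exp (u - 2 * T) := by
    have e1 : ‖∫ t in (-T)..T, f lam u χ (σ₁ + t * Complex.I)‖ ≤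
        (T ^ 48 * (E * Real.exp (σ₁ * u))) * |T - -T| := by
      refine intervalIntegral.norm_integral_le_of_norm_le_const fun t ht => ?_
      rw [Set.uIoc_of_le (by linarith)] at ht
      have ht' : |t| ≤ T := abs_le.2 ⟨ht.1.le, ht.2⟩
      have e2 := norm_f_le hlam u χ σ₁ t _ (by linarith) (by linarith)
        (hlog σ₁ t le_rfl (by linarith) ht').2
      refine e2.trans (mul_le_mul_of_nonneg_left ?_ (by positivity))
      have e3 : Real.exp (-(t ^ 2 / (4 * lam))) ≤ 1 := by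
        rw [Real.exp_le_one_iff]
        have : 0 ≤ t ^ 2 / (4 * lam) := by positivity
        linarith
      calc E * Real.exp (σ₁ * u) * Real.exp (-(t ^ 2 / (4 * lam))) ≤
          E * Real.exp (σ₁ * u) * 1 := mul_le_mul_of_nonneg_left e3 (by positivity)
        _ = _ := mul_one _
    refine e1.trans ?_
    have e4 : σ₁ * u ≤ u - T ^ 2 := by
      have : T ^ 2 ≤ (T ^ 44)⁻¹ * u := by
        calc T ^ 2 = (T ^ 44)⁻¹ * T ^ 46 := by
              rw [show (46 : ℕ) = 44 + 2 from rfl, pow_add, ← mul_assoc,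
                inv_mul_cancel₀ (by positivity), one_mul]
          _ ≤ _ := mul_le_mul_of_nonneg_left hu1 hinv0.le
      rw [hσ₁]
      linarith
    have e5 : Real.exp (σ₁ * u) ≤ Real.exp u * Real.exp (-(1 * T ^ 2)) := by
      rw [← Real.exp_add]
      exact Real.exp_le_exp.2 (by linarith)
    have e8 : Real.exp (u - 2 * T) = Real.exp u * Real.exp (-(2 * T)) := by
      rw [← Real.exp_add]
      congr 1
    have e9 : |T - -T| = 2 * T := by
      rw [sub_neg_eq_add, abs_of_pos (by linarith)]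
      ring
    rw [e8, e9]
    calc T ^ 48 * (E * Real.exp (σ₁ * u)) * (2 * T)
        ≤ T ^ 48 * (E * (Real.exp u * Real.exp (-(1 * T ^ 2)))) * (2 * T) := by
          refine mul_le_mul_of_nonneg_right (mul_le_mul_of_nonneg_left
            (mul_le_mul_of_nonneg_left e5 hE0.le) (by positivity)) (by positivity)
      _ = Real.exp u * (2 * E * T ^ 49 * Real.exp (-(1 * T ^ 2))) := by ring
      _ ≤ Real.exp u * Real.exp (-(2 * T)) := mul_le_mul_of_nonneg_left t1 (Real.exp_pos _).le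
  -- the horizontal sides
  have hhor : ∀ t : ℝ, |t| = T →
      ‖∫ σ in σ₁..σ₀, f lam u χ (σ + t * Complex.I)‖ ≤ Real.exp (u - 2 * T) / 2 := by
    intro t ht
    have ht2 : t ^ 2 = T ^ 2 := by rw [← sq_abs, ht]
    have e1 : ‖∫ σ in σ₁..σ₀, f lam u χ (σ + t * Complex.I)‖ ≤
        (T ^ 48 * (E * Real.exp (u + 1) * Real.exp (-(1 / (4 * lam) * T ^ 2)))) *
          |σ₀ - σ₁| := by
      refine intervalIntegral.norm_integral_le_of_norm_le_const fun σ hσ => ?_
      rw [Set.uIoc_of_le (by linarith)] at hσ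
      have e2 := norm_f_le hlam u χ σ t _ (by linarith [hσ.1]) (by linarith [hσ.2])
        (hlog σ t hσ.1.le hσ.2 ht.le).2
      refine e2.trans (mul_le_mul_of_nonneg_left ?_ (by positivity))
      have e3 : Real.exp (σ * u) ≤ Real.exp (u + 1) := by
        rw [← hσ₀u]
        exact Real.exp_le_exp.2 (mul_le_mul_of_nonneg_right hσ.2 hu0.le)
      have e4 : -(t ^ 2 / (4 * lam)) = -(1 / (4 * lam) * T ^ 2) := by
        rw [ht2]
        ring
      rw [e4]
      exact mul_le_mul_of_nonneg_right (mul_le_mul_of_nonneg_left e3 hE0.le) (Real.exp_pos _).le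
    refine e1.trans ?_
    have e5 : |σ₀ - σ₁| ≤ 2 := by
      rw [abs_of_nonneg (by linarith)]
      linarith
    have e7 : Real.exp (u + 1) = Real.exp u * Real.exp 1 := Real.exp_add _ _
    have e8 : Real.exp (u - 2 * T) = Real.exp u * Real.exp (-(2 * T)) := by
      rw [← Real.exp_add]
      congr 1
    rw [e7, e8]
    calc (T ^ 48 * (E * (Real.exp u * Real.exp 1) * Real.exp (-(1 / (4 * lam) * T ^ 2)))) *
          |σ₀ - σ₁|
        ≤ (T ^ 48 * (E * (Real.exp u * Real.exp 1) * Real.exp (-(1 / (4 * lam) * T ^ 2)))) * 2 :=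
          mul_le_mul_of_nonneg_left e5 (by positivity)
      _ = Real.exp u * (4 * E * Real.exp 1 * T ^ 48 * Real.exp (-(1 / (4 * lam) * T ^ 2))) / 2 := by
          ring
      _ ≤ Real.exp u * Real.exp (-(2 * T)) / 2 := by
          have := mul_le_mul_of_nonneg_left t2 (Real.exp_pos u).le
          linarith
  have hh1 := hhor T (abs_of_pos hT0)
  have hh2 := hhor (-T) (by rw [abs_neg, abs_of_pos hT0])
  have hmain : ‖∫ t : ℝ, f lam u χ (σ₀ + t * Complex.I)‖ ≤ 3 * Real.exp (u - 2 * T) := by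
    rw [hsplit]
    refine (norm_add_le _ _).trans ?_
    linarith
  have hpi : (3 : ℝ) ≤ 2 * Real.pi := by
    have := Real.pi_gt_three
    linarith
  have hF : ‖((2 * Real.pi : ℝ) : ℂ) * F lam χ u‖ = 2 * Real.pi * ‖F lam χ u‖ := by
    rw [norm_mul, Complex.norm_real, Real.norm_of_nonneg (by positivity)]
  rw [← hform', hF] at hmain
  have h3 : 3 * ‖F lam χ u‖ ≤ 2 * Real.pi * ‖F lam χ u‖ :=
    mul_le_mul_of_nonneg_right hpi (norm_nonneg _)
  linarith

end Pool.Agent.Lib.LP
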