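import Pool.Agent.Lib.LP.Spec

/-!
# LP: the module REC (Cauchy's theorem for a rectangle, as an inequality)
-/

set_option autoImplicit false

noncomputable section

namespace Pool.Agent.Lib.LP

theorem specREC : SpecREC := by
  intro f a b T hab hT H
  have hTT : -T ≤ T := by linarith
  have key := Complex.integral_boundary_rect_eq_zero_of_differentiableOn f
    (⟨a, -T⟩ : ℂ) (⟨b, T⟩ : ℂ) (by
      intro z hz
      simp only [Set.uIcc_of_le hab, Set.uIcc_of_le hTT, Complex.mem_reProdIm, Set.mem_Icc] at hz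
      have h := H z.re z.im hz.1.1 hz.1.2 (abs_le.mpr hz.2)
      rw [Complex.re_add_im] at h
      exact h.differentiableWithinAt)
  simp only [smul_eq_mul] at key
  set A := ∫ t in (-T)..T, f (b + t * Complex.I) with hA
  set B := ∫ t in (-T)..T, f (a + t * Complex.I) with hB
  set C := ∫ σ in a..b, f (σ + T * Complex.I) with hC
  set D := ∫ σ in a..b, f (σ + (-T : ℝ) * Complex.I) with hD
  have h1 : Complex.I * A = Complex.I * B + C - D := by
    linear_combination key
  have h2 : ‖A‖ = ‖Complex.I * A‖ := by rw [norm_mul, Complex.norm_I, one_mul]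
  have h3 : ‖Complex.I * B‖ = ‖B‖ := by rw [norm_mul, Complex.norm_I, one_mul]
  rw [h2, h1]
  calc ‖Complex.I * B + C - D‖ ≤ ‖Complex.I * B + C‖ + ‖D‖ := norm_sub_le _ _
    _ ≤ ‖Complex.I * B‖ + ‖C‖ + ‖D‖ := by gcongr; exact norm_add_le _ _
    _ = ‖B‖ + ‖C‖ + ‖D‖ := by rw [h3]

end Pool.Agent.Lib.LP
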