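import Pool.Agent.Lib.LP.Spec

/-!
# LP, module CHL: `L(1, χ)` under a change of the level
-/

set_option autoImplicit false

namespace Pool.Agent.Lib.LP

open ArithmeticFunction DirichletCharacter MeasureTheory

theorem specCHL (h : SpecSIG) : SpecCHL := by
  intro q Q _ _ hqQ χ hχ
  have hL : (changeLevel hqQ χ).LFunction 1 =
      χ.LFunction 1 * ∏ p ∈ Q.primeFactors, (1 - χ p * (p : ℂ) ^ (-(1 : ℂ))) :=
    LFunction_changeLevel hqQ χ (Or.inl hχ)
  obtain ⟨h1, h2⟩ := h Q (NeZero.ne Q)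
  have hz : ∀ p : ℕ, ‖χ p * (p : ℂ) ^ (-(1 : ℂ))‖ ≤ 1 / (p : ℝ) := by
    intro p
    rw [norm_mul, Complex.cpow_neg_one, norm_inv, Complex.norm_natCast, one_div]
    exact mul_le_of_le_one_left (by positivity) (DirichletCharacter.norm_le_one χ _)
  obtain ⟨P, hP⟩ : ∃ P, P = ∏ p ∈ Q.primeFactors, (1 - χ p * (p : ℂ) ^ (-(1 : ℂ))) := ⟨_, rfl⟩
  rw [← hP] at hL
  have hup : ‖P‖ ≤ ∏ p ∈ Q.primeFactors, (1 + 1 / (p : ℝ)) := by
    rw [hP, norm_prod]
    refine Finset.prod_le_prod (fun _ _ => norm_nonneg _) fun p _ => ?_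
    refine le_trans (norm_sub_le _ _) ?_
    rw [norm_one]
    exact add_le_add_right (hz p) 1
  have hlo : ∏ p ∈ Q.primeFactors, (1 - 1 / (p : ℝ)) ≤ ‖P‖ := by
    rw [hP, norm_prod]
    refine Finset.prod_le_prod (fun p hp => ?_) fun p _ => ?_
    · have hp1 : (1 : ℝ) ≤ (p : ℝ) := by exact_mod_cast (Nat.prime_of_mem_primeFactors hp).one_le
      rw [sub_nonneg, one_div]
      exact inv_le_one_of_one_le₀ hp1
    · refine le_trans ?_ (norm_sub_norm_le _ _)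
      rw [norm_one]
      exact sub_le_sub_left (hz p) 1
  have hlog : 0 ≤ 1 + Real.log Q := by
    have := Real.log_natCast_nonneg Q
    linarith
  have hL0 : 0 ≤ ‖χ.LFunction 1‖ := norm_nonneg _
  rw [hL, norm_mul]
  constructor
  · calc ‖χ.LFunction 1‖ * ‖P‖ ≤ ‖χ.LFunction 1‖ * (1 + Real.log Q) :=
          mul_le_mul_of_nonneg_left (hup.trans h1) hL0
      _ = (1 + Real.log Q) * ‖χ.LFunction 1‖ := mul_comm _ _
  · calc ‖χ.LFunction 1‖ = ‖χ.LFunction 1‖ * 1 := (mul_one _).symm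
      _ ≤ ‖χ.LFunction 1‖ * (2 * (1 + Real.log Q) * ∏ p ∈ Q.primeFactors, (1 - 1 / (p : ℝ))) :=
          mul_le_mul_of_nonneg_left h2 hL0
      _ ≤ ‖χ.LFunction 1‖ * (2 * (1 + Real.log Q) * ‖P‖) :=
          mul_le_mul_of_nonneg_left (mul_le_mul_of_nonneg_left hlo (by positivity)) hL0
      _ = 2 * (1 + Real.log Q) * (‖χ.LFunction 1‖ * ‖P‖) := by ring

end Pool.Agent.Lib.LP
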