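import Pool.Agent.Lib.LP.Spec

/-!
# LP, module EXC: one exceptional prime
-/

set_option autoImplicit false

namespace Pool.Agent.Lib.LP

open ArithmeticFunction DirichletCharacter MeasureTheory

namespace EXCM

/-- a squarefree number all of whose prime divisors are at most `B` divides the primorial -/
theorem dvd_primorial {m B : ℕ} (hm : Squarefree m) (h : ∀ p : ℕ, p.Prime → p ∣ m → p ≤ B) :
    m ∣ primorial B := by
  have h0 : m ≠ 0 := hm.ne_zero
  rw [← Nat.prod_primeFactors_of_squarefree hm]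
  unfold primorial
  refine Finset.prod_dvd_prod_of_subset _ _ _ ?_
  intro p hp
  have hpp := Nat.prime_of_mem_primeFactors hp
  rw [Finset.mem_filter, Finset.mem_range]
  exact ⟨Nat.lt_succ_of_le (h p hpp (Nat.dvd_of_mem_primeFactors hp)), hpp⟩

end EXCM

theorem specEXC (h1 : SpecLAN) (h2 : SpecCHL) (h3 : SpecFIN) : SpecEXC := by
  intro B
  obtain ⟨c, hc0, hc⟩ := h3 (primorial B)
  refine ⟨max 1000 (1 / c), le_max_left _ _, ?_⟩
  intro T hT Q _ hQsq hQT
  have hT1000 : (1000 : ℝ) ≤ T := le_trans (le_max_left _ _) hT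
  have hTc : 1 / c ≤ T := le_trans (le_max_right _ _) hT
  have hT0 : 0 < T := by linarith
  have hcT : 1 ≤ T * c := by
    rwa [div_le_iff₀ hc0] at hTc
  by_cases hbad : ∃ (q' : ℕ) (_ : NeZero q') (_ : q' ∣ Q) (χ' : DirichletCharacter ℂ q'),
      χ' ≠ 1 ∧ χ' ^ 2 = 1 ∧ ‖χ'.LFunction 1‖ < (T ^ 14)⁻¹
  · obtain ⟨q', _, hq'Q, χ', hχ'1, hχ'2, hχ'L⟩ := hbad
    -- bounds for the lift of a bad character
    have hlift : ∀ (q : ℕ) [NeZero q] (hqQ : q ∣ Q) (χ : DirichletCharacter ℂ q), χ ≠ 1 →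
        ‖χ.LFunction 1‖ < (T ^ 14)⁻¹ → ‖(changeLevel hqQ χ).LFunction 1‖ < (T ^ 12)⁻¹ := by
      intro q _ hqQ χ hχ hL
      have hA := (h2 q Q hqQ χ hχ).1
      have hlog0 : 0 ≤ Real.log Q := Real.log_natCast_nonneg Q
      have h14 : (0 : ℝ) < (T ^ 14)⁻¹ := by positivity
      calc ‖(changeLevel hqQ χ).LFunction 1‖ ≤ (1 + Real.log Q) * ‖χ.LFunction 1‖ := hA
        _ < (1 + Real.log Q) * (T ^ 14)⁻¹ := by
            refine mul_lt_mul_of_pos_left hL (by linarith)
        _ ≤ (1 + T) * (T ^ 14)⁻¹ := by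
            refine mul_le_mul_of_nonneg_right (by linarith) h14.le
        _ ≤ T ^ 2 * (T ^ 14)⁻¹ := by
            refine mul_le_mul_of_nonneg_right (by nlinarith) h14.le
        _ = (T ^ 12)⁻¹ := by
            field_simp
    have hχe1 : changeLevel hq'Q χ' ≠ 1 := by
      intro h
      exact hχ'1 ((changeLevel_eq_one_iff hq'Q).1 h)
    have hχe2 : (changeLevel hq'Q χ') ^ 2 = 1 := by
      rw [← map_pow, hχ'2, map_one]
    have hχeL := hlift q' hq'Q χ' hχ'1 hχ'L
    -- all bad characters have the same lift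
    have hsame : ∀ (q : ℕ) [NeZero q] (hqQ : q ∣ Q) (χ : DirichletCharacter ℂ q), χ ≠ 1 →
        χ ^ 2 = 1 → ‖χ.LFunction 1‖ < (T ^ 14)⁻¹ → changeLevel hqQ χ = changeLevel hq'Q χ' := by
      intro q _ hqQ χ hχ hχ2 hL
      by_contra hne
      have hx1 : changeLevel hqQ χ ≠ 1 := by
        intro h
        exact hχ ((changeLevel_eq_one_iff hqQ).1 h)
      have hx2 : (changeLevel hqQ χ) ^ 2 = 1 := by
        rw [← map_pow, hχ2, map_one]
      rcases h1 T hT1000 Q (changeLevel hqQ χ) (changeLevel hq'Q χ') hQT hx1 hχe1 hx2 hχe2 hne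
        with h | h
      · exact absurd (hlift q hqQ χ hχ hL) (not_lt.2 h)
      · exact absurd hχeL (not_lt.2 h)
    -- the conductor
    have hm0 : χ'.conductor ≠ 0 := conductor_ne_zero χ'
    have hmq : χ'.conductor ∣ q' := conductor_dvd_level χ'
    have hmQ : χ'.conductor ∣ Q := hmq.trans hq'Q
    have hclaim : ∃ p₀ : ℕ, p₀.Prime ∧ B < p₀ ∧ p₀ ∣ χ'.conductor := by
      by_contra hno
      have hsm : ∀ p : ℕ, p.Prime → p ∣ χ'.conductor → p ≤ B := by
        intro p hp hpm
        by_contra hlt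
        exact hno ⟨p, hp, not_le.1 hlt, hpm⟩
      have hmsq : Squarefree χ'.conductor := hQsq.squarefree_of_dvd hmQ
      have hmN : χ'.conductor ≤ primorial B :=
        Nat.le_of_dvd (primorial_pos B) (EXCM.dvd_primorial hmsq hsm)
      haveI : NeZero χ'.conductor := ⟨hm0⟩
      have hprim := changeLevel_primitiveCharacter χ'
      have h01 : χ'.primitiveCharacter ≠ 1 := by
        intro h
        apply hχ'1
        rw [← hprim, h, map_one]
      have hA := hc χ'.conductor hmN χ'.primitiveCharacter h01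
      have hB := (h2 χ'.conductor q' hmq χ'.primitiveCharacter h01).2
      rw [hprim] at hB
      have hq'log : Real.log q' ≤ T := by
        refine le_trans (Real.log_le_log ?_ ?_) hQT
        · exact_mod_cast Nat.pos_of_ne_zero (NeZero.ne q')
        · exact_mod_cast Nat.le_of_dvd (Nat.pos_of_ne_zero (NeZero.ne Q)) hq'Q
      have hlog0 : 0 ≤ Real.log q' := Real.log_natCast_nonneg q'
      have h14 : (0 : ℝ) < (T ^ 14)⁻¹ := by positivity
      have hC : c < T ^ 3 * (T ^ 14)⁻¹ := by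
        calc c ≤ 2 * (1 + Real.log q') * ‖χ'.LFunction 1‖ := hA.trans hB
          _ < 2 * (1 + Real.log q') * (T ^ 14)⁻¹ :=
              mul_lt_mul_of_pos_left hχ'L (by linarith)
          _ ≤ T ^ 3 * (T ^ 14)⁻¹ := by
              refine mul_le_mul_of_nonneg_right ?_ h14.le
              have : T ≤ T ^ 3 / 1000000 := by
                have h' : T ^ 3 = T * (T * T) := by ring
                rw [h']
                have h'' : (1000000 : ℝ) ≤ T * T := by nlinarith
                rw [le_div_iff₀ (by norm_num)]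
                exact mul_le_mul_of_nonneg_left h'' hT0.le
              linarith
      have hD : T ^ 3 * (T ^ 14)⁻¹ = (T ^ 11)⁻¹ := by
        field_simp
      rw [hD] at hC
      have hE : (T ^ 11)⁻¹ ≤ c := by
        rw [inv_le_iff_one_le_mul₀ (by positivity)]
        calc (1 : ℝ) ≤ T * c := hcT
          _ ≤ T ^ 11 * c := by
              refine mul_le_mul_of_nonneg_right ?_ hc0.le
              exact le_self_pow₀ (by linarith) (by norm_num)
          _ = c * T ^ 11 := by ring
      exact absurd hC (not_lt.2 hE)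
    obtain ⟨p₀, hp₀, hBp, hpm⟩ := hclaim
    refine ⟨p₀, hp₀, hBp, ?_⟩
    intro q _ hqQ hcop χ hχ hχ2
    by_contra hlt
    have hS := hsame q hqQ χ hχ hχ2 (not_le.1 hlt)
    have hcond : χ.conductor = χ'.conductor := by
      rw [← conductor_changeLevel χ hqQ, hS, conductor_changeLevel]
    have hpq : p₀ ∣ q := by
      have : p₀ ∣ χ.conductor := by rw [hcond]; exact hpm
      exact this.trans (conductor_dvd_level χ)
    have h1' : p₀ ∣ Nat.gcd q p₀ := Nat.dvd_gcd hpq dvd_rfl
    rw [hcop] at h1'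
    exact hp₀.one_lt.ne' (Nat.dvd_one.1 h1')
  · obtain ⟨p₀, hpB, hp₀⟩ := Nat.exists_infinite_primes (B + 1)
    refine ⟨p₀, hp₀, hpB, ?_⟩
    intro q hq hqQ _ χ hχ hχ2
    by_contra hlt
    exact hbad ⟨q, hq, hqQ, χ, hχ, hχ2, not_le.1 hlt⟩

end Pool.Agent.Lib.LP
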