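import Pool.Agent.Lib.LP.Spec

/-!
# LP, module FGE: the product of four L-functions
-/

set_option autoImplicit false

namespace Pool.Agent.Lib.LP

open ArithmeticFunction DirichletCharacter MeasureTheory

namespace FGEM

lemma re_minus {z : ℝ} (h1 : z < 1) : (-Complex.log (1 - (z : ℂ))).re = -Real.log (1 - z) := by
  rw [Complex.neg_re, Complex.log_re, ← Complex.ofReal_one, ← Complex.ofReal_sub,
    Complex.norm_of_nonneg (by linarith)]

lemma re_plus {z : ℝ} (h0 : 0 ≤ z) : (-Complex.log (1 + (z : ℂ))).re = -Real.log (1 + z) := by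
  rw [Complex.neg_re, Complex.log_re, ← Complex.ofReal_one, ← Complex.ofReal_add,
    Complex.norm_of_nonneg (by linarith)]

lemma re_nonneg {z : ℝ} (h0 : 0 ≤ z) (h1 : z < 1) {a b : ℂ} (ha : a = 1 ∨ a = -1)
    (hb : b = 1 ∨ b = -1) :
    0 ≤ (-Complex.log (1 - (z : ℂ))).re + (-Complex.log (1 - a * z)).re +
      (-Complex.log (1 - b * z)).re + (-Complex.log (1 - a * b * z)).re := by
  have e1 : 0 ≤ -Real.log (1 - z) := by
    have := Real.log_nonpos (by linarith : (0 : ℝ) ≤ 1 - z) (by linarith)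
    linarith
  have e2 : 0 ≤ -Real.log (1 - z) + -Real.log (1 + z) := by
    have h2 : Real.log ((1 - z) * (1 + z)) ≤ 0 := Real.log_nonpos (by nlinarith) (by nlinarith)
    rw [Real.log_mul (by linarith) (by linarith)] at h2
    linarith
  have hm := re_minus h1
  have hp := re_plus h0
  rcases ha with rfl | rfl <;> rcases hb with rfl | rfl
  · rw [mul_one, one_mul, hm]
    linarith
  · rw [one_mul, one_mul, neg_one_mul, sub_neg_eq_add, hm, hp]
    linarith
  · rw [mul_one, one_mul, neg_one_mul, sub_neg_eq_add, hm, hp]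
    linarith
  · rw [show (-1 : ℂ) * -1 * z = z by ring, neg_one_mul, sub_neg_eq_add, hm, hp]
    linarith

lemma sq_eq {q : ℕ} (χ : DirichletCharacter ℂ q) (hχ : χ ^ 2 = 1) {n : ℕ}
    (hn : IsUnit (n : ZMod q)) : χ n = 1 ∨ χ n = -1 := by
  have h1 : (χ n) ^ 2 = 1 := by
    rw [← χ.pow_apply' two_ne_zero, hχ, MulChar.one_apply hn]
  have h2 : (χ n - 1) * (χ n + 1) = 0 := by linear_combination h1
  rcases mul_eq_zero.1 h2 with h | h
  · exact Or.inl (sub_eq_zero.1 h)
  · exact Or.inr (eq_neg_of_add_eq_zero_left h)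

end FGEM

open FGEM in
theorem specFGE : SpecFGE := by
  intro q _ χ₁ χ₂ h₁ h₂ x hx
  have hs : 1 < (1 + x : ℂ).re := by
    simp only [Complex.add_re, Complex.one_re, Complex.ofReal_re]
    linarith
  have H₀ := summable_neg_log_one_sub_mul_prime_cpow (N := q) 1 hs
  have H₁ := summable_neg_log_one_sub_mul_prime_cpow χ₁ hs
  have H₂ := summable_neg_log_one_sub_mul_prime_cpow χ₂ hs
  have H₃ := summable_neg_log_one_sub_mul_prime_cpow (χ₁ * χ₂) hs
  have s₀ := (Complex.hasSum_re H₀.hasSum).summable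
  have s₁ := (Complex.hasSum_re H₁.hasSum).summable
  have s₂ := (Complex.hasSum_re H₂.hasSum).summable
  have s₃ := (Complex.hasSum_re H₃.hasSum).summable
  rw [LFunctionTrivChar, DirichletCharacter.LFunction_eq_LSeries _ hs,
    DirichletCharacter.LFunction_eq_LSeries _ hs, DirichletCharacter.LFunction_eq_LSeries _ hs,
    DirichletCharacter.LFunction_eq_LSeries _ hs]
  rw [← LSeries_eulerProduct_exp_log _ hs, ← LSeries_eulerProduct_exp_log _ hs,
    ← LSeries_eulerProduct_exp_log _ hs, ← LSeries_eulerProduct_exp_log _ hs]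
  rw [← Complex.exp_add, ← Complex.exp_add, ← Complex.exp_add, Complex.norm_exp,
    Real.one_le_exp_iff, Complex.add_re, Complex.add_re, Complex.add_re, Complex.re_tsum H₀,
    Complex.re_tsum H₁, Complex.re_tsum H₂, Complex.re_tsum H₃, ← s₀.tsum_add s₁,
    ← (s₀.add s₁).tsum_add s₂, ← ((s₀.add s₁).add s₂).tsum_add s₃]
  refine tsum_nonneg fun p => ?_
  by_cases hp : IsUnit ((p : ℕ) : ZMod q)
  · have hp2 : (2 : ℝ) ≤ ((p : ℕ) : ℝ) := by exact_mod_cast p.2.two_le
    have hz : ((p : ℕ) : ℂ) ^ (-(1 + x : ℂ)) = ((((p : ℕ) : ℝ) ^ (-(1 + x)) : ℝ) : ℂ) := by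
      rw [Complex.ofReal_cpow (by linarith)]
      push_cast
      rfl
    have hz0 : 0 ≤ ((p : ℕ) : ℝ) ^ (-(1 + x)) := by positivity
    have hz1 : ((p : ℕ) : ℝ) ^ (-(1 + x)) < 1 :=
      Real.rpow_lt_one_of_one_lt_of_neg (by linarith) (by linarith)
    have h3 := re_nonneg hz0 hz1 (sq_eq χ₁ h₁ hp) (sq_eq χ₂ h₂ hp)
    rw [← hz] at h3
    rw [MulChar.one_apply hp, one_mul, MulChar.mul_apply]
    exact h3
  · rw [MulChar.map_nonunit _ hp, MulChar.map_nonunit _ hp, MulChar.map_nonunit _ hp,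
      MulChar.map_nonunit _ hp]
    simp

end Pool.Agent.Lib.LP
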