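import Pool.Agent.Lib.LP.Spec

/-!
# LP, module FIN: finitely many characters
-/

set_option autoImplicit false

namespace Pool.Agent.Lib.LP

open ArithmeticFunction DirichletCharacter MeasureTheory

theorem specFIN : SpecFIN := by
  intro N
  induction N with
  | zero =>
    refine ⟨1, one_pos, fun q hq h => ?_⟩
    exact absurd (Nat.le_zero.1 h) (NeZero.ne q)
  | succ N ih =>
    obtain ⟨c, hc, h⟩ := ih
    obtain ⟨m, hm, h2⟩ : ∃ m : ℝ, 0 < m ∧ ∀ χ : DirichletCharacter ℂ (N + 1), χ ≠ 1 →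
        m ≤ ‖χ.LFunction 1‖ := by
      by_cases hex : ∃ χ : DirichletCharacter ℂ (N + 1), χ ≠ 1
      · obtain ⟨χ0, h0⟩ := hex
        obtain ⟨χm, hχm, hmin⟩ := Set.exists_min_image {χ : DirichletCharacter ℂ (N + 1) | χ ≠ 1}
          (fun χ => ‖χ.LFunction 1‖) (Set.toFinite _) ⟨χ0, h0⟩
        refine ⟨‖χm.LFunction 1‖, norm_pos_iff.2 (LFunction_apply_one_ne_zero hχm), fun χ hχ => ?_⟩
        exact hmin χ hχ
      · push Not at hex
        exact ⟨1, one_pos, fun χ hχ => absurd (hex χ) hχ⟩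
    refine ⟨min c m, lt_min hc hm, fun q hq hqN χ hχ => ?_⟩
    rcases Nat.lt_or_ge q (N + 1) with h3 | h3
    · exact (min_le_left _ _).trans (h q (by omega) χ hχ)
    · have h4 : q = N + 1 := le_antisymm hqN h3
      subst h4
      exact (min_le_right _ _).trans (h2 χ hχ)

end Pool.Agent.Lib.LP
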