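import Pool.Agent.Lib.LP.Spec

/-!
# Primes in progressions to large moduli, module GMS

The mass of a narrow Gaussian is concentrated near the origin.
-/

set_option autoImplicit false

noncomputable section

namespace Pool.Agent.Lib.LP

open MeasureTheory

namespace GMSM

lemma G_nonneg (lam v : ℝ) : 0 ≤ G lam v :=
  mul_nonneg (Real.sqrt_nonneg _) (Real.exp_pos _).le

lemma integrable_G {lam : ℝ} (h : 0 < lam) : Integrable (fun v => G lam v) := by
  have h1 := (integrable_exp_neg_mul_sq h).const_mul (√(lam / Real.pi))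
  exact h1

lemma integral_G {lam : ℝ} (h : 0 < lam) : ∫ v, G lam v = 1 := by
  have h1 : ∫ v, G lam v = √(lam / Real.pi) * ∫ v, Real.exp (-lam * v ^ 2) := by
    rw [← integral_const_mul]
    rfl
  rw [h1, integral_gaussian, ← Real.sqrt_mul (by positivity)]
  have h2 : lam / Real.pi * (Real.pi / lam) = 1 := by
    field_simp
  rw [h2, Real.sqrt_one]

lemma G_le {lam κ v : ℝ} (hl : 0 < lam) (hv : κ ^ 2 ≤ v ^ 2) :
    G lam v ≤ (√2 * Real.exp (-(lam / 2) * κ ^ 2)) * G (lam / 2) v := by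
  have h1 : √(lam / Real.pi) = √2 * √(lam / 2 / Real.pi) := by
    rw [← Real.sqrt_mul (by norm_num)]
    congr 1
    ring
  have h2 : Real.exp (-lam * v ^ 2) ≤
      Real.exp (-(lam / 2) * κ ^ 2) * Real.exp (-(lam / 2) * v ^ 2) := by
    rw [← Real.exp_add]
    apply Real.exp_le_exp.2
    nlinarith
  simp only [G]
  rw [h1]
  have h3 : 0 ≤ √2 * √(lam / 2 / Real.pi) := by positivity
  calc √2 * √(lam / 2 / Real.pi) * Real.exp (-lam * v ^ 2)
      ≤ √2 * √(lam / 2 / Real.pi) *
        (Real.exp (-(lam / 2) * κ ^ 2) * Real.exp (-(lam / 2) * v ^ 2)) :=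
        mul_le_mul_of_nonneg_left h2 h3
    _ = _ := by ring

end GMSM

open GMSM in
theorem specGMS : SpecGMS := by
  intro κ ε hκ hε
  refine ⟨max 1 (3 / (ε * κ ^ 2)), fun lam hlam => ?_⟩
  have hl1 : 1 ≤ lam := (le_max_left _ _).trans hlam
  have hl2 : 3 / (ε * κ ^ 2) ≤ lam := (le_max_right _ _).trans hlam
  have hl : 0 < lam := by linarith
  have hm : MeasurableSet (Set.Ioc (-κ) κ) := measurableSet_Ioc
  rw [intervalIntegral.integral_of_le (by linarith)]
  have h1 := integral_add_compl hm (integrable_G hl)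
  rw [integral_G hl] at h1
  have h2 : ∫ v in (Set.Ioc (-κ) κ)ᶜ, G lam v ≤
      ∫ v in (Set.Ioc (-κ) κ)ᶜ, (√2 * Real.exp (-(lam / 2) * κ ^ 2)) * G (lam / 2) v := by
    refine setIntegral_mono_on (integrable_G hl).integrableOn
      (((integrable_G (half_pos hl)).const_mul _).integrableOn) hm.compl (fun v hv => ?_)
    apply G_le hl
    rw [Set.mem_compl_iff, Set.mem_Ioc, not_and_or, not_lt, not_le] at hv
    rcases hv with hv | hv
    · nlinarith
    · nlinarith
  have h3 : ∫ v in (Set.Ioc (-κ) κ)ᶜ, (√2 * Real.exp (-(lam / 2) * κ ^ 2)) * G (lam / 2) v ≤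
      √2 * Real.exp (-(lam / 2) * κ ^ 2) := by
    have h4 : ∫ v in (Set.Ioc (-κ) κ)ᶜ, (√2 * Real.exp (-(lam / 2) * κ ^ 2)) * G (lam / 2) v ≤
        ∫ v, (√2 * Real.exp (-(lam / 2) * κ ^ 2)) * G (lam / 2) v :=
      setIntegral_le_integral ((integrable_G (half_pos hl)).const_mul _)
        (Filter.Eventually.of_forall (fun v => mul_nonneg (by positivity) (G_nonneg _ _)))
    refine h4.trans_eq ?_
    rw [integral_const_mul, integral_G (half_pos hl), mul_one]
  have h5 : √2 * Real.exp (-(lam / 2) * κ ^ 2) ≤ ε := by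
    have hs : √2 ≤ 3 / 2 := by
      rw [Real.sqrt_le_left (by norm_num)]
      norm_num
    have hx : 0 < lam / 2 * κ ^ 2 := by positivity
    have he : Real.exp (-(lam / 2) * κ ^ 2) ≤ 1 / (lam / 2 * κ ^ 2) := by
      rw [show -(lam / 2) * κ ^ 2 = -(lam / 2 * κ ^ 2) by ring, Real.exp_neg, ← one_div]
      apply one_div_le_one_div_of_le hx
      have := Real.add_one_le_exp (lam / 2 * κ ^ 2)
      linarith
    have hk : 3 ≤ lam * (ε * κ ^ 2) := by
      rw [div_le_iff₀ (by positivity)] at hl2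
      exact hl2
    calc √2 * Real.exp (-(lam / 2) * κ ^ 2) ≤ 3 / 2 * (1 / (lam / 2 * κ ^ 2)) :=
          mul_le_mul hs he (Real.exp_pos _).le (by norm_num)
      _ ≤ ε := by
          rw [mul_one_div, div_le_iff₀ hx]
          nlinarith
  linarith

end Pool.Agent.Lib.LP
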