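import Pool.Agent.Lib.LP.Spec

/-!
# LP, module LAN: two real characters cannot both have a small value at 1 (Landau)
-/

set_option autoImplicit false

namespace Pool.Agent.Lib.LP

open ArithmeticFunction DirichletCharacter MeasureTheory

namespace LANM

theorem near (hDB : SpecDB) {T : ℝ} (hT : 1000 ≤ T) {q : ℕ} [NeZero q] (χ : DirichletCharacter ℂ q)
    (hq : Real.log q ≤ T) (hχ : χ ≠ 1) {x : ℝ} (hx0 : 0 ≤ x) (hx1 : x ≤ 1) :
    ‖χ.LFunction (1 + x)‖ ≤ ‖χ.LFunction 1‖ + T ^ 4 * x := by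
  have hseg : ∀ z ∈ segment ℝ (1 : ℂ) (1 + x), |z.im| ≤ T ∧ 1 - 1 / (4 * T) ≤ z.re ∧ z.re ≤ 2 := by
    rintro z ⟨a, b, ha, hb, hab, rfl⟩
    have hre : (a • (1 : ℂ) + b • (1 + (x : ℂ))).re = 1 + b * x := by
      simp only [Complex.add_re, Complex.real_smul, Complex.mul_re, Complex.ofReal_re,
        Complex.ofReal_im, Complex.one_re, Complex.one_im, Complex.add_im]
      linear_combination hab
    have him : (a • (1 : ℂ) + b • (1 + (x : ℂ))).im = 0 := by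
      simp
    rw [hre, him]
    have hb1 : b ≤ 1 := by linarith
    have h1 : 0 ≤ b * x := mul_nonneg hb hx0
    have h2 : b * x ≤ 1 := by nlinarith
    have h3 : 0 ≤ 1 / (4 * T) := by positivity
    refine ⟨?_, by linarith, by linarith⟩
    rw [abs_zero]
    linarith
  have h := Convex.norm_image_sub_le_of_norm_deriv_le (f := χ.LFunction) (C := T ^ 4)
    (s := segment ℝ (1 : ℂ) (1 + x)) (x := 1) (y := 1 + x)
    (fun z _ => (differentiable_LFunction hχ) z)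
    (fun z hz => (hDB T hT q χ hχ hq z (hseg z hz).1 (hseg z hz).2.1 (hseg z hz).2.2).2)
    (convex_segment _ _) (left_mem_segment _ _ _) (right_mem_segment _ _ _)
  have h1 : ‖(1 + (x : ℂ)) - 1‖ = x := by
    rw [add_sub_cancel_left, Complex.norm_real, Real.norm_eq_abs, abs_of_nonneg hx0]
  rw [h1] at h
  have h2 := norm_sub_norm_le (χ.LFunction (1 + x)) (χ.LFunction 1)
  linarith

end LANM

open LANM in
/-- LAN: Landau. -/
theorem specLAN (hDB : SpecDB) (hZB : SpecZB) (hFGE : SpecFGE) : SpecLAN := by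
  intro T hT q _ χ₁ χ₂ hq h1 h2 hs1 hs2 hne
  by_contra hcon
  push Not at hcon
  obtain ⟨hc1, hc2⟩ := hcon
  have hT0 : 0 < T := by linarith
  set x : ℝ := (T ^ 12)⁻¹ with hx
  have hx0 : 0 < x := by positivity
  have hT12 : 1 ≤ T ^ 12 := one_le_pow₀ (by linarith)
  have hx1 : x ≤ 1 := inv_le_one_of_one_le₀ hT12
  have hxT : x * T ^ 12 = 1 := inv_mul_cancel₀ (by positivity)
  have a1 := near hDB hT χ₁ hq h1 hx0.le hx1
  have a2 := near hDB hT χ₂ hq h2 hx0.le hx1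
  have hT4 : 1 ≤ T ^ 4 := one_le_pow₀ (by linarith)
  have b1 : ‖χ₁.LFunction (1 + x)‖ ≤ 2 * T ^ 4 * x := by nlinarith
  have b2 : ‖χ₂.LFunction (1 + x)‖ ≤ 2 * T ^ 4 * x := by nlinarith
  have h12 : χ₁ * χ₂ ≠ 1 := by
    intro h
    apply hne
    have e1 : χ₁ = χ₂⁻¹ := eq_inv_of_mul_eq_one_left h
    have e2 : χ₂ = χ₂⁻¹ := eq_inv_of_mul_eq_one_left (by rw [← pow_two, hs2])
    rw [e1, ← e2]
  have b3 : ‖(χ₁ * χ₂).LFunction (1 + x)‖ ≤ T ^ 3 := by
    refine (hDB T hT q (χ₁ * χ₂) h12 hq (1 + x) ?_ ?_ ?_).1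
    · simp only [Complex.add_im, Complex.one_im, Complex.ofReal_im, add_zero, abs_zero]
      linarith
    · have h3 : 0 ≤ 1 / (4 * T) := by positivity
      simp only [Complex.add_re, Complex.one_re, Complex.ofReal_re]
      linarith
    · simp only [Complex.add_re, Complex.one_re, Complex.ofReal_re]
      linarith
  have b4 := (hZB q).1 x hx0 hx1
  have hF := hFGE q χ₁ χ₂ hs1 hs2 x hx0
  rw [norm_mul, norm_mul, norm_mul] at hF
  have b4' : ‖LFunctionTrivChar q (1 + x)‖ ≤ 2 * T ^ 12 := by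
    rw [hx, div_inv_eq_mul] at b4
    exact b4
  have hprod : ‖LFunctionTrivChar q (1 + x)‖ * ‖χ₁.LFunction (1 + x)‖ * ‖χ₂.LFunction (1 + x)‖ *
      ‖(χ₁ * χ₂).LFunction (1 + x)‖ ≤
      (2 * T ^ 12) * (2 * T ^ 4 * x) * (2 * T ^ 4 * x) * T ^ 3 := by
    have p1 : ‖LFunctionTrivChar q (1 + x)‖ * ‖χ₁.LFunction (1 + x)‖ ≤
        (2 * T ^ 12) * (2 * T ^ 4 * x) :=
      mul_le_mul b4' b1 (norm_nonneg _) (by positivity)
    have p2 : ‖LFunctionTrivChar q (1 + x)‖ * ‖χ₁.LFunction (1 + x)‖ * ‖χ₂.LFunction (1 + x)‖ ≤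
        (2 * T ^ 12) * (2 * T ^ 4 * x) * (2 * T ^ 4 * x) :=
      mul_le_mul p1 b2 (norm_nonneg _) (by positivity)
    exact mul_le_mul p2 b3 (norm_nonneg _) (by positivity)
  have hval : (2 * T ^ 12) * (2 * T ^ 4 * x) * (2 * T ^ 4 * x) * T ^ 3 * T =
      8 * (x * T ^ 12) * (x * T ^ 12) := by ring
  rw [hxT] at hval
  have h1T : 1 ≤ (2 * T ^ 12) * (2 * T ^ 4 * x) * (2 * T ^ 4 * x) * T ^ 3 := hF.trans hprod
  have h2T : T ≤ (2 * T ^ 12) * (2 * T ^ 4 * x) * (2 * T ^ 4 * x) * T ^ 3 * T := by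
    nlinarith
  linarith

end Pool.Agent.Lib.LP
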