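import Pool.Agent.Lib.LP.Spec

/-!
# Landau-Page, weak form: the final step
-/

set_option autoImplicit false

noncomputable section

namespace Pool.Agent.Lib.LP

open ArithmeticFunction DirichletCharacter MeasureTheory

namespace LPM

theorem G_nonneg {lam : ℝ} (h : 0 < lam) (v : ℝ) : 0 ≤ G lam v := by
  unfold G
  positivity

theorem G_cont (lam : ℝ) : Continuous (G lam) := by
  unfold G
  fun_prop

/-- the numbers of the end -/
theorem numerics {η : ℝ} (h0 : 0 < η) (h1 : η ≤ 1 / 8) {S Y : ℝ} (hY : 0 ≤ Y)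
    (h : (1 - η) * S ≤ ((1 + η) * (1 + η) + η) * (1 + η) * Y) : S ≤ (1 + 8 * η) * Y := by
  have h2 : ((1 + η) * (1 + η) + η) * (1 + η) ≤ (1 - η) * (1 + 8 * η) := by
    have h4 : 0 ≤ η * (3 - 12 * η - η ^ 2) := mul_nonneg h0.le (by nlinarith)
    have h5 : (1 - η) * (1 + 8 * η) - ((1 + η) * (1 + η) + η) * (1 + η) =
        η * (3 - 12 * η - η ^ 2) := by ring
    linarith
  have h3 : (1 - η) * S ≤ (1 - η) * ((1 + 8 * η) * Y) := by
    calc (1 - η) * S ≤ ((1 + η) * (1 + η) + η) * (1 + η) * Y := h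
      _ ≤ ((1 - η) * (1 + 8 * η)) * Y := mul_le_mul_of_nonneg_right h2 hY
      _ = (1 - η) * ((1 + 8 * η) * Y) := by ring
  exact le_of_mul_le_mul_left h3 (by linarith)

theorem exp_le {t : ℝ} (h0 : 0 ≤ t) (h1 : t ≤ 1 / 2) : Real.exp t ≤ 1 + 2 * t := by
  have h2 : 1 - t ≤ Real.exp (-t) := by
    have := Real.add_one_le_exp (-t)
    linarith
  have h3 : Real.exp t * Real.exp (-t) = 1 := by
    rw [← Real.exp_add, add_neg_cancel, Real.exp_zero]
  have h4 : Real.exp t * (1 - t) ≤ 1 :=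
    (mul_le_mul_of_nonneg_left h2 (Real.exp_pos _).le).trans h3.le
  have h5 : 1 ≤ (1 + 2 * t) * (1 - t) := by nlinarith
  have h6 : Real.exp t * (1 - t) ≤ (1 + 2 * t) * (1 - t) := h4.trans h5
  exact le_of_mul_le_mul_right h6 (by linarith)

/-- mass of one prime -/
theorem mass {lam κ η : ℝ} (hlam : 0 < lam) (hmass : 1 - η ≤ ∫ v in (-κ)..κ, G lam v)
    (hκ : 0 ≤ κ) {A C l : ℝ} (hA : A ≤ l - κ) (hC : l + κ ≤ C) :
    1 - η ≤ ∫ w in A..C, G lam (w - l) := by
  rw [intervalIntegral.integral_comp_sub_right (fun v => G lam v)]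
  refine hmass.trans ?_
  refine intervalIntegral.integral_mono_interval (by linarith) (by linarith) (by linarith) ?_ ?_
  · exact Filter.Eventually.of_forall fun v => G_nonneg hlam v
  · exact (G_cont lam).intervalIntegrable _ _

/-- the finite sum is at most `SA` -/
theorem sum_le_SA {lam : ℝ} (hlam : 0 < lam) (w : ℝ)
    (hs : Summable fun n : ℕ => vonMangoldt n * G lam (w - Real.log n)) (q a : ℕ)
    (F : Finset ℕ) (hF : ∀ p ∈ F, p.Prime ∧ p ≡ a [MOD q]) :
    ∑ p ∈ F, Real.log p * G lam (w - Real.log p) ≤ SA lam q a w := by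
  classical
  have hnn : ∀ n : ℕ, 0 ≤ vonMangoldt n * G lam (w - Real.log n) := fun n =>
    mul_nonneg vonMangoldt_nonneg (G_nonneg hlam _)
  have hs' : Summable fun n : ℕ => if (n : ZMod q) = a then
      vonMangoldt n * G lam (w - Real.log n) else 0 := by
    refine Summable.of_nonneg_of_le (fun n => ?_) (fun n => ?_) hs
    · split_ifs
      · exact hnn n
      · exact le_rfl
    · split_ifs
      · exact le_rfl
      · exact hnn n
  have h1 := hs'.sum_le_tsum F (fun n _ => by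
    split_ifs
    · exact hnn n
    · exact le_rfl)
  have h2 : ∑ p ∈ F, Real.log p * G lam (w - Real.log p) =
      ∑ n ∈ F, (if (n : ZMod q) = a then vonMangoldt n * G lam (w - Real.log n) else 0) := by
    refine Finset.sum_congr rfl fun p hp => ?_
    obtain ⟨hp1, hp2⟩ := hF p hp
    rw [if_pos ((ZMod.natCast_eq_natCast_iff p a q).2 hp2), vonMangoldt_apply_prime hp1]
  rw [h2]
  refine h1.trans (le_of_eq ?_)
  unfold SA
  refine tsum_congr fun n => ?_
  by_cases hn : (n : ZMod q) = a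
  · rw [if_pos hn]
  · rw [if_neg hn]

/-- main estimate for one progression -/
theorem main {lam κ η T x : ℝ} (hlam : 0 < lam) (hκ : 0 ≤ κ)
    (hmass : 1 - η ≤ ∫ v in (-κ)..κ, G lam v) (hη : 0 < η) (hx : 0 < x)
    (hκ2 : 2 * Real.exp κ - Real.exp (-κ) ≤ 1 + η)
    (hle : Real.exp (1 / (4 * lam)) ≤ 1 + η) (hT : Real.exp (-T) ≤ η) (q a : ℕ) (hq : 0 < q.totient)
    (F : Finset ℕ) (hF : ∀ p ∈ F, p.Prime ∧ p ≡ a [MOD q] ∧ x < p ∧ (p : ℝ) ≤ 2 * x)
    (hs : ∀ w : ℝ, Summable fun n : ℕ => vonMangoldt n * G lam (w - Real.log n))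
    (hSU : ∀ w : ℝ, Real.log x - κ ≤ w → w ≤ Real.log (2 * x) + κ →
      SU lam w ≤ (1 + η) * Real.exp (w + 1 / (4 * lam)))
    (hSA : ∀ w : ℝ, Real.log x - κ ≤ w → w ≤ Real.log (2 * x) + κ →
      SA lam q a w ≤ (SU lam w + Real.exp (w - T)) / q.totient) :
    (1 - η) * ∑ p ∈ F, Real.log p ≤
      ((1 + η) * (1 + η) + η) * (1 + η) * (x / q.totient) := by
  set A : ℝ := Real.log x - κ with hA
  set C : ℝ := Real.log (2 * x) + κ with hC
  have hlog2 : Real.log x ≤ Real.log (2 * x) := Real.log_le_log hx (by linarith)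
  have hAC : A ≤ C := by rw [hA, hC]; linarith
  have hφ : (0 : ℝ) < q.totient := by exact_mod_cast hq
  -- lower bound
  have h1 : (1 - η) * ∑ p ∈ F, Real.log p ≤
      ∑ p ∈ F, ∫ w in A..C, Real.log p * G lam (w - Real.log p) := by
    rw [Finset.mul_sum]
    refine Finset.sum_le_sum fun p hp => ?_
    obtain ⟨hp1, -, hp3, hp4⟩ := hF p hp
    have hlp : 0 ≤ Real.log p := Real.log_natCast_nonneg p
    rw [intervalIntegral.integral_const_mul, mul_comm]
    refine mul_le_mul_of_nonneg_left ?_ hlp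
    have e1 : Real.log x ≤ Real.log p := Real.log_le_log hx hp3.le
    have e2 : Real.log p ≤ Real.log (2 * x) :=
      Real.log_le_log (hx.trans hp3) hp4
    exact mass hlam hmass hκ (by rw [hA]; linarith) (by rw [hC]; linarith)
  have hint : ∀ p : ℕ, IntervalIntegrable (fun w => Real.log p * G lam (w - Real.log p))
      volume A C := fun p =>
    (continuous_const.mul ((G_cont lam).comp (continuous_id.sub continuous_const))).intervalIntegrable
      _ _
  have h2 : ∑ p ∈ F, ∫ w in A..C, Real.log p * G lam (w - Real.log p) =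
      ∫ w in A..C, ∑ p ∈ F, Real.log p * G lam (w - Real.log p) := by
    rw [intervalIntegral.integral_finsetSum fun p _ => hint p]
  set K : ℝ := ((1 + η) * Real.exp (1 / (4 * lam)) + Real.exp (-T)) / q.totient with hK
  have h3 : ∫ w in A..C, ∑ p ∈ F, Real.log p * G lam (w - Real.log p) ≤
      ∫ w in A..C, K * Real.exp w := by
    refine intervalIntegral.integral_mono_on hAC ?_ ?_ ?_
    · refine Continuous.intervalIntegrable ?_ _ _
      refine continuous_finsetSum _ fun p _ => ?_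
      exact continuous_const.mul ((G_cont lam).comp (continuous_id.sub continuous_const))
    · exact (continuous_const.mul Real.continuous_exp).intervalIntegrable _ _
    · intro w hw
      have e1 := sum_le_SA hlam w (hs w) q a F (fun p hp => ⟨(hF p hp).1, (hF p hp).2.1⟩)
      have e2 := hSA w hw.1 hw.2
      have e3 := hSU w hw.1 hw.2
      refine e1.trans (e2.trans ?_)
      rw [hK, div_mul_eq_mul_div]
      refine div_le_div_of_nonneg_right ?_ hφ.le
      have e4 : Real.exp (w + 1 / (4 * lam)) = Real.exp w * Real.exp (1 / (4 * lam)) :=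
        Real.exp_add _ _
      have e5 : Real.exp (w - T) = Real.exp w * Real.exp (-T) := by
        rw [← Real.exp_add]
        congr 1
      rw [e5]
      rw [e4] at e3
      nlinarith
  have h4 : ∫ w in A..C, K * Real.exp w = K * (x * (2 * Real.exp κ - Real.exp (-κ))) := by
    rw [intervalIntegral.integral_const_mul, integral_exp]
    congr 1
    rw [hA, hC, Real.exp_add, Real.exp_log (by linarith), Real.exp_sub, Real.exp_log hx,
      Real.exp_neg]
    ring
  have hK0 : 0 ≤ K := by rw [hK]; positivity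
  have hK1 : K ≤ ((1 + η) * (1 + η) + η) / q.totient := by
    rw [hK]
    refine div_le_div_of_nonneg_right ?_ hφ.le
    nlinarith
  calc (1 - η) * ∑ p ∈ F, Real.log p ≤ ∫ w in A..C, K * Real.exp w := by
        rw [h2] at h1
        exact h1.trans h3
    _ = K * (x * (2 * Real.exp κ - Real.exp (-κ))) := h4
    _ ≤ (((1 + η) * (1 + η) + η) / q.totient) * (x * (1 + η)) := by
        refine mul_le_mul hK1 (mul_le_mul_of_nonneg_left hκ2 hx.le) ?_ (by positivity)
        refine mul_nonneg hx.le ?_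
        have e1 : Real.exp (-κ) ≤ 1 := Real.exp_le_one_iff.2 (by linarith)
        have e2 : 1 ≤ Real.exp κ := Real.one_le_exp hκ
        linarith
    _ = ((1 + η) * (1 + η) + η) * (1 + η) * (x / q.totient) := by
        field_simp

end LPM

open LPM in
theorem specLP (hLOW : SpecLOW) (hEXP : SpecEXP) (hORT : SpecORT) (hPNG : SpecPNG)
    (hGMS : SpecGMS) : SpecLP := by
  intro ε hε B
  set η : ℝ := min ε 1 / 8 with hη
  have hη0 : 0 < η := by rw [hη]; positivity
  have hη1 : η ≤ 1 / 8 := by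
    rw [hη]
    have := min_le_right ε 1
    linarith
  have hη2 : 8 * η ≤ ε := by
    rw [hη]
    have := min_le_left ε 1
    linarith
  set κ : ℝ := η / 8 with hκ
  have hκ0 : 0 < κ := by rw [hκ]; positivity
  have hκ1 : κ ≤ 1 / 2 := by rw [hκ]; linarith
  have hκ2 : 2 * Real.exp κ - Real.exp (-κ) ≤ 1 + η := by
    have h1 := exp_le hκ0.le hκ1
    have h2 := Real.add_one_le_exp (-κ)
    have h3 : 8 * κ = η := by rw [hκ]; ring
    linarith
  obtain ⟨lam₀, hlam₀⟩ := hGMS κ η hκ0 hη0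
  set lam : ℝ := max lam₀ (1 / η) with hlam
  have hlam1 : 1 / η ≤ lam := le_max_right _ _
  have hlam2 : 0 < lam := lt_of_lt_of_le (by positivity) hlam1
  have hle : Real.exp (1 / (4 * lam)) ≤ 1 + η := by
    have h1 : 1 / (4 * lam) ≤ η / 4 := by
      rw [div_le_div_iff₀ (by positivity) (by norm_num)]
      have h2 : 1 ≤ η * lam := by
        rw [div_le_iff₀ hη0] at hlam1
        linarith
      nlinarith
    have h3 := exp_le (t := 1 / (4 * lam)) (by positivity) (by linarith)
    linarith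
  obtain ⟨u₀, hu₀⟩ := hPNG lam η hlam2 hη0
  obtain ⟨T₁, hT₁, hLOW'⟩ := hLOW B
  obtain ⟨T₀, hT₀⟩ := hORT lam hlam2
  set Tm : ℝ := max (max T₁ T₀) (max (u₀ + 1) (1 / η)) with hTm
  have hTm1 : T₁ ≤ Tm := (le_max_left _ _).trans (le_max_left _ _)
  have hTm2 : T₀ ≤ Tm := (le_max_right _ _).trans (le_max_left _ _)
  have hTm3 : u₀ + 1 ≤ Tm := (le_max_left _ _).trans (le_max_right _ _)
  have hTm4 : 1 / η ≤ Tm := (le_max_right _ _).trans (le_max_right _ _)
  refine ⟨⌈Real.exp (Tm ^ 50)⌉₊, fun x hx Q hQ hQT => ?_⟩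
  have hx1 : Real.exp (Tm ^ 50) ≤ x := (Nat.le_ceil _).trans (by exact_mod_cast hx)
  have hx0 : (0 : ℝ) < x := lt_of_lt_of_le (Real.exp_pos _) hx1
  have hlx : Tm ^ 50 ≤ Real.log x := (Real.le_log_iff_exp_le hx0).2 hx1
  have hTm0 : 0 ≤ Tm := by linarith
  set T : ℝ := (Real.log x) ^ ((1 : ℝ) / 50) with hT
  have hlx0 : 0 ≤ Real.log x := le_trans (by positivity) hlx
  have hT50 : T ^ 50 = Real.log x := by
    rw [hT, ← Real.rpow_natCast, ← Real.rpow_mul hlx0]
    norm_num
  have hTT : Tm ≤ T := by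
    have h1 : Tm ^ 50 ≤ T ^ 50 := by rw [hT50]; exact hlx
    exact le_of_pow_le_pow_left₀ (by norm_num) (by rw [hT]; positivity) h1
  have hT1000 : 1000 ≤ T := by linarith
  have hQ0 : Q ≠ 0 := hQ.ne_zero
  have : NeZero Q := ⟨hQ0⟩
  obtain ⟨p₀, hp₀, hBp, hgood⟩ := hLOW' T (hTm1.trans hTT) Q hQ hQT
  refine ⟨p₀, hp₀, hBp, fun q a hqQ hqp haq => ?_⟩
  have hq0 : q ≠ 0 := fun h => hQ0 (by rw [h] at hqQ; exact Nat.eq_zero_of_zero_dvd hqQ)
  have : NeZero q := ⟨hq0⟩
  have hlq : Real.log q ≤ T := by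
    refine le_trans (Real.log_le_log (by exact_mod_cast Nat.pos_of_ne_zero hq0) ?_) hQT
    exact_mod_cast Nat.le_of_dvd (Nat.pos_of_ne_zero hQ0) hqQ
  have hg := hgood q hqQ hqp
  have hexpT : Real.exp (-T) ≤ η := by
    have h1 : 1 / η ≤ T := hTm4.trans hTT
    have h2 : T ≤ Real.exp T := by
      have := Real.add_one_le_exp T
      linarith
    rw [Real.exp_neg]
    have h3 : 1 / η ≤ Real.exp T := h1.trans h2
    have h4 := inv_anti₀ (by positivity) h3
    rwa [one_div, inv_inv] at h4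
  have hlog2x : Real.log (2 * x) ≤ Real.log x + 1 := by
    rw [Real.log_mul (by norm_num) hx0.ne']
    have := Real.log_two_lt_d9
    linarith
  have hwl : ∀ w : ℝ, Real.log x - κ ≤ w → w ≤ Real.log (2 * x) + κ →
      T ^ 46 ≤ w ∧ w ≤ T ^ 60 ∧ u₀ ≤ w := by
    intro w hw1 hw2
    have h46 : 1 ≤ T ^ 46 := one_le_pow₀ (by linarith)
    have h4 : 2 ≤ T ^ 4 := by
      have : T ≤ T ^ 4 := le_self_pow₀ (by linarith) (by norm_num)
      linarith
    have h50 : T ^ 46 * 2 ≤ T ^ 50 := by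
      rw [show (50 : ℕ) = 46 + 4 from rfl, pow_add]
      exact mul_le_mul_of_nonneg_left h4 (by positivity)
    have h60 : T ^ 50 * 1000 ≤ T ^ 60 := by
      rw [show (60 : ℕ) = 50 + 10 from rfl, pow_add]
      refine mul_le_mul_of_nonneg_left ?_ (by positivity)
      have : T ≤ T ^ 10 := le_self_pow₀ (by linarith) (by norm_num)
      linarith
    have h50' : T ≤ T ^ 50 := le_self_pow₀ (by linarith) (by norm_num)
    refine ⟨?_, ?_, ?_⟩
    · linarith
    · linarith
    · linarith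
  have key := LPM.main (lam := lam) (κ := κ) (η := η) (T := T) (x := x) hlam2 hκ0.le
    (hlam₀ lam (le_max_left _ _)) hη0 hx0 hκ2 hle hexpT q a
    (Nat.totient_pos.2 (Nat.pos_of_ne_zero hq0))
    ((Finset.Ioc x (2 * x)).filter (fun p => p.Prime ∧ p ≡ a [MOD q]))
    (fun p hp => by
      rw [Finset.mem_filter, Finset.mem_Ioc] at hp
      refine ⟨hp.2.1, hp.2.2, by exact_mod_cast hp.1.1, by exact_mod_cast hp.1.2⟩)
    (fun w => (hEXP lam hlam2 w).1)
    (fun w hw1 hw2 => hu₀ w (hwl w hw1 hw2).2.2)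
    (fun w hw1 hw2 => hT₀ T (hTm2.trans hTT) q hlq hg a haq w (hwl w hw1 hw2).1
      (hwl w hw1 hw2).2.1)
  have hfin := numerics hη0 hη1 (Y := (x : ℝ) / q.totient) (by positivity) key
  refine hfin.trans ?_
  rw [mul_div_assoc]
  exact mul_le_mul_of_nonneg_right (by linarith) (by positivity)

end Pool.Agent.Lib.LP
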