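import Pool.Agent.Lib.LP.Spec

/-!
# LP, module LPZ: the moduli dividing a product of small primes
-/

set_option autoImplicit false

noncomputable section

namespace Pool.Agent.Lib.LP

open ArithmeticFunction DirichletCharacter MeasureTheory

namespace LPZM

lemma log_primorial_le (n : ℕ) : Real.log (primorial n) ≤ 2 * n := by
  have h1 : (primorial n : ℝ) ≤ 4 ^ n := by exact_mod_cast primorial_le_four_pow n
  have h0 : (0 : ℝ) < primorial n := by exact_mod_cast primorial_pos n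
  have h2 : Real.log (primorial n) ≤ n * Real.log 4 := by
    rw [← Real.log_pow]
    exact Real.log_le_log h0 h1
  have h3 : Real.log 4 ≤ 2 := by
    rw [show (4 : ℝ) = 2 ^ 2 by norm_num, Real.log_pow]
    have := Real.log_two_lt_d9
    push_cast
    linarith
  have h4 : (n : ℝ) * Real.log 4 ≤ n * 2 := mul_le_mul_of_nonneg_left h3 (Nat.cast_nonneg n)
  linarith

lemma prod_dvd_primorial (z : ℕ) (hz : 1 ≤ z) (p₀ : ℕ) :
    ∏ p ∈ (Finset.range z).filter (fun p => p.Prime ∧ p ≠ p₀), p ∣ primorial (z - 1) := by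
  rw [primorial, Nat.sub_add_cancel hz]
  refine Finset.prod_dvd_prod_of_subset _ _ _ (fun p hp => ?_)
  simp only [Finset.mem_filter] at hp ⊢
  exact ⟨hp.1, hp.2.1⟩

lemma prod_coprime (z : ℕ) (p₀ : ℕ) (hp₀ : p₀.Prime) :
    (∏ p ∈ (Finset.range z).filter (fun p => p.Prime ∧ p ≠ p₀), p).Coprime p₀ := by
  refine Nat.Coprime.prod_left (fun p hp => ?_)
  simp only [Finset.mem_filter] at hp
  exact (Nat.coprime_primes hp.2.1 hp₀).2 hp.2.2

lemma rpow_two {l : ℝ} (hl : (2 : ℝ) ^ (2550 : ℕ) ≤ l) :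
    2 * l ^ ((1 : ℝ) / 51) ≤ l ^ ((1 : ℝ) / 50) := by
  have hlpos : (0 : ℝ) < l := lt_of_lt_of_le (by positivity) hl
  have h1 : l ^ ((1 : ℝ) / 50) = l ^ ((1 : ℝ) / 2550) * l ^ ((1 : ℝ) / 51) := by
    rw [← Real.rpow_add hlpos]
    norm_num
  have h2 : (2 : ℝ) ≤ l ^ ((1 : ℝ) / 2550) := by
    have h3 : ((2 : ℝ) ^ (2550 : ℕ)) ^ ((1 : ℝ) / 2550) ≤ l ^ ((1 : ℝ) / 2550) :=
      Real.rpow_le_rpow (by positivity) hl (by norm_num)
    have h4 : ((2 : ℝ) ^ (2550 : ℕ)) ^ ((1 : ℝ) / 2550) = 2 := by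
      rw [← Real.rpow_natCast, ← Real.rpow_mul (by norm_num)]
      norm_num
    rwa [h4] at h3
  rw [h1]
  exact mul_le_mul_of_nonneg_right h2 (Real.rpow_nonneg hlpos.le _)

end LPZM

open LPZM in
theorem specLPZ (hLP : SpecLP) : SpecLPZ := by
  intro ε hε B
  obtain ⟨x₀, hx₀⟩ := hLP ε hε B
  obtain ⟨x₁, hx₁⟩ := exists_nat_ge (Real.exp ((2 : ℝ) ^ (2550 : ℕ)))
  refine ⟨max x₀ x₁, fun x z hx hz2 hz => ?_⟩
  have hlog : (2 : ℝ) ^ (2550 : ℕ) ≤ Real.log x := by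
    have h1 : Real.exp ((2 : ℝ) ^ (2550 : ℕ)) ≤ (x : ℝ) :=
      hx₁.trans (by exact_mod_cast (le_max_right x₀ x₁).trans hx)
    rw [Real.le_log_iff_exp_le (lt_of_lt_of_le (Real.exp_pos _) h1)]
    exact h1
  have hQ : Real.log (primorial (z - 1)) ≤ (Real.log x) ^ ((1 : ℝ) / 50) := by
    have h1 := log_primorial_le (z - 1)
    have h2 : ((z - 1 : ℕ) : ℝ) ≤ z := by exact_mod_cast Nat.sub_le z 1
    have h3 := rpow_two hlog
    linarith
  obtain ⟨p₀, hp₀, hBp, hmain⟩ := hx₀ x ((le_max_left _ _).trans hx) (primorial (z - 1))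
    (squarefree_primorial _) hQ
  refine ⟨p₀, hp₀, hBp, fun M hM n hn => ?_⟩
  refine hmain M n ?_ ?_ hn
  · rw [hM]; exact prod_dvd_primorial z (by omega) p₀
  · rw [hM]; exact prod_coprime z p₀ hp₀

end Pool.Agent.Lib.LP
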