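import Pool.Agent.Lib.LP.Spec

/-!
# LP, module ORT: orthogonality of the characters
-/

set_option autoImplicit false

noncomputable section

namespace Pool.Agent.Lib.LP

open ArithmeticFunction DirichletCharacter MeasureTheory

namespace ORTM

theorem G_nonneg {lam : ℝ} (v : ℝ) : 0 ≤ G lam v :=
  mul_nonneg (Real.sqrt_nonneg _) (Real.exp_pos _).le

/-- the weight -/
def w (lam u : ℝ) (n : ℕ) : ℝ := vonMangoldt n * G lam (u - Real.log n)

theorem w_nonneg (lam u : ℝ) (n : ℕ) : 0 ≤ w lam u n :=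
  mul_nonneg vonMangoldt_nonneg (G_nonneg _)

theorem F_eq (lam u : ℝ) {q : ℕ} (χ : DirichletCharacter ℂ q) :
    F lam χ u = ∑' n : ℕ, ((w lam u n : ℝ) : ℂ) * χ n := by
  unfold F w
  refine tsum_congr fun n => ?_
  push_cast
  ring

theorem summable_wχ {lam u : ℝ} (hs : Summable (w lam u)) {q : ℕ} (χ : DirichletCharacter ℂ q) :
    Summable fun n : ℕ => ((w lam u n : ℝ) : ℂ) * χ n := by
  refine Summable.of_norm_bounded hs fun n => ?_
  rw [norm_mul, Complex.norm_real, Real.norm_eq_abs, abs_of_nonneg (w_nonneg lam u n)]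
  exact mul_le_of_le_one_right (w_nonneg lam u n) (DirichletCharacter.norm_le_one χ _)

theorem norm_F_le {lam u : ℝ} (hs : Summable (w lam u)) {q : ℕ} (χ : DirichletCharacter ℂ q) :
    ‖F lam χ u‖ ≤ SU lam u := by
  rw [F_eq]
  have h1 : ∀ n : ℕ, ‖((w lam u n : ℝ) : ℂ) * χ n‖ ≤ w lam u n := by
    intro n
    rw [norm_mul, Complex.norm_real, Real.norm_eq_abs, abs_of_nonneg (w_nonneg lam u n)]
    exact mul_le_of_le_one_right (w_nonneg lam u n) (DirichletCharacter.norm_le_one χ _)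
  have h2 : Summable fun n : ℕ => ‖((w lam u n : ℝ) : ℂ) * χ n‖ :=
    Summable.of_nonneg_of_le (fun n => norm_nonneg _) h1 hs
  calc ‖∑' n : ℕ, ((w lam u n : ℝ) : ℂ) * χ n‖ ≤ ∑' n : ℕ, ‖((w lam u n : ℝ) : ℂ) * χ n‖ :=
        norm_tsum_le_tsum_norm h2
    _ ≤ ∑' n : ℕ, w lam u n := h2.tsum_le_tsum h1 hs
    _ = SU lam u := rfl

/-- orthogonality -/
theorem orth {lam u : ℝ} (hs : Summable (w lam u)) {q : ℕ} [NeZero q] {a : ℕ} (ha : a.Coprime q) :
    ∑ χ : DirichletCharacter ℂ q, χ ((a : ZMod q)⁻¹) * F lam χ u =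
      ((q.totient : ℝ) * SA lam q a u : ℝ) := by
  have hu : IsUnit (a : ZMod q) := (ZMod.isUnit_iff_coprime a q).2 ha
  have h1 : ∀ χ : DirichletCharacter ℂ q, χ ((a : ZMod q)⁻¹) * F lam χ u =
      ∑' n : ℕ, ((w lam u n : ℝ) : ℂ) * (χ ((a : ZMod q)⁻¹) * χ n) := by
    intro χ
    rw [F_eq, ← tsum_mul_left]
    refine tsum_congr fun n => ?_
    ring
  have hsum : ∀ χ : DirichletCharacter ℂ q,
      Summable fun n : ℕ => ((w lam u n : ℝ) : ℂ) * (χ ((a : ZMod q)⁻¹) * χ n) := by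
    intro χ
    have h := (summable_wχ hs χ).mul_left (χ ((a : ZMod q)⁻¹))
    refine h.congr fun n => ?_
    ring
  rw [Finset.sum_congr rfl fun χ _ => h1 χ, ← Summable.tsum_finsetSum fun χ _ => hsum χ]
  unfold SA
  rw [Complex.ofReal_mul, Complex.ofReal_tsum, ← tsum_mul_left]
  refine tsum_congr fun n => ?_
  rw [← Finset.mul_sum, sum_char_inv_mul_char_eq ℂ hu (n : ZMod q)]
  by_cases h : (n : ZMod q) = a
  · rw [if_pos h.symm, if_pos h]
    unfold w
    push_cast
    ring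
  · rw [if_neg fun h' => h h'.symm, if_neg h]
    simp

end ORTM

theorem specORT (hE : SpecEXP) (hP : SpecPSI) : SpecORT := by
  intro lam hlam
  obtain ⟨T₀, hT₀⟩ := hP lam hlam
  refine ⟨T₀, ?_⟩
  intro T hT q _ hqT hgood a ha u hu1 hu2
  have hs : Summable (ORTM.w lam u) := (hE lam hlam u).1
  have hφ : (0 : ℝ) < q.totient := by
    exact_mod_cast Nat.totient_pos.2 (Nat.pos_of_ne_zero (NeZero.ne q))
  rw [le_div_iff₀ hφ]
  have hSA0 : 0 ≤ SA lam q a u := by
    unfold SA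
    refine tsum_nonneg fun n => ?_
    split_ifs
    · exact ORTM.w_nonneg lam u n
    · exact le_rfl
  have h1 := ORTM.orth hs ha
  have h2 : (q.totient : ℝ) * SA lam q a u =
      ‖∑ χ : DirichletCharacter ℂ q, χ ((a : ZMod q)⁻¹) * F lam χ u‖ := by
    rw [h1, Complex.norm_real, Real.norm_eq_abs, abs_of_nonneg (mul_nonneg hφ.le hSA0)]
  have h3 : ∀ χ : DirichletCharacter ℂ q, ‖χ ((a : ZMod q)⁻¹) * F lam χ u‖ ≤ ‖F lam χ u‖ := by
    intro χ
    rw [norm_mul]
    exact mul_le_of_le_one_left (norm_nonneg _) (DirichletCharacter.norm_le_one χ _)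
  have hcard : (Finset.univ : Finset (DirichletCharacter ℂ q)).card = q.totient := by
    rw [Finset.card_univ, ← Nat.card_eq_fintype_card]
    exact card_eq_totient_of_hasEnoughRootsOfUnity ℂ q
  have hqle : (q.totient : ℝ) ≤ Real.exp T := by
    have hq0 : (0 : ℝ) < q := by exact_mod_cast Nat.pos_of_ne_zero (NeZero.ne q)
    calc (q.totient : ℝ) ≤ q := by exact_mod_cast Nat.totient_le q
      _ = Real.exp (Real.log q) := (Real.exp_log hq0).symm
      _ ≤ Real.exp T := Real.exp_le_exp.2 hqT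
  calc SA lam q a u * q.totient = (q.totient : ℝ) * SA lam q a u := mul_comm _ _
    _ = ‖∑ χ : DirichletCharacter ℂ q, χ ((a : ZMod q)⁻¹) * F lam χ u‖ := h2
    _ ≤ ∑ χ : DirichletCharacter ℂ q, ‖χ ((a : ZMod q)⁻¹) * F lam χ u‖ := norm_sum_le _ _
    _ ≤ ∑ χ : DirichletCharacter ℂ q, ‖F lam χ u‖ := Finset.sum_le_sum fun χ _ => h3 χ
    _ = ‖F lam (1 : DirichletCharacter ℂ q) u‖ +
          ∑ χ ∈ Finset.univ.erase (1 : DirichletCharacter ℂ q), ‖F lam χ u‖ :=
        (Finset.add_sum_erase _ _ (Finset.mem_univ _)).symm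
    _ ≤ SU lam u + ∑ χ ∈ Finset.univ.erase (1 : DirichletCharacter ℂ q),
          Real.exp (u - 2 * T) := by
        refine add_le_add (ORTM.norm_F_le hs _) (Finset.sum_le_sum fun χ hχ => ?_)
        exact hT₀ T hT q hqT hgood χ (Finset.ne_of_mem_erase hχ) u hu1 hu2
    _ ≤ SU lam u + (q.totient : ℝ) * Real.exp (u - 2 * T) := by
        rw [Finset.sum_const, nsmul_eq_mul]
        refine add_le_add le_rfl (mul_le_mul_of_nonneg_right ?_ (Real.exp_pos _).le)
        rw [← hcard]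
        exact_mod_cast Finset.card_le_card (Finset.erase_subset _ _)
    _ ≤ SU lam u + Real.exp T * Real.exp (u - 2 * T) :=
        add_le_add le_rfl (mul_le_mul_of_nonneg_right hqle (Real.exp_pos _).le)
    _ = SU lam u + Real.exp (u - T) := by
        rw [← Real.exp_add]
        ring_nf

end Pool.Agent.Lib.LP
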