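import Pool.Agent.Lib.LP.CHL
import Pool.Agent.Lib.LP.CONT
import Pool.Agent.Lib.LP.DB
import Pool.Agent.Lib.LP.EXC
import Pool.Agent.Lib.LP.EXP
import Pool.Agent.Lib.LP.FGE
import Pool.Agent.Lib.LP.FIN
import Pool.Agent.Lib.LP.GAU
import Pool.Agent.Lib.LP.GMS
import Pool.Agent.Lib.LP.INV
import Pool.Agent.Lib.LP.LAN
import Pool.Agent.Lib.LP.LB
import Pool.Agent.Lib.LP.LDB
import Pool.Agent.Lib.LP.LOW
import Pool.Agent.Lib.LP.LP
import Pool.Agent.Lib.LP.LPZ
import Pool.Agent.Lib.LP.ORT
import Pool.Agent.Lib.LP.PER
import Pool.Agent.Lib.LP.PNG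
import Pool.Agent.Lib.LP.PSI
import Pool.Agent.Lib.LP.REC
import Pool.Agent.Lib.LP.SIG
import Pool.Agent.Lib.LP.UB
import Pool.Agent.Lib.LP.ZB

/-!
# Primes in progressions to large moduli (Landau-Page, weak form): the theorems

`lp`: for all `ε > 0` and `B` there is `x₀` such that for all `x ≥ x₀` and all squarefree `Q` with
`log Q ≤ (log x)^(1/50)` there is a prime `p₀ > B` such that for every divisor `q` of `Q` prime to `p₀`
and every `a` prime to `q`: `∑_{x < p ≤ 2 x, p = a mod q} log p ≤ (1 + ε) x / φ(q)`.
`lpz`: the same for the product of the primes below `z ≤ (log x)^(1/51)`, different from `p₀`.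
`low`: no zeros near the line `σ = 1` up to height `T` modulo `q`.
-/

set_option autoImplicit false

namespace Pool.Agent.Lib.LP

theorem ub : SpecUB := specUB specPER (specCON specPER)

theorem db : SpecDB := specDB ub

theorem zb : SpecZB := specZB specSIG

theorem lb : SpecLB := specLB ub db zb

theorem exc : SpecEXC := specEXC (specLAN db zb specFGE) (specCHL specSIG) specFIN

/-- no zeros near the line `σ = 1` up to height `T` for the moduli dividing `Q` and prime to `p₀` -/
theorem low : SpecLOW := specLOW db specINV lb exc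

theorem exp : SpecEXP := specEXP specGAU

theorem psi : SpecPSI := specPSI db specLDB exp specREC

theorem ort : SpecORT := specORT exp psi

/-- primes in progressions to large moduli -/
theorem lp : SpecLP := specLP low exp ort (specPNG exp) specGMS

/-- primes in progressions modulo the product of the small primes -/
theorem lpz : SpecLPZ := specLPZ lp

end Pool.Agent.Lib.LP
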