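import Pool.Agent.Lib.LP.Spec
import Pool.Agent.Lib.PntAP.Main

/-!
# LP, module PNG: the prime number theorem with a Gaussian weight
-/

set_option autoImplicit false

noncomputable section

namespace Pool.Agent.Lib.LP

open ArithmeticFunction MeasureTheory Filter Topology Set

namespace PNGM

/-! ### Bounds for `ψ` -/

lemma psi_lim : Tendsto (fun x : ℝ => Chebyshev.psi x / x) atTop (𝓝 1) := by
  have h := Pool.Agent.Lib.PntAP.psi_ap (q := 1) (a := (0 : ZMod 1)) (isUnit_of_subsingleton _)
  rw [Nat.totient_one, Nat.cast_one, div_one] at h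
  refine h.congr (fun x => ?_)
  congr 1
  unfold Pool.Agent.Lib.PntAP.psiAP Chebyshev.psi
  have h1 : (Finset.Icc 1 ⌊x⌋₊).filter (fun n : ℕ => (n : ZMod 1) = 0) = Finset.Icc 1 ⌊x⌋₊ := by
    apply Finset.filter_true_of_mem
    intro n _
    exact Subsingleton.elim _ _
  rw [h1]
  rfl

lemma psi_bounds (η : ℝ) (hη : 0 < η) : ∃ C : ℝ, 0 ≤ C ∧ ∀ y : ℝ, 0 ≤ y →
    Chebyshev.psi y ≤ (1 + η) * y + C ∧ (1 - η) * y - C ≤ Chebyshev.psi y := by
  have h := Metric.tendsto_atTop.mp psi_lim η hη
  obtain ⟨N, hN⟩ := h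
  set y0 : ℝ := max N 1 with hy0
  have hy1 : 1 ≤ y0 := le_max_right _ _
  refine ⟨Chebyshev.psi y0 + y0, by
    have := Chebyshev.psi_nonneg y0
    linarith, fun y hy => ?_⟩
  have hp0 := Chebyshev.psi_nonneg y0
  have hp := Chebyshev.psi_nonneg y
  rcases le_total y y0 with hc | hc
  · have hm := Chebyshev.psi_mono hc
    constructor
    · nlinarith
    · nlinarith
  · have hyN : N ≤ y := le_trans (le_max_left _ _) hc
    have h1 := hN y hyN
    rw [Real.dist_eq, abs_lt] at h1
    have hyp : 0 < y := by linarith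
    have h2 : Chebyshev.psi y / y < 1 + η := by linarith [h1.2]
    have h3 : 1 - η < Chebyshev.psi y / y := by linarith [h1.1]
    rw [div_lt_iff₀ hyp] at h2
    rw [lt_div_iff₀ hyp] at h3
    constructor <;> linarith

/-! ### Gaussian integrals -/

/-- minus the derivative of the Gaussian -/
def hh (lam r : ℝ) : ℝ := 2 * lam * r * G lam r

lemma G_nonneg (lam r : ℝ) : 0 ≤ G lam r := by
  unfold G
  positivity

lemma G_neg (lam r : ℝ) : G lam (-r) = G lam r := by
  unfold G
  rw [neg_sq]

lemma hh_nonneg (lam r : ℝ) (hl : 0 < lam) (hr : 0 ≤ r) : 0 ≤ hh lam r := by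
  unfold hh
  have := G_nonneg lam r
  positivity

lemma G_deriv (lam r : ℝ) : HasDerivAt (fun x => G lam x) (-hh lam r) r := by
  unfold hh G
  have h1 : HasDerivAt (fun x : ℝ => -lam * x ^ 2) (-lam * (2 * r)) r := by
    have := (hasDerivAt_pow 2 r).const_mul (-lam)
    simpa using this
  have h2 := (h1.exp).const_mul (√(lam / Real.pi))
  have h3 : √(lam / Real.pi) * (Real.exp (-lam * r ^ 2) * (-lam * (2 * r))) =
      -(2 * lam * r * (√(lam / Real.pi) * Real.exp (-lam * r ^ 2))) := by ring
  rw [h3] at h2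
  exact h2

lemma int_exp (lam c : ℝ) (hl : 0 < lam) :
    Integrable (fun r : ℝ => Real.exp (-lam * r ^ 2 + c * r)) := by
  have hb : ((-lam : ℝ) : ℂ).re < 0 := by
    rw [Complex.ofReal_re]; linarith
  have h := (integrable_cexp_quadratic' hb (c : ℂ) 0).re
  refine h.congr (Filter.Eventually.of_forall (fun r => ?_))
  have h1 : ((-lam : ℝ) : ℂ) * (r : ℂ) ^ 2 + (c : ℂ) * (r : ℂ) + 0 =
      ((-lam * r ^ 2 + c * r : ℝ) : ℂ) := by push_cast; ring
  show RCLike.re (Complex.exp (((-lam : ℝ) : ℂ) * (r : ℂ) ^ 2 + (c : ℂ) * (r : ℂ) + 0)) = _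
  rw [h1, ← Complex.ofReal_exp]
  exact Complex.ofReal_re _

lemma abs_le_exp (r : ℝ) : |r| ≤ Real.exp r + Real.exp (-r) := by
  have h1 := Real.add_one_le_exp r
  have h2 := Real.add_one_le_exp (-r)
  have h3 := Real.exp_pos r
  have h4 := Real.exp_pos (-r)
  rw [abs_le]
  constructor <;> linarith

lemma int_rexp (lam c : ℝ) (hl : 0 < lam) :
    Integrable (fun r : ℝ => r * Real.exp (-lam * r ^ 2 + c * r)) := by
  refine Integrable.mono' ((int_exp lam (c + 1) hl).add (int_exp lam (c - 1) hl)) ?_ ?_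
  · exact (by fun_prop : Continuous (fun r : ℝ => r * Real.exp (-lam * r ^ 2 + c * r))).aestronglyMeasurable
  · refine Filter.Eventually.of_forall (fun r => ?_)
    rw [norm_mul, Real.norm_eq_abs, Real.norm_eq_abs, Real.abs_exp]
    have h := mul_le_mul_of_nonneg_right (abs_le_exp r) (Real.exp_pos (-lam * r ^ 2 + c * r)).le
    refine h.trans (le_of_eq ?_)
    rw [add_mul, ← Real.exp_add, ← Real.exp_add]
    simp only [Pi.add_apply]
    congr 2 <;> ring

lemma G_exp (lam c r : ℝ) : G lam r * Real.exp (c * r) =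
    √(lam / Real.pi) * Real.exp (-lam * r ^ 2 + c * r) := by
  unfold G
  rw [Real.exp_add]
  ring

lemma int_G (lam c : ℝ) (hl : 0 < lam) : Integrable (fun r : ℝ => G lam r * Real.exp (c * r)) := by
  have h := (int_exp lam c hl).const_mul (√(lam / Real.pi))
  exact h.congr (Filter.Eventually.of_forall (fun r => (G_exp lam c r).symm))

lemma int_h (lam c : ℝ) (hl : 0 < lam) : Integrable (fun r : ℝ => hh lam r * Real.exp (c * r)) := by
  have h := (int_rexp lam c hl).const_mul (2 * lam * √(lam / Real.pi))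
  refine h.congr (Filter.Eventually.of_forall (fun r => ?_))
  show 2 * lam * √(lam / Real.pi) * (r * Real.exp (-lam * r ^ 2 + c * r)) = hh lam r * Real.exp (c * r)
  unfold hh
  have := G_exp lam c r
  calc 2 * lam * √(lam / Real.pi) * (r * Real.exp (-lam * r ^ 2 + c * r)) =
      2 * lam * r * (√(lam / Real.pi) * Real.exp (-lam * r ^ 2 + c * r)) := by ring
    _ = 2 * lam * r * (G lam r * Real.exp (c * r)) := by rw [this]
    _ = _ := by ring

lemma int_h0 (lam : ℝ) (hl : 0 < lam) : Integrable (fun r : ℝ => hh lam r) := by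
  have h := int_h lam 0 hl
  simpa using h

lemma tend_G (lam c : ℝ) (hl : 0 < lam) :
    Tendsto (fun r : ℝ => G lam r * Real.exp (c * r)) atTop (𝓝 0) := by
  have h1 : Tendsto (fun r : ℝ => (lam * r - c) * r) atTop atTop := by
    refine Tendsto.atTop_mul_atTop₀ ?_ tendsto_id
    exact tendsto_atTop_add_const_right _ (-c) (tendsto_id.const_mul_atTop hl)
  have h2 := (Real.tendsto_exp_neg_atTop_nhds_zero.comp h1).const_mul (√(lam / Real.pi))
  rw [mul_zero] at h2
  refine h2.congr (fun r => ?_)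
  rw [G_exp]
  simp only [Function.comp]
  congr 2
  ring

lemma G_eq (lam v : ℝ) (hl : 0 < lam) :
    G lam v = ∫ r in Ioi (0 : ℝ), (Ioi |v|).indicator (fun r => hh lam r) r := by
  rw [setIntegral_indicator measurableSet_Ioi]
  have h1 : Ioi (0 : ℝ) ∩ Ioi |v| = Ioi |v| := by
    rw [Set.Ioi_inter_Ioi]
    congr 1
    exact max_eq_right (abs_nonneg v)
  rw [h1]
  have h2 : ∫ r in Ioi |v|, hh lam r = 0 - (-G lam |v|) := by
    refine integral_Ioi_of_hasDerivAt_of_tendsto' (f := fun r => -G lam r) (fun x _ => ?_)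
      (int_h0 lam hl).integrableOn ?_
    · have := (G_deriv lam x).neg
      rw [neg_neg] at this
      exact this
    · have h3 := (tend_G lam 0 hl).neg
      simpa using h3
  rw [h2, zero_sub, neg_neg]
  rcases abs_choice v with h | h
  · rw [h]
  · rw [h, G_neg]

/-- the exponential moment of the Gaussian -/
lemma moment (lam : ℝ) (hl : 0 < lam) :
    ∫ r : ℝ, G lam r * Real.exp (1 * r) = Real.exp (1 / (4 * lam)) := by
  have h1 : ∀ r : ℝ, G lam r * Real.exp (1 * r) = √(lam / Real.pi) * Real.exp (1 / (4 * lam)) *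
      Real.exp (-lam * (r - 1 / (2 * lam)) ^ 2) := by
    intro r
    rw [G_exp, mul_assoc, ← Real.exp_add]
    congr 2
    field_simp
    ring
  simp_rw [h1]
  rw [integral_const_mul, integral_sub_right_eq_self (fun r : ℝ => Real.exp (-lam * r ^ 2)),
    integral_gaussian]
  have h2 : √(lam / Real.pi) * √(Real.pi / lam) = 1 := by
    rw [← Real.sqrt_mul (by positivity)]
    have : lam / Real.pi * (Real.pi / lam) = 1 := by
      have := Real.pi_ne_zero
      field_simp
    rw [this, Real.sqrt_one]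
  calc √(lam / Real.pi) * Real.exp (1 / (4 * lam)) * √(Real.pi / lam) =
      (√(lam / Real.pi) * √(Real.pi / lam)) * Real.exp (1 / (4 * lam)) := by ring
    _ = _ := by rw [h2, one_mul]

lemma half_moment (lam : ℝ) (hl : 0 < lam) :
    ∫ r in Ioi (0 : ℝ), (G lam r * Real.exp (1 * r) + G lam r * Real.exp (-1 * r)) =
      Real.exp (1 / (4 * lam)) := by
  rw [integral_add (int_G lam 1 hl).integrableOn (int_G lam (-1) hl).integrableOn]
  have h1 : ∫ r in Ioi (0 : ℝ), G lam r * Real.exp (-1 * r) =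
      ∫ r in Iic (0 : ℝ), G lam r * Real.exp (1 * r) := by
    have h2 := integral_comp_neg_Ioi (0 : ℝ) (fun r : ℝ => G lam r * Real.exp (1 * r))
    rw [neg_zero] at h2
    rw [← h2]
    refine integral_congr_ae (Filter.Eventually.of_forall (fun r => ?_))
    show G lam r * Real.exp (-1 * r) = G lam (-r) * Real.exp (1 * -r)
    rw [G_neg]
    congr 2
    ring
  rw [h1, add_comm, intervalIntegral.integral_Iic_add_Ioi (int_G lam 1 hl).integrableOn
    (int_G lam 1 hl).integrableOn, moment lam hl]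

lemma hA (lam : ℝ) (hl : 0 < lam) :
    ∫ r in Ioi (0 : ℝ), (hh lam r * Real.exp (1 * r) - hh lam r * Real.exp (-1 * r)) =
      Real.exp (1 / (4 * lam)) := by
  have hsub : ∫ r in Ioi (0 : ℝ), ((hh lam r * Real.exp (1 * r) - hh lam r * Real.exp (-1 * r)) -
      (G lam r * Real.exp (1 * r) + G lam r * Real.exp (-1 * r))) =
      (∫ r in Ioi (0 : ℝ), (hh lam r * Real.exp (1 * r) - hh lam r * Real.exp (-1 * r))) -
      ∫ r in Ioi (0 : ℝ), (G lam r * Real.exp (1 * r) + G lam r * Real.exp (-1 * r)) :=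
    integral_sub ((int_h lam 1 hl).sub (int_h lam (-1) hl)).integrableOn
      ((int_G lam 1 hl).add (int_G lam (-1) hl)).integrableOn
  rw [← half_moment lam hl, ← sub_eq_zero, ← hsub]
  have hd : ∀ x ∈ Ici (0 : ℝ), HasDerivAt
      (fun r => -(G lam r * Real.exp (1 * r) - G lam r * Real.exp (-1 * r)))
      (hh lam x * Real.exp (1 * x) - hh lam x * Real.exp (-1 * x) -
        (G lam x * Real.exp (1 * x) + G lam x * Real.exp (-1 * x))) x := by
    intro x _
    have h1 : HasDerivAt (fun r : ℝ => Real.exp (1 * r)) (Real.exp (1 * x) * (1 * 1)) x :=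
      ((hasDerivAt_id x).const_mul 1).exp
    have h2 : HasDerivAt (fun r : ℝ => Real.exp (-1 * r)) (Real.exp (-1 * x) * (-1 * 1)) x :=
      ((hasDerivAt_id x).const_mul (-1)).exp
    have h3 := (((G_deriv lam x).mul h1).sub ((G_deriv lam x).mul h2)).neg
    exact h3.congr_deriv (by ring)
  have ht : Tendsto (fun r : ℝ => -(G lam r * Real.exp (1 * r) - G lam r * Real.exp (-1 * r)))
      atTop (𝓝 (-(0 - 0))) := ((tend_G lam 1 hl).sub (tend_G lam (-1) hl)).neg
  have h4 := integral_Ioi_of_hasDerivAt_of_tendsto' hd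
    (((int_h lam 1 hl).sub (int_h lam (-1) hl)).sub
      ((int_G lam 1 hl).add (int_G lam (-1) hl))).integrableOn ht
  refine Eq.trans ?_ (h4.trans ?_)
  · rfl
  · simp

/-! ### The sum -/

lemma sum_bound (u r : ℝ) (hr : 0 < r) (s : Finset ℕ) :
    ∑ n ∈ s, (if |u - Real.log n| < r then vonMangoldt n else 0) ≤
      Chebyshev.psi (Real.exp (u + r)) - Chebyshev.psi (Real.exp (u - r)) := by
  classical
  have hle : ⌊Real.exp (u - r)⌋₊ ≤ ⌊Real.exp (u + r)⌋₊ :=
    Nat.floor_le_floor (Real.exp_le_exp.mpr (by linarith))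
  have h1 : Chebyshev.psi (Real.exp (u + r)) - Chebyshev.psi (Real.exp (u - r)) =
      ∑ n ∈ Finset.Ioc ⌊Real.exp (u - r)⌋₊ ⌊Real.exp (u + r)⌋₊, vonMangoldt n := by
    unfold Chebyshev.psi
    rw [← Finset.sum_Ioc_consecutive (fun n => vonMangoldt n) (Nat.zero_le _) hle]
    ring
  rw [h1]
  have h2 : ∀ n ∈ s, (if |u - Real.log n| < r then vonMangoldt n else 0) ≤
      (if n ∈ Finset.Ioc ⌊Real.exp (u - r)⌋₊ ⌊Real.exp (u + r)⌋₊ then vonMangoldt n else 0) := by
    intro n _
    have hL : 0 ≤ vonMangoldt n := vonMangoldt_nonneg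
    by_cases hn : n = 0
    · subst hn
      simp
    have hn' : (0 : ℝ) < (n : ℝ) := by exact_mod_cast Nat.pos_of_ne_zero hn
    by_cases hc : |u - Real.log n| < r
    · rw [abs_lt] at hc
      have ha : Real.exp (u - r) < (n : ℝ) := by
        rw [← Real.lt_log_iff_exp_lt hn']
        linarith [hc.2]
      have hb : (n : ℝ) < Real.exp (u + r) := by
        rw [← Real.log_lt_iff_lt_exp hn']
        linarith [hc.1]
      have hm : n ∈ Finset.Ioc ⌊Real.exp (u - r)⌋₊ ⌊Real.exp (u + r)⌋₊ := by
        rw [Finset.mem_Ioc]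
        exact ⟨(Nat.floor_lt (Real.exp_pos _).le).mpr ha, Nat.le_floor hb.le⟩
      rw [if_pos hm]
      split_ifs <;> simp [hL]
    · rw [if_neg hc]
      split_ifs <;> simp [hL]
  refine (Finset.sum_le_sum h2).trans ?_
  have h3 : ∑ n ∈ s, (if n ∈ Finset.Ioc ⌊Real.exp (u - r)⌋₊ ⌊Real.exp (u + r)⌋₊ then vonMangoldt n else 0) ≤
      ∑ n ∈ s ∪ Finset.Ioc ⌊Real.exp (u - r)⌋₊ ⌊Real.exp (u + r)⌋₊,
        (if n ∈ Finset.Ioc ⌊Real.exp (u - r)⌋₊ ⌊Real.exp (u + r)⌋₊ then vonMangoldt n else 0) := by
    refine Finset.sum_le_sum_of_subset_of_nonneg Finset.subset_union_left (fun n _ _ => ?_)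
    split_ifs
    · exact vonMangoldt_nonneg
    · exact le_rfl
  refine h3.trans (le_of_eq ?_)
  rw [Finset.sum_ite_mem, Finset.union_inter_cancel_right]

end PNGM

open PNGM in
theorem specPNG (_h : SpecEXP) : SpecPNG := by
  intro lam ε hl hε
  set A : ℝ := Real.exp (1 / (4 * lam)) with hAdef
  have hApos : 0 < A := Real.exp_pos _
  set B : ℝ := ∫ r in Ioi (0 : ℝ), (hh lam r * Real.exp (1 * r) + hh lam r * Real.exp (-1 * r)) with hB
  set D : ℝ := ∫ r in Ioi (0 : ℝ), hh lam r with hD
  have hB0 : 0 ≤ B := by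
    refine setIntegral_nonneg measurableSet_Ioi (fun r hr => ?_)
    have h1 := hh_nonneg lam r hl (le_of_lt hr)
    positivity
  have hD0 : 0 ≤ D := setIntegral_nonneg measurableSet_Ioi (fun r hr => hh_nonneg lam r hl (le_of_lt hr))
  set η : ℝ := ε * A / (2 * (B + 1)) with hη
  have hηpos : 0 < η := by positivity
  have hηB : η * B ≤ ε / 2 * A := by
    have h1 : η * (B + 1) = ε / 2 * A := by
      rw [hη]
      field_simp
    nlinarith
  obtain ⟨C, hC0, hC⟩ := psi_bounds η hηpos
  have hev := Real.tendsto_exp_atTop.eventually_ge_atTop (2 * C * D / (ε / 2 * A))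
  obtain ⟨u₀, hu₀⟩ := eventually_atTop.mp hev
  refine ⟨u₀, fun u hu => ?_⟩
  have hu1 := hu₀ u hu
  have hu2 : 2 * C * D ≤ ε / 2 * A * Real.exp u := by
    rw [div_le_iff₀ (by positivity)] at hu1
    linarith
  have hgoal : (1 + ε) * Real.exp (u + 1 / (4 * lam)) = Real.exp u * A + ε * A * Real.exp u := by
    rw [Real.exp_add]
    ring
  rw [hgoal]
  have hfin : ∀ s : Finset ℕ, ∑ n ∈ s, vonMangoldt n * G lam (u - Real.log n) ≤
      Real.exp u * A + ε * A * Real.exp u := by
    intro s
    have hI : ∀ n : ℕ, IntegrableOn (fun r => (Ioi |u - Real.log n|).indicator (fun r => hh lam r) r)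
        (Ioi (0 : ℝ)) := fun n => ((int_h0 lam hl).indicator measurableSet_Ioi).integrableOn
    have h1 : ∑ n ∈ s, vonMangoldt n * G lam (u - Real.log n) =
        ∫ r in Ioi (0 : ℝ), ∑ n ∈ s, vonMangoldt n *
          (Ioi |u - Real.log n|).indicator (fun r => hh lam r) r := by
      rw [integral_finsetSum _ (fun n _ => (hI n).const_mul _)]
      refine Finset.sum_congr rfl (fun n _ => ?_)
      rw [integral_const_mul, ← G_eq lam _ hl]
    rw [h1]
    have hint : IntegrableOn (fun r => Real.exp u * (hh lam r * Real.exp (1 * r) -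
        hh lam r * Real.exp (-1 * r)) + η * Real.exp u * (hh lam r * Real.exp (1 * r) +
        hh lam r * Real.exp (-1 * r)) + 2 * C * hh lam r) (Ioi (0 : ℝ)) :=
      (((((int_h lam 1 hl).sub (int_h lam (-1) hl)).const_mul _).add
        (((int_h lam 1 hl).add (int_h lam (-1) hl)).const_mul _)).add
        ((int_h0 lam hl).const_mul _)).integrableOn
    have h2 : ∫ r in Ioi (0 : ℝ), ∑ n ∈ s, vonMangoldt n *
          (Ioi |u - Real.log n|).indicator (fun r => hh lam r) r ≤
        ∫ r in Ioi (0 : ℝ), (Real.exp u * (hh lam r * Real.exp (1 * r) -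
        hh lam r * Real.exp (-1 * r)) + η * Real.exp u * (hh lam r * Real.exp (1 * r) +
        hh lam r * Real.exp (-1 * r)) + 2 * C * hh lam r) := by
      refine setIntegral_mono_on (integrable_finsetSum _ (fun n _ => (hI n).const_mul _)) hint
        measurableSet_Ioi (fun r hr => ?_)
      have hr' : 0 < r := hr
      have hh0 := hh_nonneg lam r hl hr'.le
      have h3 : ∑ n ∈ s, vonMangoldt n * (Ioi |u - Real.log n|).indicator (fun r => hh lam r) r =
          hh lam r * ∑ n ∈ s, (if |u - Real.log n| < r then vonMangoldt n else 0) := by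
        rw [Finset.mul_sum]
        refine Finset.sum_congr rfl (fun n _ => ?_)
        by_cases hc : |u - Real.log n| < r
        · rw [if_pos hc, Set.indicator_of_mem (by exact hc), mul_comm]
        · rw [if_neg hc, Set.indicator_of_notMem (by exact hc)]
          simp
      rw [h3]
      have h4 := sum_bound u r hr' s
      have h5 := (hC (Real.exp (u + r)) (Real.exp_pos _).le).1
      have h6 := (hC (Real.exp (u - r)) (Real.exp_pos _).le).2
      have h7 : ∑ n ∈ s, (if |u - Real.log n| < r then vonMangoldt n else 0) ≤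
          Real.exp u * (Real.exp (1 * r) - Real.exp (-1 * r)) +
            η * Real.exp u * (Real.exp (1 * r) + Real.exp (-1 * r)) + 2 * C := by
        have e1 : Real.exp (u + r) = Real.exp u * Real.exp (1 * r) := by
          rw [← Real.exp_add, one_mul]
        have e2 : Real.exp (u - r) = Real.exp u * Real.exp (-1 * r) := by
          rw [← Real.exp_add]
          congr 1
          ring
        rw [e1] at h5
        rw [e2] at h6
        rw [e1, e2] at h4
        linarith
      have h8 := mul_le_mul_of_nonneg_left h7 hh0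
      refine h8.trans (le_of_eq ?_)
      ring
    refine h2.trans ?_
    rw [integral_add, integral_add, integral_const_mul, integral_const_mul, integral_const_mul,
      hA lam hl]
    · have h9 : Real.exp u * A + η * Real.exp u * B + 2 * C * D ≤
          Real.exp u * A + ε * A * Real.exp u := by
        have h10 := mul_le_mul_of_nonneg_left hηB (Real.exp_pos u).le
        linarith
      exact h9
    · exact ((((int_h lam 1 hl).sub (int_h lam (-1) hl)).const_mul _)).integrableOn
    · exact (((int_h lam 1 hl).add (int_h lam (-1) hl)).const_mul _).integrableOn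
    · exact (((((int_h lam 1 hl).sub (int_h lam (-1) hl)).const_mul _).add
        (((int_h lam 1 hl).add (int_h lam (-1) hl)).const_mul _))).integrableOn
    · exact ((int_h0 lam hl).const_mul _).integrableOn
  unfold SU
  refine tsum_le_of_sum_le' (by positivity) hfin

end Pool.Agent.Lib.LP
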