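import Mathlib

/-!
# Primes in progressions to large moduli (Landau-Page, weak form): definitions and statements

THEOREM (`SpecLP`).  For all `ε > 0` and `B` there is `x₀` such that for all `x ≥ x₀` and all squarefree
`Q` with `log Q ≤ (log x)^(1/50)` there is a prime `p₀ > B` such that for every divisor `q` of `Q` prime
to `p₀` and every `a` prime to `q`
`∑_{x < p ≤ 2 x, p = a mod q} log p ≤ (1 + ε) x / φ(q)`.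

(Landau 1918, Page 1935, in a crude form: all exponents are wasted.)  PROOF, in the parameter `T` with
`log q ≤ T`, `log x = T^50`.  (1) `L(s, χ) = s ∫_1^∞ (∑_{k ≤ u} χ(k)) u^(-s-1) du` for `Re s > 0`, so
`|L| ≤ T^3`, `|L'| ≤ T^4` on `|t| ≤ T`, `1 - 1/(4T) ≤ σ ≤ 2`.  (2) The 3-4-1 inequality: `|L| ≥ T^(-44)` on
`|t| ≤ T`, `1 - T^(-44) ≤ σ ≤ 2` if `χ² ≠ 1` or `|t| ≥ T^(-20)`.  (3) Two different real characters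
mod `Q` cannot both have `|L(1, χ)| < T^(-12)` (Landau), and the conductor of the bad one has a prime
divisor `p₀ > B` (there are finitely many characters otherwise, and `L(1, χ) ≠ 0`); dropping it,
`|L| ≥ T^(-44)` for all `q | Q` prime to `p₀`.  (4) Gaussian weights: with
`G_λ(v) = sqrt(λ/π) exp(-λ v²)`, `∑ Λ(n) χ(n) G_λ(u - log n) = (1/2π) ∫ (-L'/L)(s) e^(su) e^(s²/4λ) dt`
on `σ = 1 + 1/u`; shift the part `|t| ≤ T` to `σ = 1 - T^(-44)`: everything is `≤ e^(u - 2T)` if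
`T^46 ≤ u ≤ T^60`.  (5) Orthogonality, the prime number theorem for the principal character, and a
narrow Gaussian instead of the indicator function.

One file `LP/<NAME>.lean` per module, namespace `Pool.Agent.Lib.LP`, auxiliary lemmas in the
sub-namespace `<NAME>M`, theorem `spec<NAME> (h : SpecYYY) .. : Spec<NAME>` with the modules named after
USES in this order.
-/

set_option autoImplicit false

noncomputable section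

namespace Pool.Agent.Lib.LP

open ArithmeticFunction DirichletCharacter MeasureTheory

/-- the Gaussian of mass one -/
def G (lam v : ℝ) : ℝ := √(lam / Real.pi) * Real.exp (-lam * v ^ 2)

/-- `∑ Λ(n) χ(n) G(u - log n)` -/
def F (lam : ℝ) {q : ℕ} (χ : DirichletCharacter ℂ q) (u : ℝ) : ℂ :=
  ∑' n : ℕ, (vonMangoldt n : ℂ) * χ n * ((G lam (u - Real.log n) : ℝ) : ℂ)

/-- `∑ Λ(n) G(u - log n)` -/
def SU (lam u : ℝ) : ℝ := ∑' n : ℕ, vonMangoldt n * G lam (u - Real.log n)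

open Classical in
/-- `∑ Λ(n) G(u - log n)` over the class of `a` modulo `q` -/
def SA (lam : ℝ) (q a : ℕ) (u : ℝ) : ℝ :=
  ∑' n : ℕ, if (n : ZMod q) = a then vonMangoldt n * G lam (u - Real.log n) else 0

/-- no zeros near the line `σ = 1` up to height `T` -/
def Good (T : ℝ) (q : ℕ) [NeZero q] : Prop :=
  ∀ χ : DirichletCharacter ℂ q, χ ≠ 1 → ∀ σ y : ℝ, |y| ≤ T → 1 - (T ^ 44)⁻¹ ≤ σ → σ ≤ 2 →
    (T ^ 44)⁻¹ ≤ ‖χ.LFunction (σ + y * Complex.I)‖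

/-! ### Upper bounds -/

/-- PER (60 lines). PROOF. The sum of `χ` over a complete system of residues is `0`
(`MulChar.sum_eq_zero_of_ne_one`), so `∑_{k ≤ n} χ(k)` is a sum over `n mod q < q` terms of norm `≤ 1`
(split `[1, n]` into blocks of `q` consecutive integers; `Function.Periodic`, or induction on `n / q`). -/
def SpecPER : Prop := ∀ (q : ℕ) [NeZero q] (χ : DirichletCharacter ℂ q), χ ≠ 1 → ∀ n : ℕ,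
  ‖∑ k ∈ Finset.Icc 1 n, χ (k : ZMod q)‖ ≤ q

/-- CON (150 lines), USES PER. PROOF. For `Re s > 1` this is `LSeries_eq_mul_integral` (`r = 0`; the
partial sums are bounded by PER; `LSeriesSummable_of_one_lt_re`, `LFunction_eq_LSeries`). Both sides are
differentiable on `{Re s > 0}`: the left one by `differentiable_LFunction`, the right one is
`s * mellin g (-s)` with `g(u) = ∑_{k ≤ u} χ(k)` for `u > 1`, `0` otherwise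
(`mellin_differentiableAt_of_isBigO_rpow` with `a = 0`, `b = -s.re - 1`: `g` is bounded, measurable and
zero near `0`). The half plane is convex: `AnalyticOnNhd.eqOn_of_preconnected_of_eventuallyEq` at
`s = 2`. -/
def SpecCON : Prop := ∀ (q : ℕ) [NeZero q] (χ : DirichletCharacter ℂ q), χ ≠ 1 → ∀ s : ℂ,
  0 < s.re → χ.LFunction s = s * ∫ u in Set.Ioi (1 : ℝ),
    (∑ k ∈ Finset.Icc 1 ⌊u⌋₊, χ (k : ZMod q)) * (u : ℂ) ^ (-(s + 1))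

/-- UB (120 lines), USES PER, CON. PROOF. `‖∑_{k ≤ u} χ(k)‖ ≤ min(u, q)`, `‖u^(-(s+1))‖ = u^(-σ-1)`. For
`1 < u ≤ q`: `u · u^(-σ-1) ≤ e u⁻¹` since `u^(1-σ) ≤ max(1, q^(1-σ)) ≤ exp(log q/(1 + log q)) ≤ e`; the
integral over `(1, q]` is `≤ e log q`. For `u > q`: `q ∫_q^∞ u^(-σ-1) du = q^(1-σ)/σ ≤ 2 e`
(`integral_Ioi_rpow_of_lt`). Total `≤ 2 e (1 + log q) ≤ 9 (1 + log q)`. (`norm_integral_le_of_norm_le` or
`norm_integral_le_integral_norm`; a pointwise bound by `e u⁻¹ 1_{u ≤ q} + q u^(-σ-1) 1_{u > q}`.) -/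
def SpecUB : Prop := ∀ (q : ℕ) [NeZero q] (χ : DirichletCharacter ℂ q), χ ≠ 1 → ∀ s : ℂ,
  1 / 2 ≤ s.re → 1 - 1 / (1 + Real.log q) ≤ s.re →
  ‖χ.LFunction s‖ ≤ 9 * ‖s‖ * (1 + Real.log q)

/-- DB (80 lines), USES UB. PROOF. (1) UB: `‖s‖ ≤ 2 + T`, `1/(4T) ≤ 1/(1+T) ≤ 1/(1 + log q)`, `9 (T+2)(T+1) ≤ T³`.
(2) Cauchy's estimate on the circle of radius `1/(4T)` about `s`
(`Complex.norm_deriv_le_of_forall_mem_sphere_norm_le`): its points have real part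
`≥ 1 - 1/(2T) ≥ 1 - 1/(1+T)` and norm `≤ T + 3`, so `‖L‖ ≤ 9 (T+3)(T+1) ≤ 54 T²` there and
`‖L'‖ ≤ 4 T · 54 T² ≤ T⁴`. -/
def SpecDB : Prop := ∀ T : ℝ, 1000 ≤ T → ∀ (q : ℕ) [NeZero q] (χ : DirichletCharacter ℂ q), χ ≠ 1 →
  Real.log q ≤ T → ∀ s : ℂ, |s.im| ≤ T → 1 - 1 / (4 * T) ≤ s.re → s.re ≤ 2 →
  ‖χ.LFunction s‖ ≤ T ^ 3 ∧ ‖deriv χ.LFunction s‖ ≤ T ^ 4

/-- SIG (90 lines). PROOF. (1) `∏_{p | q} (1 + 1/p) ≤ ∑_{d | q} 1/d` (expand the product,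
`Finset.prod_one_add`: the products of different primes dividing `q` are different divisors of `q`)
`≤ ∑_{d ≤ q} 1/d ≤ 1 + log q` (`harmonic_le_one_add_log`). (2) `(1 - 1/p)(1 + 1/p) = 1 - 1/p²` and
`∏_{p ∈ S} (1 - 1/p²) ≥ ∏_{n=2}^{N} (1 - 1/n²) = (N+1)/(2N) ≥ 1/2` for finite sets `S` of primes `≤ N`
(`Finset.prod_le_prod_of_subset_of_le_one'`-type lemma or induction), so
`∏ (1 - 1/p) ≥ (1/2)/∏ (1 + 1/p)`; use (1). -/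
def SpecSIG : Prop := ∀ q : ℕ, q ≠ 0 →
  (∏ p ∈ q.primeFactors, (1 + 1 / (p : ℝ)) ≤ 1 + Real.log q) ∧
  1 ≤ 2 * (1 + Real.log q) * ∏ p ∈ q.primeFactors, (1 - 1 / (p : ℝ))

/-- ZB (120 lines), USES SIG. PROOF. `LFunctionTrivChar_eq_mul_riemannZeta`. For `Re s > 1`
`LSeries_eq_mul_integral` for the constant function `1` (or `riemannZeta` formulas of Mathlib) gives
`ζ(s) = s ∫_1^∞ ⌊u⌋ u^(-s-1) du = s/(s-1) - s ∫_1^∞ {u} u^(-s-1) du`, so `‖ζ(s)‖ ≤ ‖s‖/‖s-1‖ + ‖s‖`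
(`∫_1^∞ u^(-σ-1) = 1/σ ≤ 1`). (1) `ζ(1+x) ≤ 1 + 1/x ≤ 2/x` (`∑ n^(-1-x) ≤ 1 + ∫_1^∞ u^(-1-x) du`) and
`|1 - p^(-1-x)| ≤ 1`. (2) `‖1 - p^(-s)‖ ≤ 1 + 1/p`, SIG. -/
def SpecZB : Prop := ∀ (q : ℕ) [NeZero q],
  (∀ x : ℝ, 0 < x → x ≤ 1 → ‖LFunctionTrivChar q (1 + x)‖ ≤ 2 / x) ∧
  (∀ s : ℂ, 1 < s.re →
    ‖LFunctionTrivChar q s‖ ≤ (1 + Real.log q) * (‖s‖ / ‖s - 1‖ + ‖s‖))

/-- INV (60 lines). PROOF. `L(s, χ) L(s, χ μ) = 1` (`LSeries.mul_mu_eq_one`, `LFunction_eq_LSeries`) and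
`‖L(s, χ μ)‖ ≤ ∑_{n ≥ 1} n^(-1-x) ≤ 1 + 1/x ≤ 2/x`. -/
def SpecINV : Prop := ∀ (q : ℕ) [NeZero q] (χ : DirichletCharacter ℂ q) (x y : ℝ), 0 < x → x ≤ 1 →
  x / 2 ≤ ‖χ.LFunction (1 + x + y * Complex.I)‖

/-! ### Lower bounds -/

/-- LB (150 lines), USES UB, DB, ZB. PROOF. Let `0 < x ≤ 1`, `s' = 1 + x + 2 i y`, `‖s'‖ ≤ 2 + 2 T`. If
`χ² ≠ 1`: `‖L(s', χ²)‖ ≤ 9 (2 + 2T)(1 + T) ≤ T³` (UB). If `χ² = 1`: `‖s' - 1‖ ≥ 2 |y| ≥ 2 T^(-20)`, ZB: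
`‖L(s', 1)‖ ≤ (1 + T)(2 + 2T)(T^20/2 + 1) ≤ T^23`. With ZB (1) and `norm_LFunction_product_ge_one`:
`(2/x)³ ‖L(1+x+iy, χ)‖⁴ T^23 ≥ 1`, so `‖L(1+x+iy, χ)‖⁴ ≥ x³ T^(-24)`. If `x ≥ T^(-44)` this is
`≥ T^(-156)`, so `‖L(1+x+iy, χ)‖ ≥ T^(-39)`. This settles `σ ≥ 1 + T^(-44)`. For `σ` between
`1 - T^(-44)` and `1 + T^(-44)` compare with `x = T^(-44)`: by DB and the mean value inequality
(`Convex.norm_image_sub_le_of_norm_deriv_le` on the region of DB) the difference is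
`≤ 2 T^(-44) T⁴`, and `T^(-39) - 2 T^(-40) ≥ T^(-44)`. -/
def SpecLB : Prop := ∀ T : ℝ, 1000 ≤ T → ∀ (q : ℕ) [NeZero q] (χ : DirichletCharacter ℂ q), χ ≠ 1 →
  Real.log q ≤ T → ∀ σ y : ℝ, |y| ≤ T → (χ ^ 2 ≠ 1 ∨ (T ^ 20)⁻¹ ≤ |y|) →
  1 - (T ^ 44)⁻¹ ≤ σ → σ ≤ 2 → (T ^ 44)⁻¹ ≤ ‖χ.LFunction (σ + y * Complex.I)‖

/-- FGE (150 lines). PROOF. As `norm_LSeries_product_ge_one` in
`Mathlib.NumberTheory.LSeries.Nonvanishing`: by `LSeries_eulerProduct_exp_log` and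
`summable_neg_log_one_sub_mul_prime_cpow` the product is `exp` of the sum over the primes of
`- log (1 - z) - log (1 - a z) - log (1 - b z) - log (1 - a b z)`, `z = p^(-σ) ∈ (0, 1)`, `a = χ₁(p)`,
`b = χ₂(p)`, both in `{1, -1}` for `p ∤ q` (`a² = 1`), all terms `0` for `p | q`. Real part `≥ 0`: the product
`(1-z)(1-az)(1-bz)(1-abz)` is `(1-z)⁴` if `a = b = 1` and `(1-z²)²` otherwise, so in `(0, 1]`. -/
def SpecFGE : Prop := ∀ (q : ℕ) [NeZero q] (χ₁ χ₂ : DirichletCharacter ℂ q), χ₁ ^ 2 = 1 →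
  χ₂ ^ 2 = 1 → ∀ x : ℝ, 0 < x →
  1 ≤ ‖LFunctionTrivChar q (1 + x) * χ₁.LFunction (1 + x) * χ₂.LFunction (1 + x) *
    (χ₁ * χ₂).LFunction (1 + x)‖

/-- LAN (80 lines), USES DB, ZB, FGE. Landau: PROOF. Suppose both are `< δ = T^(-12)` and take `x = δ`. By
the mean value inequality and DB `‖L(1+x, χ_i)‖ ≤ δ + x T⁴ ≤ 2 T^(-8)`; `χ₁ χ₂ ≠ 1` (as
`χ₂⁻¹ = χ₂ ≠ χ₁`), so `‖L(1+x, χ₁ χ₂)‖ ≤ T³`; `‖L(1+x, 1)‖ ≤ 2 T^12`. The product of the four is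
`≤ 8 T^(12 - 16 + 3) = 8/T < 1`, against FGE. -/
def SpecLAN : Prop := ∀ T : ℝ, 1000 ≤ T → ∀ (q : ℕ) [NeZero q] (χ₁ χ₂ : DirichletCharacter ℂ q),
  Real.log q ≤ T → χ₁ ≠ 1 → χ₂ ≠ 1 → χ₁ ^ 2 = 1 → χ₂ ^ 2 = 1 → χ₁ ≠ χ₂ →
  (T ^ 12)⁻¹ ≤ ‖χ₁.LFunction 1‖ ∨ (T ^ 12)⁻¹ ≤ ‖χ₂.LFunction 1‖

/-- CHL (60 lines), USES SIG. PROOF. `LFunction_changeLevel` at `s = 1`, `L(1, lift) = L(1, χ) ∏_{p | Q}
(1 - χ(p)/p)`, and `1 - 1/p ≤ ‖1 - χ(p)/p‖ ≤ 1 + 1/p` (`DirichletCharacter.norm_le_one`); SIG. -/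
def SpecCHL : Prop := ∀ (q Q : ℕ) [NeZero q] [NeZero Q] (h : q ∣ Q) (χ : DirichletCharacter ℂ q), χ ≠ 1 →
  ‖(changeLevel h χ).LFunction 1‖ ≤ (1 + Real.log Q) * ‖χ.LFunction 1‖ ∧
  ‖χ.LFunction 1‖ ≤ 2 * (1 + Real.log Q) * ‖(changeLevel h χ).LFunction 1‖

/-- FIN (40 lines). PROOF. `LFunction_apply_one_ne_zero`; for one `q` there are finitely many `χ` (`Finite
(DirichletCharacter ℂ q)`), so a positive minimum; then induction on `N` (or the minimum over `q ≤ N`). -/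
def SpecFIN : Prop := ∀ N : ℕ, ∃ c : ℝ, 0 < c ∧ ∀ (q : ℕ) [NeZero q], q ≤ N →
  ∀ χ : DirichletCharacter ℂ q, χ ≠ 1 → c ≤ ‖χ.LFunction 1‖

/-- EXC (150 lines), USES LAN, CHL, FIN. PROOF. `N = ∏_{p ≤ B} p` (`primorial B`), `c` from FIN, `T₁ ≥ 1000`
such that `T₁^14 c > 2 (1 + T₁)²` and the same for all `T ≥ T₁` (e.g. `T₁ = max 1000 (1/c)`, as
`2 (1+T)² ≤ T³`, `T^14 c ≥ T^13`). Call `χ` mod `q | Q` bad if `χ ≠ 1`, `χ² = 1`, `‖L(1, χ)‖ < T^(-14)`. If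
there is no bad one take any prime `p₀ > B` (`Nat.exists_infinite_primes`). Otherwise let `χ'` mod `q'` be
bad and `χ_e = changeLevel χ'` mod `Q`; `χ_e ≠ 1` (`changeLevel_eq_one_iff`), `χ_e² = 1` (`changeLevel` is a
homomorphism), and for every bad `χ` its lift has by CHL `‖L(1, lift)‖ < T^(-14) (1 + T) < T^(-12)`. So by
LAN all bad characters have the same lift `χ_e`. Let `m` be the conductor of `χ_e`. CLAIM: a prime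
`p₀ > B` divides `m`. Otherwise `m | Q` is squarefree with all primes `≤ B`, so `m | N`, `m ≤ N`;
`χ_e = changeLevel χ_0`, `χ_0` the primitive character mod `m`, `χ_0 ≠ 1` (as `χ_e ≠ 1`), and by FIN and CHL
`c ≤ ‖L(1, χ_0)‖ ≤ 2 (1 + T) ‖L(1, χ_e)‖ ≤ 2 (1 + T)² T^(-14)`, against the choice of `T₁`. If `χ` mod `q` is bad
then `χ_e = changeLevel χ` gives `m ∣ q` (`changeLevel_factorsThrough` and
`conductor_dvd_of_mem_conductorSet`), so `p₀ ∣ q`: excluded by `q.Coprime p₀`. -/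
def SpecEXC : Prop := ∀ B : ℕ, ∃ T₁ : ℝ, 1000 ≤ T₁ ∧ ∀ T : ℝ, T₁ ≤ T → ∀ (Q : ℕ) [NeZero Q],
  Squarefree Q → Real.log Q ≤ T → ∃ p₀ : ℕ, p₀.Prime ∧ B < p₀ ∧ ∀ (q : ℕ) [NeZero q], q ∣ Q →
    q.Coprime p₀ → ∀ χ : DirichletCharacter ℂ q, χ ≠ 1 → χ ^ 2 = 1 → (T ^ 14)⁻¹ ≤ ‖χ.LFunction 1‖

/-- LOW (100 lines), USES DB, INV, LB, EXC. PROOF. `T₁` and `p₀` of EXC; `log q ≤ log Q ≤ T`. If `χ² ≠ 1` or
`|y| ≥ T^(-20)`: LB. Otherwise `‖L(1, χ)‖ ≥ T^(-14)`. If `σ ≤ 1 + T^(-20)`: the distance of `σ + i y` to `1`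
is `≤ 2 T^(-20)`, so by DB and the mean value inequality `‖L‖ ≥ T^(-14) - 2 T^(-16) ≥ T^(-44)`. If
`σ > 1 + T^(-20)`: INV gives `‖L‖ ≥ T^(-20)/2 ≥ T^(-44)`. -/
def SpecLOW : Prop := ∀ B : ℕ, ∃ T₁ : ℝ, 1000 ≤ T₁ ∧ ∀ T : ℝ, T₁ ≤ T → ∀ (Q : ℕ) [NeZero Q],
  Squarefree Q → Real.log Q ≤ T → ∃ p₀ : ℕ, p₀.Prime ∧ B < p₀ ∧
    ∀ (q : ℕ) [NeZero q], q ∣ Q → q.Coprime p₀ → Good T q

/-! ### The explicit formula with Gaussian weights -/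

/-- GAU (80 lines). PROOF. `s = σ + i t`, `v = u - log n`: `s u - s log n + s²/(4λ) =
- t²/(4λ) + i t w + σ v + σ²/(4λ)` with `w = v + σ/(2λ)`; `∫ exp(- b t² + i t w) dt =
sqrt(π/b) exp(- w²/(4b))`, `b = 1/(4λ)` (`integral_cexp_quadratic` or `fourierIntegral_gaussian`), is
`sqrt(4 π λ) exp(- λ w²)`, and `- λ w² + σ v + σ²/(4λ) = - λ v²`. `sqrt(4 π λ) = 2 π sqrt(λ/π)`. The norm of the
integrand is `exp(σ v + σ²/(4λ)) exp(- t²/(4λ))`. -/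
def SpecGAU : Prop := ∀ lam : ℝ, 0 < lam → ∀ (u σ : ℝ) (n : ℕ), n ≠ 0 →
  Integrable (fun t : ℝ => (n : ℂ) ^ (-(σ + t * Complex.I)) *
    Complex.exp ((σ + t * Complex.I) * u + (σ + t * Complex.I) ^ 2 / (4 * lam))) ∧
  (∫ t : ℝ, (n : ℂ) ^ (-(σ + t * Complex.I)) *
    Complex.exp ((σ + t * Complex.I) * u + (σ + t * Complex.I) ^ 2 / (4 * lam))) =
    ((2 * Real.pi * G lam (u - Real.log n) : ℝ) : ℂ) ∧
  (∫ t : ℝ, ‖(n : ℂ) ^ (-(σ + t * Complex.I)) *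
    Complex.exp ((σ + t * Complex.I) * u + (σ + t * Complex.I) ^ 2 / (4 * lam))‖) =
    (n : ℝ) ^ (-σ) * (Real.exp (σ * u + σ ^ 2 / (4 * lam)) * √(4 * Real.pi * lam))

/-- LDB (60 lines). PROOF. `-L'/L(s) = ∑ Λ(n) χ(n) n^(-s)` for `σ > 1` (`LSeries_twist_vonMangoldt_eq`,
`deriv_LFunction_eq_deriv_LSeries`), `Λ(n) ≤ log n ≤ (2/x) n^(x/2)`, `x = σ - 1`
(`Real.log_le_rpow_div`), `∑ n^(-1-x/2) ≤ 1 + 2/x ≤ 3/x`. -/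
def SpecLDB : Prop := ∀ (q : ℕ) [NeZero q] (χ : DirichletCharacter ℂ q) (s : ℂ), 1 < s.re → s.re ≤ 2 →
  ‖deriv χ.LFunction s / χ.LFunction s‖ ≤ 8 / (s.re - 1) ^ 2

/-- EXP (150 lines), USES GAU. PROOF. (1) `G(u - log n) ≤ C_u n^(-3)` (complete the square: `- λ (u - l)² + 3 l` is
bounded in `l`; or from GAU with `σ = 3`), `Λ(n) ≤ n`. (2) Expand `-L'/L(σ + i t) = ∑ Λ(n) χ(n) n^(-σ-it)`
(`LSeries_twist_vonMangoldt_eq`, `deriv_LFunction_eq_deriv_LSeries`) and integrate term by term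
(`MeasureTheory.hasSum_integral_of_summable_integral_norm`, third clause of GAU, `∑ Λ(n) n^(-σ) < ∞`). The
integrand is the sum of the series of integrable functions with summable norms, so it is integrable
(`integrable_tsum`-type lemma, or: it is continuous and bounded by `(∑ Λ(n) n^(-σ)) exp(..)
exp(- t²/(4λ))`). -/
def SpecEXP : Prop := ∀ lam : ℝ, 0 < lam → ∀ u : ℝ,
  (Summable fun n : ℕ => vonMangoldt n * G lam (u - Real.log n)) ∧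
  ∀ (q : ℕ) [NeZero q] (χ : DirichletCharacter ℂ q) (σ : ℝ), 1 < σ →
  Integrable (fun t : ℝ => -(deriv χ.LFunction (σ + t * Complex.I) /
    χ.LFunction (σ + t * Complex.I)) *
    Complex.exp ((σ + t * Complex.I) * u + (σ + t * Complex.I) ^ 2 / (4 * lam))) ∧
  (2 * Real.pi : ℝ) * F lam χ u = ∫ t : ℝ, -(deriv χ.LFunction (σ + t * Complex.I) /
    χ.LFunction (σ + t * Complex.I)) *
    Complex.exp ((σ + t * Complex.I) * u + (σ + t * Complex.I) ^ 2 / (4 * lam))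

/-- REC (40 lines). PROOF. `Complex.integral_boundary_rect_eq_zero_of_differentiableOn`. -/
def SpecREC : Prop := ∀ (f : ℂ → ℂ) (a b T : ℝ), a ≤ b → 0 ≤ T →
  (∀ σ t : ℝ, a ≤ σ → σ ≤ b → |t| ≤ T → DifferentiableAt ℂ f (σ + t * Complex.I)) →
  ‖∫ t in (-T)..T, f (b + t * Complex.I)‖ ≤ ‖∫ t in (-T)..T, f (a + t * Complex.I)‖ +
    ‖∫ σ in a..b, f (σ + T * Complex.I)‖ + ‖∫ σ in a..b, f (σ + (-T : ℝ) * Complex.I)‖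

/-- PSI (200 lines), USES DB, LDB, EXP, REC. PROOF. `σ₀ = 1 + 1/u ≤ 2`, `σ₁ = 1 - T^(-44)`. On the rectangle
`σ₁ ≤ σ ≤ σ₀`, `|t| ≤ T`: `‖L'/L‖ ≤ T⁴ T^44 = T^48` (DB, `Good`), `L ≠ 0`, so
`f(s) = -(L'/L)(s) exp(s u + s²/(4λ))` is differentiable; for all `σ ≤ 2`
`‖exp(s u + s²/(4λ))‖ = exp(σ u + (σ² - t²)/(4λ)) ≤ e^(1/λ) e^(σ u) e^(-t²/(4λ))`. By EXP
`2π ‖F‖ ≤ ‖∫_(|t| > T) f(σ₀ + it)‖ + ‖∫_(-T)^T f(σ₀ + it)‖`. Tail: `‖L'/L‖ ≤ 8 u²` (LDB),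
`∫_(|t| > T) e^(-t²/(4λ)) ≤ 2 ∫_T^∞ e^(-T t/(4λ)) = (8 λ/T) e^(-T²/(4λ))`: at most
`C_λ T^120 e^(u+1) e^(-T²/(4λ))`. The rest by REC: at most `2 T · T^48 e^(1/λ) e^(σ₁ u)`, `e^(σ₁ u) ≤ e^u e^(-T²)` as
`u ≥ T^46`, plus `2 · 2 · T^48 e^(1/λ) e^(u+1) e^(-T²/(4λ))`. For `T ≥ T₀(λ)` each of the three is
`≤ e^(u - 2T)` (`T^120 C e^(-T²/(4λ)) ≤ e^(-2T)` for large `T`: `Real.tendsto_pow_mul_exp_neg_atTop_nhds_zero` with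
`T²/(4λ) ≥ 3 T`), and `3/(2π) ≤ 1`. -/
def SpecPSI : Prop := ∀ lam : ℝ, 0 < lam → ∃ T₀ : ℝ, ∀ T : ℝ, T₀ ≤ T → ∀ (q : ℕ) [NeZero q],
  Real.log q ≤ T → Good T q → ∀ χ : DirichletCharacter ℂ q, χ ≠ 1 → ∀ u : ℝ,
  T ^ 46 ≤ u → u ≤ T ^ 60 → ‖F lam χ u‖ ≤ Real.exp (u - 2 * T)

/-- ORT (120 lines), USES EXP, PSI. PROOF. `DirichletCharacter.sum_char_inv_mul_char_eq`:
`φ(q) 1_{n = a} = ∑_χ χ(a⁻¹) χ(n)`, so `φ(q) SA = ∑_χ χ(a⁻¹) F_χ(u)` (finite sum of summable series). The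
principal character gives `∑_{(n, q) = 1} Λ(n) G(u - log n) ≤ SU`, the others (`φ(q) - 1` of them,
`|χ(a⁻¹)| ≤ 1`) at most `φ(q) e^(u - 2T) ≤ q e^(u - 2T) ≤ e^(u - T)`. (Number of characters:
`DirichletCharacter.card_eq_totient_of_hasEnoughRootsOfUnity`.) -/
def SpecORT : Prop := ∀ lam : ℝ, 0 < lam → ∃ T₀ : ℝ, ∀ T : ℝ, T₀ ≤ T → ∀ (q : ℕ) [NeZero q],
  Real.log q ≤ T → Good T q → ∀ a : ℕ, a.Coprime q → ∀ u : ℝ, T ^ 46 ≤ u → u ≤ T ^ 60 →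
  SA lam q a u ≤ (SU lam u + Real.exp (u - T)) / q.totient

/-- PNG (150 lines), USES EXP. PROOF. `ψ(y) ≤ ..`: by the prime number theorem (`Lib/PntAP/Main.lean`, `psi_ap`
with `q = 1`, `ψ(y)/y → 1`) `ψ(y) = y + E(y)`, `|E(y)| ≤ η y + C_η` for `y ≥ 1`. Let `g(y) = G(u - log y)` (`y > 0`),
`g' (y) = 2 λ (u - log y) g(y)/y`. `∑ Λ(n) g(n) = ∑ Λ(n) ∫_n^∞ (- g'(y)) dy = - ∫_1^∞ ψ(y) g'(y) dy`
`≤ - ∫_1^∞ y g'(y) dy + ∫_1^∞ (η y + C_η) |g'(y)| dy`. The first one is `g(1) + ∫_1^∞ g ≤ sqrt(λ/π) +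
∫_0^∞ g = sqrt(λ/π) + e^(u + 1/(4λ))` (substitute `y = e^w`). `∫ y |g'(y)| dy = e^u ∫ 2 λ |w| G(w) e^(-w) dw =
C_λ e^u`, `∫ |g'| = 2 max g = 2 sqrt(λ/π)`. (Abel summation on `[1, N]`: `sum_mul_eq_sub_integral_mul`-type
lemmas of Mathlib, then `N → ∞`; or split the sum at `e^(u + k δ)` by hand.) -/
def SpecPNG : Prop := ∀ lam ε : ℝ, 0 < lam → 0 < ε → ∃ u₀ : ℝ, ∀ u : ℝ, u₀ ≤ u →
  SU lam u ≤ (1 + ε) * Real.exp (u + 1 / (4 * lam))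

/-- GMS (60 lines). PROOF. `∫_ℝ G_λ = 1` (`integral_gaussian`); for `|v| > κ`: `e^(-λ v²) ≤ e^(-λ κ |v|)`, so the mass
outside `[-κ, κ]` is `≤ sqrt(λ/π) · (2/(λ κ)) e^(-λ κ²) → 0`. (Or dominated convergence after the
substitution `v = w/sqrt λ`.) -/
def SpecGMS : Prop := ∀ κ ε : ℝ, 0 < κ → 0 < ε → ∃ lam₀ : ℝ, ∀ lam : ℝ, lam₀ ≤ lam →
  1 - ε ≤ ∫ v in (-κ)..κ, G lam v

/-- LP (250 lines), USES LOW, EXP, ORT, PNG, GMS. PROOF. We may assume `ε ≤ 1`. `κ > 0` with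
`2 e^κ - e^(-κ) ≤ 1 + ε/8`, `λ` with mass `≥ 1 - ε/8` in `[-κ, κ]` and `e^(1/(4λ)) ≤ 1 + ε/8`; PNG with `ε/8`.
`T = (log x)^(1/50)`, `T^50 = log x`; for `x ≥ x₀`: `T ≥ T₁(B)`, `T ≥ T₀(λ)`, `e^(-T) ≤ ε/8`, and every
`w ∈ [log x - κ, log (2x) + κ]` has `T^46 ≤ w ≤ T^60`, `w ≥ u₀`. LOW gives `p₀`.
Let `q | Q`, `(q, p₀) = 1`, `(a, q) = 1`. For a prime `p`, `x < p ≤ 2x`:
`∫_(log x - κ)^(log 2x + κ) G(w - log p) dw ≥ ∫_(-κ)^κ G ≥ 1 - ε/8`. So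
`(1 - ε/8) ∑_p log p ≤ ∫ (∑_p Λ(p) G(w - log p)) dw` (finite sum over the `p = a mod q` in `(x, 2x]`), for each `w` the
finite sum is `≤ SA λ q a w ≤ ((1 + ε/8) e^(w + 1/(4λ)) + e^(w - T))/φ(q)` (nonnegative terms, summable by
EXP; ORT, PNG), and `∫_(log x - κ)^(log 2x + κ) e^w dw = x (2 e^κ - e^(-κ)) ≤ (1 + ε/8) x`. Total:
`(1 - ε/8)⁻¹ ((1 + ε/8)² + ε/8)(1 + ε/8) ≤ 1 + ε`. -/
def SpecLP : Prop := ∀ ε : ℝ, 0 < ε → ∀ B : ℕ, ∃ x₀ : ℕ, ∀ x : ℕ, x₀ ≤ x → ∀ Q : ℕ, Squarefree Q →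
  Real.log Q ≤ (Real.log x) ^ ((1 : ℝ) / 50) →
  ∃ p₀ : ℕ, p₀.Prime ∧ B < p₀ ∧ ∀ q a : ℕ, q ∣ Q → q.Coprime p₀ → a.Coprime q →
    ∑ p ∈ (Finset.Ioc x (2 * x)).filter (fun p => p.Prime ∧ p ≡ a [MOD q]), Real.log p ≤
      (1 + ε) * x / q.totient

/-- LPZ (60 lines), USES LP. PROOF. `Q = ∏_{p < z} p = primorial (z - 1) ≤ 4^z` (`primorial_le_four_pow`),
squarefree (`Finset.squarefree_prod_of_pairwise_isCoprime`-type lemma), `log Q ≤ 2 z ≤ 2 (log x)^(1/51)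
≤ (log x)^(1/50)` for `x ≥ x₀`. `M | Q` and `M` is prime to `p₀` (product of primes `≠ p₀`). -/
def SpecLPZ : Prop := ∀ ε : ℝ, 0 < ε → ∀ B : ℕ, ∃ x₀ : ℕ, ∀ x z : ℕ, x₀ ≤ x → 2 ≤ z →
  (z : ℝ) ≤ (Real.log x) ^ ((1 : ℝ) / 51) →
  ∃ p₀ : ℕ, p₀.Prime ∧ B < p₀ ∧
    ∀ M : ℕ, M = ∏ p ∈ (Finset.range z).filter (fun p => p.Prime ∧ p ≠ p₀), p →
    ∀ n : ℕ, n.Coprime M →
    ∑ p ∈ (Finset.Ioc x (2 * x)).filter (fun p => p.Prime ∧ p ≡ n [MOD M]), Real.log p ≤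
      (1 + ε) * x / M.totient

end Pool.Agent.Lib.LP
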